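import Pool.Agent.Run7.h429.MR.Defs

/-!
# Basic facts on normal measures, coherent sequences and conditions
-/

namespace Run7.h429.MR

open Set

universe u v

variable {κ : Ordinal.{u}} {M : CoherentSeq κ}

section Measures

variable {α : Ordinal.{u}} {U : Ultrafilter Ordinal.{u}}

theorem IsNormalMeasure.Ioi_mem (h : IsNormalMeasure α U) {β : Ordinal.{u}} (hβ : β < α) :
    Ioi β ∈ U := by
  have h1 := h.complete β hβ (fun γ => {γ}ᶜ) (fun γ hγ => h.nonprincipal γ (hγ.trans hβ))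
  refine Filter.mem_of_superset (Filter.inter_mem h1 (h.nonprincipal β hβ)) ?_
  rintro ν ⟨hν, hν'⟩
  have h2 : ¬ ν < β := fun hlt => hν ν hlt rfl
  have h3 : ν ≠ β := hν'
  exact lt_of_le_of_ne (not_lt.1 h2) (Ne.symm h3)

theorem IsNormalMeasure.exists_gt (h : IsNormalMeasure α U) {β : Ordinal.{u}} (hβ : β < α)
    {X : Set Ordinal.{u}} (hX : X ∈ U) : ∃ ν ∈ X, β < ν ∧ ν < α := by
  have := Filter.inter_mem hX (Filter.inter_mem (h.Ioi_mem hβ) h.conc)
  obtain ⟨ν, h1, h2, h3⟩ := (Ultrafilter.neBot U).nonempty_of_mem this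
  exact ⟨ν, h1, h2, h3⟩

theorem IsNormalMeasure.succ_lt (h : IsNormalMeasure α U) {β : Ordinal.{u}} (hβ : β < α) :
    Order.succ β < α := by
  obtain ⟨ν, -, h1, h2⟩ := h.exists_gt hβ Filter.univ_mem
  exact (Order.succ_le_of_lt h1).trans_lt h2

theorem IsNormalMeasure.limit_mem (h : IsNormalMeasure α U) :
    {ν | ∀ β < ν, Order.succ β < ν} ∈ U := by
  exact h.normal (fun β => Ioi (Order.succ β)) (fun β hβ => h.Ioi_mem (h.succ_lt hβ))

theorem IsNormalMeasure.codes (h : IsNormalMeasure α U) {μ : Ordinal.{u}} (hμ : μ < α)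
    (X : Set (Ordinal.{u} × Ordinal.{u}) → Set Ordinal.{u})
    (hX : ∀ c ⊆ Iio μ ×ˢ Iio μ, X c ∈ U) :
    {ν | ∀ c ⊆ Iio μ ×ˢ Iio μ, ν ∈ X c} ∈ U := by
  classical
  by_contra hn
  have hn' : {ν | ∀ c ⊆ Iio μ ×ˢ Iio μ, ν ∈ X c}ᶜ ∈ U := Ultrafilter.compl_mem_iff_notMem.2 hn
  have hc : ∀ ν, ∃ c : Set (Ordinal.{u} × Ordinal.{u}),
      ν ∈ {ν | ∀ c ⊆ Iio μ ×ˢ Iio μ, ν ∈ X c}ᶜ → c ⊆ Iio μ ×ˢ Iio μ ∧ ν ∉ X c := by
    intro ν
    by_cases hν : ν ∈ {ν | ∀ c ⊆ Iio μ ×ˢ Iio μ, ν ∈ X c}ᶜ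
    · have : ¬ ∀ c ⊆ Iio μ ×ˢ Iio μ, ν ∈ X c := hν
      push Not at this
      obtain ⟨c, h1, h2⟩ := this
      exact ⟨c, fun _ => ⟨h1, h2⟩⟩
    · exact ⟨∅, fun h => absurd h hν⟩
  choose c hc using hc
  set c₀ : Set (Ordinal.{u} × Ordinal.{u}) :=
    {x | x ∈ Iio μ ×ˢ Iio μ ∧ {ν | x ∈ c ν} ∈ U} with hc₀
  have h1 : {ν | ∀ β < μ, ν ∈ {ν | ∀ γ < μ, ν ∈ {ν | ((β, γ) ∈ c ν ↔ (β, γ) ∈ c₀)}}} ∈ U := by
    refine h.complete μ hμ (fun β => {ν | ∀ γ < μ, ν ∈ {ν | ((β, γ) ∈ c ν ↔ (β, γ) ∈ c₀)}}) ?_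
    intro β hβ
    refine h.complete μ hμ (fun γ => {ν | ((β, γ) ∈ c ν ↔ (β, γ) ∈ c₀)}) ?_
    intro γ hγ
    by_cases hx : {ν | (β, γ) ∈ c ν} ∈ U
    · refine Filter.mem_of_superset hx ?_
      intro ν hν
      have : (β, γ) ∈ c₀ := ⟨⟨hβ, hγ⟩, hx⟩
      exact ⟨fun _ => this, fun _ => hν⟩
    · refine Filter.mem_of_superset (Ultrafilter.compl_mem_iff_notMem.2 hx) ?_
      intro ν hν
      exact ⟨fun h => absurd h hν, fun h => absurd h.2 hx⟩
  have hc₀' : c₀ ⊆ Iio μ ×ˢ Iio μ := fun x hx => hx.1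
  obtain ⟨ν, ⟨h2, h3⟩, h4⟩ := (Ultrafilter.neBot U).nonempty_of_mem
    (Filter.inter_mem (Filter.inter_mem h1 hn') (hX c₀ hc₀'))
  have h5 := hc ν h3
  have h6 : c ν = c₀ := by
    ext ⟨β, γ⟩
    constructor
    · intro hx
      have := h5.1 hx
      exact (h2 β this.1 γ this.2).1 hx
    · intro hx
      have := hc₀' hx
      exact (h2 β this.1 γ this.2).2 hx
  exact h5.2 (h6 ▸ h4)

theorem IsNormalMeasure.diag_codes (h : IsNormalMeasure α U)
    (X : Set (Ordinal.{u} × Ordinal.{u}) → Set Ordinal.{u})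
    (hX : ∀ μ < α, ∀ c ⊆ Iio μ ×ˢ Iio μ, X c ∈ U) :
    {ν | ∀ μ < ν, ∀ c ⊆ Iio μ ×ˢ Iio μ, ν ∈ X c} ∈ U :=
  h.normal (fun μ => {ν | ∀ c ⊆ Iio μ ×ˢ Iio μ, ν ∈ X c})
    (fun μ hμ => h.codes hμ X (hX μ hμ))

end Measures

theorem CoherentSeq.mem_F {α : Ordinal.{u}} {X : Set Ordinal.{u}} :
    X ∈ M.F α ↔ ∀ β < M.o α, X ∈ M.U α β := by
  simp [CoherentSeq.F, Filter.mem_iSup]

/-- A set belongs to all measures on `α` below `β` iff it belongs to all the measures on `ν`,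
for `U α β` almost all `ν`. -/
theorem CoherentSeq.reflect {α β : Ordinal.{u}} (hα : α ≤ κ) (hβ : β < M.o α)
    {X : Set Ordinal.{u}} :
    (∀ γ < β, X ∈ M.U α γ) ↔ {ν | X ∈ M.F ν} ∈ M.U α β := by
  classical
  obtain ⟨g, h1, -, h3, h4⟩ := M.coherent α hα β hβ
  constructor
  · intro hX
    by_contra hn
    have hn' := Ultrafilter.compl_mem_iff_notMem.2 hn
    have hh : ∀ ν, ∃ η, X ∉ M.F ν → η < M.o ν ∧ X ∉ M.U ν η := by
      intro ν
      by_cases hν : X ∈ M.F ν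
      · exact ⟨0, fun h => absurd hν h⟩
      · have := hν
        rw [CoherentSeq.mem_F] at this
        push Not at this
        obtain ⟨η, h1, h2⟩ := this
        exact ⟨η, fun _ => ⟨h1, h2⟩⟩
    choose η hη using hh
    have h5 : {ν | η ν < M.o ν} ∈ M.U α β :=
      Filter.mem_of_superset hn' (fun ν hν => (hη ν hν).1)
    obtain ⟨γ, hγ, h6⟩ := h3 η h5
    have h7 := (h4 γ hγ X).1 (hX γ hγ)
    obtain ⟨ν, ⟨h8, h9⟩, h10⟩ := (Ultrafilter.neBot (M.U α β)).nonempty_of_mem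
      (Filter.inter_mem (Filter.inter_mem h6 h7) hn')
    have h11 := (hη ν h10).2
    have h8' : η ν = g γ ν := h8
    rw [h8'] at h11
    exact h11 h9
  · intro hX γ hγ
    rw [h4 γ hγ X]
    refine Filter.mem_of_superset (Filter.inter_mem (h1 γ hγ) hX) ?_
    rintro ν ⟨h5, h6⟩
    exact CoherentSeq.mem_F.1 h6 _ h5

theorem CoherentSeq.reflect_F {α β : Ordinal.{u}} (hα : α ≤ κ) (hβ : β < M.o α)
    {X : Set Ordinal.{u}} (hX : X ∈ M.F α) : {ν | X ∈ M.F ν} ∈ M.U α β :=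
  (CoherentSeq.reflect hα hβ).1 (fun γ hγ => CoherentSeq.mem_F.1 hX γ (hγ.trans hβ))

/-- If `X` has measure one for a measure below `β`, then `X` has positive measure for a measure
on `ν`, for `U α β` almost all `ν`. -/
theorem CoherentSeq.reflect_pos {α β γ : Ordinal.{u}} (hα : α ≤ κ) (hβ : β < M.o α)
    (hγ : γ < β) {X : Set Ordinal.{u}} (hX : X ∈ M.U α γ) :
    {ν | ∃ η < M.o ν, X ∈ M.U ν η} ∈ M.U α β := by
  by_contra hn
  have hn' := Ultrafilter.compl_mem_iff_notMem.2 hn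
  have h1 : {ν | Xᶜ ∈ M.F ν} ∈ M.U α β := by
    refine Filter.mem_of_superset hn' ?_
    intro ν hν
    have hν' : ¬ ∃ η < M.o ν, X ∈ M.U ν η := hν
    push Not at hν'
    refine CoherentSeq.mem_F.2 (fun η hη => ?_)
    exact Ultrafilter.compl_mem_iff_notMem.2 (hν' η hη)
  have h2 := (CoherentSeq.reflect hα hβ).2 h1 γ hγ
  exact Ultrafilter.compl_mem_iff_notMem.1 h2 hX

theorem CoherentSeq.Iio_mem_F {α : Ordinal.{u}} (hα : α ≤ κ) : Iio α ∈ M.F α :=
  CoherentSeq.mem_F.2 (fun β hβ => (M.normal α hα β hβ).conc)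

theorem CoherentSeq.Ioi_mem_F {α β : Ordinal.{u}} (hα : α ≤ κ) (hβ : β < α) : Ioi β ∈ M.F α :=
  CoherentSeq.mem_F.2 (fun γ hγ => (M.normal α hα γ hγ).Ioi_mem hβ)

/-! ### Conditions -/

theorem Cond.eq_of {p q : Cond M} (h1 : p.stem = q.stem)
    (h2 : ∀ ν, (ν = κ ∨ ν ∈ p.stem) → p.set ν = q.set ν) : p = q := by
  have h3 : p.set = q.set := by
    funext ν
    by_cases hν : ν = κ ∨ ν ∈ p.stem
    · exact h2 ν hν
    · rw [p.out ν hν, q.out ν (by rwa [← h1])]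
  cases p
  cases q
  simp only at h1 h3
  subst h1
  subst h3
  rfl

theorem Cond.not_mem_stem (p : Cond M) : κ ∉ p.stem := fun h => lt_irrefl _ (p.lt κ h)

/-- The sets which may be attached to `κ`. -/
def TopSet (M : CoherentSeq κ) : Type (u + 1) :=
  {B : Set Ordinal.{u} // B ⊆ Iio κ ∧ B ∈ M.F κ}

def TopSet.inter (B C : TopSet M) : TopSet M :=
  ⟨B.1 ∩ C.1, inter_subset_left.trans B.2.1, Filter.inter_mem B.2.2 C.2.2⟩

def Cond.top (p : Cond M) : TopSet M := ⟨p.set κ, p.sub κ (Or.inl rfl), p.meas κ (Or.inl rfl)⟩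

/-- Replace the top set. -/
def Cond.withTop (p : Cond M) (B : TopSet M) : Cond M where
  stem := p.stem
  set ν := {x | (ν = κ ∧ x ∈ B.1) ∨ (ν ≠ κ ∧ x ∈ p.set ν)}
  lt := p.lt
  sub := by
    rintro ν hν x (⟨rfl, hx⟩ | ⟨_, hx⟩)
    · exact B.2.1 hx
    · exact p.sub ν hν hx
  meas := by
    intro ν hν
    by_cases h : ν = κ
    · subst h
      exact Filter.mem_of_superset B.2.2 (fun x hx => Or.inl ⟨rfl, hx⟩)
    · exact Filter.mem_of_superset (p.meas ν hν) (fun x hx => Or.inr ⟨h, hx⟩)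
  out := by
    intro ν hν
    ext x
    simp only [mem_ofPred_eq, mem_empty_iff_false, iff_false]
    rintro (⟨rfl, _⟩ | ⟨_, hx⟩)
    · exact hν (Or.inl rfl)
    · rw [p.out ν hν] at hx
      exact hx

@[simp] theorem Cond.withTop_stem (p : Cond M) (B : TopSet M) :
    (p.withTop B).stem = p.stem := rfl

@[simp] theorem Cond.withTop_set_top (p : Cond M) (B : TopSet M) :
    (p.withTop B).set κ = B.1 := by
  ext x
  simp [Cond.withTop]

theorem Cond.withTop_set_ne (p : Cond M) (B : TopSet M) {ν : Ordinal.{u}} (h : ν ≠ κ) :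
    (p.withTop B).set ν = p.set ν := by
  ext x
  simp [Cond.withTop, h]

theorem Cond.withTop_top (p : Cond M) : p.withTop p.top = p := by
  refine Cond.eq_of rfl ?_
  intro ν _
  by_cases h : ν = κ
  · subst h
    rw [Cond.withTop_set_top]
    rfl
  · rw [Cond.withTop_set_ne _ _ h]

theorem Cond.withTop_withTop (p : Cond M) (B C : TopSet M) :
    (p.withTop B).withTop C = p.withTop C := by
  refine Cond.eq_of rfl ?_
  intro ν _
  by_cases h : ν = κ
  · subst h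
    simp
  · rw [Cond.withTop_set_ne _ _ h, Cond.withTop_set_ne _ _ h, Cond.withTop_set_ne _ _ h]

/-- Shrink the sets of a condition. -/
def Cond.inter (p : Cond M) (B : Ordinal.{u} → Set Ordinal.{u})
    (hB : ∀ ν, (ν = κ ∨ ν ∈ p.stem) → B ν ∈ M.F ν) : Cond M where
  stem := p.stem
  set ν := p.set ν ∩ B ν
  lt := p.lt
  sub ν hν := inter_subset_left.trans (p.sub ν hν)
  meas ν hν := Filter.inter_mem (p.meas ν hν) (hB ν hν)
  out ν hν := by rw [p.out ν hν, empty_inter]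

theorem Cond.le_of_subset {p q : Cond M} (h1 : q.stem = p.stem)
    (h2 : ∀ ν, (ν = κ ∨ ν ∈ q.stem) → q.set ν ⊆ p.set ν) : q ≤ p := by
  refine ⟨h1.ge, ?_⟩
  intro ν hν l hl
  have := (p.next_self (h1 ▸ hν)).unique hl
  subst this
  exact ⟨Or.inl rfl, h2 ν hν⟩

theorem Cond.inter_le (p : Cond M) (B : Ordinal.{u} → Set Ordinal.{u})
    (hB : ∀ ν, (ν = κ ∨ ν ∈ p.stem) → B ν ∈ M.F ν) : p.inter B hB ≤ p :=
  Cond.le_of_subset rfl (fun _ _ => inter_subset_left)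

theorem Cond.withTop_le {p : Cond M} {B C : TopSet M} (h : B.1 ⊆ C.1) :
    p.withTop B ≤ p.withTop C := by
  refine Cond.le_of_subset rfl ?_
  intro ν _
  by_cases hν : ν = κ
  · subst hν
    simpa using h
  · rw [Cond.withTop_set_ne _ _ hν, Cond.withTop_set_ne _ _ hν]

/-- The set `ν` is attached to a new largest point `ν`, with the set `E`. -/
noncomputable def Cond.ext (p : Cond M) (ν : Ordinal.{u}) (hν : ν < κ) (E : Set Ordinal.{u})
    (hE : E ⊆ Iio ν ∧ E ∈ M.F ν) (C : TopSet M) : Cond M where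
  stem := insert ν p.stem
  set ρ := {x | (ρ = κ ∧ x ∈ C.1) ∨ (ρ = ν ∧ x ∈ E) ∨ (ρ ≠ κ ∧ ρ ≠ ν ∧ x ∈ p.set ρ)}
  lt ρ hρ := by
    rcases Finset.mem_insert.1 hρ with rfl | h
    · exact hν
    · exact p.lt ρ h
  sub := by
    rintro ρ hρ x (⟨rfl, hx⟩ | ⟨rfl, hx⟩ | ⟨h1, h2, hx⟩)
    · exact C.2.1 hx
    · exact hE.1 hx
    · refine p.sub ρ ?_ hx
      rcases hρ with h | h
      · exact absurd h h1
      · rcases Finset.mem_insert.1 h with h | h
        · exact absurd h h2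
        · exact Or.inr h
  meas := by
    intro ρ hρ
    by_cases h : ρ = κ
    · subst h
      exact Filter.mem_of_superset C.2.2 (fun x hx => Or.inl ⟨rfl, hx⟩)
    · by_cases h' : ρ = ν
      · subst h'
        exact Filter.mem_of_superset hE.2 (fun x hx => Or.inr (Or.inl ⟨rfl, hx⟩))
      · refine Filter.mem_of_superset (p.meas ρ ?_) (fun x hx => Or.inr (Or.inr ⟨h, h', hx⟩))
        rcases hρ with h1 | h1
        · exact absurd h1 h
        · rcases Finset.mem_insert.1 h1 with h2 | h2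
          · exact absurd h2 h'
          · exact Or.inr h2
  out := by
    intro ρ hρ
    have h1 : ρ ≠ κ := fun h => hρ (Or.inl h)
    have h2 : ρ ≠ ν := fun h => hρ (Or.inr (h ▸ Finset.mem_insert_self _ _))
    have h3 : ρ ∉ p.stem := fun h => hρ (Or.inr (Finset.mem_insert_of_mem h))
    ext x
    simp only [mem_ofPred_eq, mem_empty_iff_false, iff_false]
    rintro (⟨rfl, _⟩ | ⟨rfl, _⟩ | ⟨_, _, hx⟩)
    · exact h1 rfl
    · exact h2 rfl
    · rw [p.out ρ (by tauto)] at hx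
      exact hx

@[simp] theorem Cond.ext_stem (p : Cond M) (ν : Ordinal.{u}) (hν : ν < κ) (E : Set Ordinal.{u})
    (hE : E ⊆ Iio ν ∧ E ∈ M.F ν) (C : TopSet M) :
    (p.ext ν hν E hE C).stem = insert ν p.stem := rfl

@[simp] theorem Cond.ext_set_top (p : Cond M) (ν : Ordinal.{u}) (hν : ν < κ)
    (E : Set Ordinal.{u}) (hE : E ⊆ Iio ν ∧ E ∈ M.F ν) (C : TopSet M) :
    (p.ext ν hν E hE C).set κ = C.1 := by
  ext x
  simp [Cond.ext, hν.ne']

@[simp] theorem Cond.ext_set_self (p : Cond M) (ν : Ordinal.{u}) (hν : ν < κ)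
    (E : Set Ordinal.{u}) (hE : E ⊆ Iio ν ∧ E ∈ M.F ν) (C : TopSet M) :
    (p.ext ν hν E hE C).set ν = E := by
  ext x
  simp [Cond.ext, hν.ne]

theorem Cond.ext_set_ne (p : Cond M) (ν : Ordinal.{u}) (hν : ν < κ)
    (E : Set Ordinal.{u}) (hE : E ⊆ Iio ν ∧ E ∈ M.F ν) (C : TopSet M) {ρ : Ordinal.{u}}
    (h1 : ρ ≠ κ) (h2 : ρ ≠ ν) :
    (p.ext ν hν E hE C).set ρ = p.set ρ := by
  ext x
  simp [Cond.ext, h1, h2]

theorem Cond.ext_withTop (p : Cond M) (ν : Ordinal.{u}) (hν : ν < κ)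
    (E : Set Ordinal.{u}) (hE : E ⊆ Iio ν ∧ E ∈ M.F ν) (C D : TopSet M) :
    (p.ext ν hν E hE C).withTop D = p.ext ν hν E hE D := by
  refine Cond.eq_of rfl ?_
  intro ρ _
  by_cases h : ρ = κ
  · subst h
    simp
  · rw [Cond.withTop_set_ne _ _ h]
    by_cases h' : ρ = ν
    · subst h'
      simp
    · rw [Cond.ext_set_ne _ _ _ _ _ _ h h', Cond.ext_set_ne _ _ _ _ _ _ h h']

theorem Cond.withTop_ext (p : Cond M) (ν : Ordinal.{u}) (hν : ν < κ)
    (E : Set Ordinal.{u}) (hE : E ⊆ Iio ν ∧ E ∈ M.F ν) (C D : TopSet M) :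
    (p.withTop D).ext ν hν E hE C = p.ext ν hν E hE C := by
  refine Cond.eq_of rfl ?_
  intro ρ _
  by_cases h : ρ = κ
  · subst h
    simp
  · by_cases h' : ρ = ν
    · subst h'
      simp
    · rw [Cond.ext_set_ne _ _ _ _ _ _ h h', Cond.ext_set_ne _ _ _ _ _ _ h h',
        Cond.withTop_set_ne _ _ h]

open Classical in
/-- The part of a condition with points in `S`, with the same top set. -/
noncomputable def Cond.restr (p : Cond M) (S : Set Ordinal.{u}) : Cond M where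
  stem := p.stem.filter (· ∈ S)
  set ρ := {x | (ρ = κ ∨ ρ ∈ S) ∧ x ∈ p.set ρ}
  lt ρ hρ := p.lt ρ (Finset.mem_filter.1 hρ).1
  sub := by
    rintro ρ hρ x ⟨_, hx⟩
    exact p.sub ρ (hρ.imp id (fun h => (Finset.mem_filter.1 h).1)) hx
  meas := by
    intro ρ hρ
    refine Filter.mem_of_superset
      (p.meas ρ (hρ.imp id (fun h => (Finset.mem_filter.1 h).1))) (fun x hx => ⟨?_, hx⟩)
    rcases hρ with h | h
    · exact Or.inl h
    · exact Or.inr (Finset.mem_filter.1 h).2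
  out := by
    intro ρ hρ
    ext x
    simp only [mem_ofPred_eq, mem_empty_iff_false, iff_false]
    rintro ⟨h, hx⟩
    by_cases h' : ρ = κ ∨ ρ ∈ p.stem
    · refine hρ ?_
      rcases h' with h' | h'
      · exact Or.inl h'
      · rcases h with h | h
        · exact Or.inl h
        · exact Or.inr (Finset.mem_filter.2 ⟨h', h⟩)
    · rw [p.out ρ h'] at hx
      exact hx

theorem Cond.mem_restr_stem {p : Cond M} {S : Set Ordinal.{u}} {ρ : Ordinal.{u}} :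
    ρ ∈ (p.restr S).stem ↔ ρ ∈ p.stem ∧ ρ ∈ S := by
  classical
  exact Finset.mem_filter

theorem Cond.restr_set_top (p : Cond M) (S : Set Ordinal.{u}) :
    (p.restr S).set κ = p.set κ := by
  ext x
  simp [Cond.restr]

theorem Cond.restr_set (p : Cond M) {S : Set Ordinal.{u}} {ρ : Ordinal.{u}} (h : ρ ∈ S) :
    (p.restr S).set ρ = p.set ρ := by
  ext x
  simp [Cond.restr, h]

/-- The code of the part of a condition below `κ`. -/
def Cond.code (p : Cond M) : Set (Ordinal.{u} × Ordinal.{u}) :=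
  {x | x.1 ∈ p.stem ∧ (x.2 = x.1 ∨ x.2 ∈ p.set x.1)}

theorem Cond.code_subset {p : Cond M} {μ : Ordinal.{u}} (h : ∀ σ ∈ p.stem, σ < μ) :
    p.code ⊆ Iio μ ×ˢ Iio μ := by
  rintro ⟨x, y⟩ ⟨h1, h2⟩
  refine ⟨h x h1, ?_⟩
  rcases h2 with h2 | h2
  · simp only at h2
    subst h2
    exact h _ h1
  · exact (show y < x from p.sub x (Or.inr h1) h2).trans (h x h1)

theorem Cond.withTop_eq_of_code {p q : Cond M} (h : p.code = q.code) (B : TopSet M) :
    p.withTop B = q.withTop B := by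
  have h1 : ∀ ν, ν ∈ p.stem ↔ ν ∈ q.stem := by
    intro ν
    have : ((ν, ν) ∈ p.code ↔ (ν, ν) ∈ q.code) := by rw [h]
    simpa [Cond.code] using this
  have h2 : p.stem = q.stem := Finset.ext h1
  refine Cond.eq_of h2 ?_
  intro ν hν
  by_cases hκ : ν = κ
  · subst hκ
    simp
  · rw [Cond.withTop_set_ne _ _ hκ, Cond.withTop_set_ne _ _ hκ]
    have hν' : ν ∈ p.stem := by
      rcases hν with h | h
      · exact absurd h hκ
      · exact h
    have hν'' : ν ∈ q.stem := (h1 ν).1 hν'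
    ext x
    by_cases hx : x = ν
    · subst hx
      constructor
      · intro h3
        exact absurd (show x < x from p.sub x (Or.inr hν') h3) (lt_irrefl _)
      · intro h3
        exact absurd (show x < x from q.sub x (Or.inr hν'') h3) (lt_irrefl _)
    · have : ((ν, x) ∈ p.code ↔ (ν, x) ∈ q.code) := by rw [h]
      simpa [Cond.code, hν', hν'', hx] using this

/-- A canonical condition with the same stem. -/
def Cond.base (p : Cond M) : Cond M := p.withTop ⟨Iio κ, Subset.rfl, CoherentSeq.Iio_mem_F le_rfl⟩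

theorem Cond.base_eq_of_code {p q : Cond M} (h : p.code = q.code) : p.base = q.base :=
  Cond.withTop_eq_of_code h _

@[simp] theorem Cond.base_stem (p : Cond M) : p.base.stem = p.stem := rfl

theorem Cond.base_withTop (p : Cond M) (B : TopSet M) : p.base.withTop B = p.withTop B :=
  Cond.withTop_withTop _ _ _

theorem Cond.base_ext (p : Cond M) (ν : Ordinal.{u}) (hν : ν < κ)
    (E : Set Ordinal.{u}) (hE : E ⊆ Iio ν ∧ E ∈ M.F ν) (C : TopSet M) :
    p.base.ext ν hν E hE C = p.ext ν hν E hE C :=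
  Cond.withTop_ext _ _ _ _ _ _ _

/-- The filter `M.F κ` is closed under intersections of length less than `κ`. -/
theorem CoherentSeq.F_complete {α μ : Ordinal.{u}} (hα : α ≤ κ) (hμ : μ < α)
    (X : Ordinal.{u} → Set Ordinal.{u}) (hX : ∀ β < μ, X β ∈ M.F α) :
    {ν | ∀ β < μ, ν ∈ X β} ∈ M.F α :=
  CoherentSeq.mem_F.2 (fun ζ hζ => (M.normal α hα ζ hζ).complete μ hμ X
    (fun β hβ => CoherentSeq.mem_F.1 (hX β hβ) ζ hζ))

/-- Diagonal intersections over all stems and pairs of ordinals, for one measure. -/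
theorem diag_stems_U {ζ : Ordinal.{u}} (hζ : ζ < M.o κ)
    (Z : Cond M → Ordinal.{u} → Ordinal.{u} → Set Ordinal.{u})
    (hZ : ∀ t β γ, β < κ → γ < κ → Z t β γ ∈ M.U κ ζ) :
    {μ | ∀ t : Cond M, (∀ σ ∈ t.stem, σ < μ) → ∀ β < μ, ∀ γ < μ, μ ∈ Z t.base β γ} ∈
      M.U κ ζ := by
  classical
  have hN := M.normal κ le_rfl ζ hζ
  set X : Ordinal.{u} → Set (Ordinal.{u} × Ordinal.{u}) → Set Ordinal.{u} := fun μ' c =>
    {μ | ∀ t : Cond M, t.code = c → ∀ β < μ', ∀ γ < μ', μ ∈ Z t.base β γ} with hX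
  have h1 : ∀ μ' < κ, ∀ c ⊆ Iio μ' ×ˢ Iio μ', X μ' c ∈ M.U κ ζ := by
    intro μ' hμ' c _
    by_cases hc : ∃ t : Cond M, t.code = c
    · obtain ⟨t₀, ht₀⟩ := hc
      refine Filter.mem_of_superset (hN.complete μ' hμ'
        (fun β => {μ | ∀ γ < μ', μ ∈ Z t₀.base β γ}) ?_) ?_
      · intro β hβ
        refine hN.complete μ' hμ' (fun γ => Z t₀.base β γ) ?_
        intro γ hγ
        exact hZ _ β γ (hβ.trans hμ') (hγ.trans hμ')
      · intro μ hμ t ht β hβ γ hγ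
        have : t.base = t₀.base := Cond.base_eq_of_code (ht.trans ht₀.symm)
        rw [this]
        exact hμ β hβ γ hγ
    · refine Filter.mem_of_superset Filter.univ_mem ?_
      intro μ _ t ht
      exact absurd ⟨t, ht⟩ hc
  have h2 : {μ | ∀ μ' < μ, μ ∈ {μ | ∀ c ⊆ Iio μ' ×ˢ Iio μ', μ ∈ X μ' c}} ∈ M.U κ ζ :=
    hN.normal _ (fun μ' hμ' => hN.codes hμ' (X μ') (h1 μ' hμ'))
  refine Filter.mem_of_superset (Filter.inter_mem h2 hN.limit_mem) ?_
  rintro μ ⟨h4, h5⟩ t ht β hβ γ hγ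
  have h7 : ∃ μ' < μ, (∀ σ ∈ t.stem, σ < μ') ∧ β < μ' ∧ γ < μ' := by
    have : ∀ s : Finset Ordinal.{u}, (∀ σ ∈ s, σ < μ) →
        ∃ μ' < μ, (∀ σ ∈ s, σ < μ') ∧ β < μ' ∧ γ < μ' := by
      intro s
      induction s using Finset.induction_on with
      | empty =>
        intro _
        exact ⟨max (Order.succ β) (Order.succ γ), max_lt (h5 β hβ) (h5 γ hγ), by simp,
          lt_max_of_lt_left (Order.lt_succ β), lt_max_of_lt_right (Order.lt_succ γ)⟩
      | insert a s ha ih =>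
        intro hs
        obtain ⟨μ', h8, h9, h10, h11⟩ := ih (fun σ hσ => hs σ (Finset.mem_insert_of_mem hσ))
        refine ⟨max μ' (Order.succ a), max_lt h8 (h5 a (hs a (Finset.mem_insert_self _ _))),
          ?_, lt_max_of_lt_left h10, lt_max_of_lt_left h11⟩
        intro σ hσ
        rcases Finset.mem_insert.1 hσ with rfl | hσ
        · exact lt_max_of_lt_right (Order.lt_succ _)
        · exact lt_max_of_lt_left (h9 σ hσ)
    exact this _ ht
  obtain ⟨μ', h8, h9, h10, h11⟩ := h7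
  exact h4 μ' h8 t.code (Cond.code_subset h9) t rfl β h10 γ h11

/-- Diagonal intersections over all stems and pairs of ordinals. -/
theorem diag_stems₂ (Z : Cond M → Ordinal.{u} → Ordinal.{u} → Set Ordinal.{u})
    (hZ : ∀ t β γ, β < κ → γ < κ → Z t β γ ∈ M.F κ) :
    {μ | ∀ t : Cond M, (∀ σ ∈ t.stem, σ < μ) → ∀ β < μ, ∀ γ < μ, μ ∈ Z t.base β γ} ∈ M.F κ :=
  CoherentSeq.mem_F.2 (fun ζ hζ => diag_stems_U hζ Z
    (fun t β γ hβ hγ => CoherentSeq.mem_F.1 (hZ t β γ hβ hγ) ζ hζ))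

/-- Diagonal intersections over all stems and ordinals. -/
theorem diag_stems (Z : Cond M → Ordinal.{u} → Set Ordinal.{u})
    (hZ : ∀ t β, β < κ → Z t β ∈ M.F κ) :
    {μ | ∀ t : Cond M, (∀ σ ∈ t.stem, σ < μ) → ∀ β < μ, μ ∈ Z t.base β} ∈ M.F κ := by
  refine Filter.mem_of_superset (diag_stems₂ (fun t β _ => Z t β) (fun t β _ h _ => hZ t β h)) ?_
  intro μ hμ t ht β hβ
  exact hμ t ht β hβ β hβ

end Run7.h429.MR
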