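import Pool.Agent.Run7.h429.MR.Dich

/-!
# Cardinality of the set of stems, and pressing down
-/

namespace Run7.h429.MR

open Set Cardinal

universe u v

variable {κ : Ordinal.{u}} {M : CoherentSeq κ}

section

variable {α : Ordinal.{u}} {U : Ultrafilter Ordinal.{u}}

theorem IsNormalMeasure.pos (h : IsNormalMeasure α U) : 0 < α := by
  obtain ⟨ν, hν⟩ := (Ultrafilter.neBot U).nonempty_of_mem h.conc
  exact lt_of_le_of_lt zero_le hν

theorem IsNormalMeasure.omega_lt (h : IsNormalMeasure α U) : Ordinal.omega0 < α := by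
  obtain ⟨ν, hν, h0, hα⟩ := h.exists_gt h.pos h.limit_mem
  have hν' : ∀ β < ν, Order.succ β < ν := hν
  refine lt_of_le_of_lt ?_ hα
  by_contra hlt
  push Not at hlt
  obtain ⟨n, rfl⟩ := Ordinal.lt_omega0.1 hlt
  cases n with
  | zero => simp at h0
  | succ n =>
    have := hν' (n : Ordinal.{u}) (by exact_mod_cast Nat.lt_succ_self n)
    rw [Order.succ_eq_add_one] at this
    push_cast at this
    exact lt_irrefl _ this

theorem IsNormalMeasure.inter_nat (h : IsNormalMeasure α U) (Y : ℕ → Set Ordinal.{u})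
    (hY : ∀ n, Y n ∈ U) : {ρ | ∀ n, ρ ∈ Y n} ∈ U := by
  have h1 := h.complete _ h.omega_lt
    (fun β => {ρ | ∀ n : ℕ, (n : Ordinal.{u}) = β → ρ ∈ Y n}) (by
      intro β hβ
      obtain ⟨m, rfl⟩ := Ordinal.lt_omega0.1 hβ
      refine Filter.mem_of_superset (hY m) ?_
      intro ρ hρ n hn
      have : n = m := by exact_mod_cast hn
      subst this
      exact hρ)
  refine Filter.mem_of_superset h1 ?_
  intro ρ hρ n
  exact hρ (n : Ordinal.{u}) (Ordinal.lt_omega0.2 ⟨n, rfl⟩) n rfl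

theorem IsNormalMeasure.press (h : IsNormalMeasure α U) {f : Ordinal.{u} → Ordinal.{u}}
    {S : Set Ordinal.{u}} (hS : S ∈ U) (hf : ∀ ν ∈ S, f ν < ν) :
    ∃ β < α, {ν | ν ∈ S ∧ f ν = β} ∈ U := by
  by_contra hn
  push Not at hn
  have h1 : ∀ β < α, {ν | ν ∈ S → f ν ≠ β} ∈ U := by
    intro β hβ
    refine Filter.mem_of_superset (Ultrafilter.compl_mem_iff_notMem.2 (hn β hβ)) ?_
    intro ν hν hνS hνf
    exact hν ⟨hνS, hνf⟩
  have h2 := h.normal (fun β => {ν | ν ∈ S → f ν ≠ β}) h1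
  obtain ⟨ν, hν1, hν2⟩ := (Ultrafilter.neBot U).nonempty_of_mem (Filter.inter_mem h2 hS)
  exact hν1 (f ν) (hf ν hν2) hν2 rfl

/-- The powers of smaller ordinals have size less than `κ`. -/
theorem IsNormalMeasure.mk_powerset_lt (h : IsNormalMeasure α U) {μ : Ordinal.{u}}
    (hμ : μ < α) : #(𝒫 (Iio μ ×ˢ Iio μ) : Set (Set (Ordinal.{u} × Ordinal.{u}))) < #(Iio α) := by
  classical
  by_contra hn
  rw [not_lt] at hn
  obtain ⟨f⟩ := Cardinal.le_def _ _ |>.1 hn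
  set g : Ordinal.{u} → Set (Ordinal.{u} × Ordinal.{u}) :=
    fun ν => if h : ν < α then (f ⟨ν, h⟩).1 else ∅ with hg
  have h1 : {ν | ∀ c ⊆ Iio μ ×ˢ Iio μ, ν ∈ {ν | ν < α → g ν ≠ c}} ∈ U := by
    refine h.codes hμ (fun c => {ν | ν < α → g ν ≠ c}) ?_
    intro c _
    by_cases hc : ∃ ν < α, g ν = c
    · obtain ⟨ν₀, hν₀, h2⟩ := hc
      refine Filter.mem_of_superset (h.nonprincipal ν₀ hν₀) ?_
      intro ν hν hνα hνc
      refine hν ?_
      have h3 : g ν = g ν₀ := hνc.trans h2.symm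
      simp only [hg, hνα, hν₀, dif_pos] at h3
      have h4 := f.injective (Subtype.ext h3)
      exact congrArg Subtype.val h4
    · refine Filter.mem_of_superset Filter.univ_mem ?_
      intro ν _ hνα hνc
      exact hc ⟨ν, hνα, hνc⟩
  obtain ⟨ν, hν1, hν2⟩ := (Ultrafilter.neBot U).nonempty_of_mem (Filter.inter_mem h1 h.conc)
  have hν2' : ν < α := hν2
  refine hν1 (g ν) ?_ hν2 rfl
  simp only [hg, hν2', dif_pos]
  exact (f ⟨ν, hν2'⟩).2

end

/-- The bounded codes. -/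
def Codes (κ : Ordinal.{u}) : Set (Set (Ordinal.{u} × Ordinal.{u})) :=
  {c | ∃ μ < κ, c ⊆ Iio μ ×ˢ Iio μ}

theorem aleph0_le (hκ : 0 < M.o κ) : ℵ₀ ≤ #(Iio κ) := by
  rw [Cardinal.mk_Iio_ordinal, Cardinal.aleph0_le_lift, Ordinal.aleph0_le_card]
  exact (M.normal κ le_rfl 0 hκ).omega_lt.le

theorem mk_codes_le (hκ : 0 < M.o κ) : #(Codes κ) ≤ #(Iio κ) := by
  have h1 : Codes κ = ⋃ μ ∈ Iio κ, 𝒫 (Iio μ ×ˢ Iio μ) := by
    ext c
    simp [Codes]
  rw [h1]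
  refine (Cardinal.mk_biUnion_le _ _).trans ?_
  have h2 : (⨆ x : Iio κ, #(𝒫 (Iio x.1 ×ˢ Iio x.1) :
      Set (Set (Ordinal.{u} × Ordinal.{u})))) ≤ #(Iio κ) := by
    refine ciSup_le' ?_
    rintro ⟨μ, hμ⟩
    exact ((M.normal κ le_rfl 0 hκ).mk_powerset_lt hμ).le
  calc _ ≤ #(Iio κ) * #(Iio κ) := by gcongr
    _ = #(Iio κ) := Cardinal.mul_eq_self (aleph0_le hκ)

theorem code_mem_codes (hκ : 0 < M.o κ) (t : Cond M) : t.code ∈ Codes κ := by
  have hN := M.normal κ le_rfl 0 hκ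
  have : ∀ s : Finset Ordinal.{u}, (∀ σ ∈ s, σ < κ) → ∃ μ < κ, ∀ σ ∈ s, σ < μ := by
    intro s
    induction s using Finset.induction_on with
    | empty => exact fun _ => ⟨0, hN.pos, by simp⟩
    | insert a s ha ih =>
      intro hs
      obtain ⟨μ, h1, h2⟩ := ih (fun σ hσ => hs σ (Finset.mem_insert_of_mem hσ))
      refine ⟨max μ (Order.succ a), max_lt h1 (hN.succ_lt (hs a (Finset.mem_insert_self _ _))),
        ?_⟩
      intro σ hσ
      rcases Finset.mem_insert.1 hσ with rfl | hσ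
      · exact lt_max_of_lt_right (Order.lt_succ _)
      · exact lt_max_of_lt_left (h2 σ hσ)
  obtain ⟨μ, h1, h2⟩ := this t.stem t.lt
  exact ⟨μ, h1, Cond.code_subset h2⟩

/-- Suprema of `κ` many ordinals below `κ⁺`. -/
theorem sup_lt (ho : M.o κ = (Order.succ κ.card).ord) {J : Type (u + 1)}
    (hJ : #J ≤ #(Iio κ)) (f : J → Ordinal.{u}) (hf : ∀ j, f j < M.o κ) :
    ∃ b < M.o κ, ∀ j, f j ≤ b := by
  have hbd : BddAbove (range f) := ⟨M.o κ, by rintro _ ⟨j, rfl⟩; exact (hf j).le⟩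
  have hκ : 0 < M.o κ := by
    rw [ho]
    rw [Cardinal.lt_ord]
    simp
  refine ⟨⨆ j, f j, ?_, fun j => le_ciSup hbd j⟩
  refine Ordinal.lift_iSup_lt_of_lt_cof ?_ hf
  have hreg : (Order.succ κ.card).IsRegular := by
    refine Cardinal.isRegular_succ ?_
    rw [Ordinal.aleph0_le_card]
    exact (M.normal κ le_rfl 0 hκ).omega_lt.le
  have h1 : (Ordinal.lift.{u + 1, u} (M.o κ)).cof = Cardinal.lift.{u + 1, u} (Order.succ κ.card) := by
    rw [ho, ← Ordinal.lift_cof, hreg.cof_ord]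
  rw [h1]
  have h2 : Cardinal.lift.{u, u + 1} #J ≤ #(Iio κ) :=
    (Cardinal.lift_id'.{u, u + 1} #J).le.trans hJ
  refine h2.trans_lt ?_
  rw [Cardinal.mk_Iio_ordinal]
  exact Cardinal.lift_lt.2 (Order.lt_succ _)

/-- The pigeonhole principle for unboundedly many ordinals below `κ⁺`. -/
theorem pigeonhole (ho : M.o κ = (Order.succ κ.card).ord) {J : Type (u + 1)}
    (hJ : #J ≤ #(Iio κ)) (R : Ordinal.{u} → J → Prop)
    (hR : ∀ ξ < M.o κ, ∃ ζ, ξ ≤ ζ ∧ ζ < M.o κ ∧ ∃ j, R ζ j) :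
    ∃ j, ∀ ξ < M.o κ, ∃ ζ, ξ ≤ ζ ∧ ζ < M.o κ ∧ R ζ j := by
  by_contra hn
  push Not at hn
  choose f hf hf' using hn
  obtain ⟨b, hb, hb'⟩ := sup_lt ho hJ f hf
  obtain ⟨ζ, h1, h2, j, h3⟩ := hR b hb
  exact hf' j ζ ((hb' j).trans h1) h2 h3

/-- Pressing down for stems. -/
theorem press_stem {ζ : Ordinal.{u}} (hζ : ζ < M.o κ) {S : Set Ordinal.{u}} (hS : S ∈ M.U κ ζ)
    (t : Ordinal.{u} → Cond M) (ht : ∀ ν ∈ S, ∀ σ ∈ (t ν).stem, σ < ν) :
    ∃ c, {ν | ν ∈ S ∧ (t ν).code = c} ∈ M.U κ ζ := by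
  classical
  have hN := M.normal κ le_rfl ζ hζ
  have hS' : {ν | ν ∈ S ∧ 0 < ν ∧ ∀ β < ν, Order.succ β < ν} ∈ M.U κ ζ :=
    Filter.inter_mem hS (Filter.inter_mem (hN.Ioi_mem hN.pos) hN.limit_mem)
  have hb : ∀ ν, ∃ μ, ν ∈ {ν | ν ∈ S ∧ 0 < ν ∧ ∀ β < ν, Order.succ β < ν} →
      μ < ν ∧ ∀ σ ∈ (t ν).stem, σ < μ := by
    intro ν
    by_cases hν : ν ∈ {ν | ν ∈ S ∧ 0 < ν ∧ ∀ β < ν, Order.succ β < ν}
    · have : ∀ s : Finset Ordinal.{u}, (∀ σ ∈ s, σ < ν) → ∃ μ < ν, ∀ σ ∈ s, σ < μ := by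
        intro s
        induction s using Finset.induction_on with
        | empty => exact fun _ => ⟨0, hν.2.1, by simp⟩
        | insert a s ha ih =>
          intro hs
          obtain ⟨μ, h1, h2⟩ := ih (fun σ hσ => hs σ (Finset.mem_insert_of_mem hσ))
          refine ⟨max μ (Order.succ a),
            max_lt h1 (hν.2.2 a (hs a (Finset.mem_insert_self _ _))), ?_⟩
          intro σ hσ
          rcases Finset.mem_insert.1 hσ with rfl | hσ
          · exact lt_max_of_lt_right (Order.lt_succ _)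
          · exact lt_max_of_lt_left (h2 σ hσ)
      obtain ⟨μ, h1, h2⟩ := this (t ν).stem (ht ν hν.1)
      exact ⟨μ, fun _ => ⟨h1, h2⟩⟩
    · exact ⟨0, fun h => absurd h hν⟩
  choose m hm using hb
  obtain ⟨μ, hμ, h1⟩ := hN.press hS' (fun ν hν => (hm ν hν).1)
  by_contra hn
  push Not at hn
  have h2 : {ν | ∀ c ⊆ Iio μ ×ˢ Iio μ, ν ∈ {ν | ν ∈ S → (t ν).code ≠ c}} ∈ M.U κ ζ := by
    refine hN.codes hμ (fun c => {ν | ν ∈ S → (t ν).code ≠ c}) ?_
    intro c _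
    refine Filter.mem_of_superset (Ultrafilter.compl_mem_iff_notMem.2 (hn c)) ?_
    intro ν hν hνS hνc
    exact hν ⟨hνS, hνc⟩
  obtain ⟨ν, hν1, hν2, hν3⟩ := (Ultrafilter.neBot (M.U κ ζ)).nonempty_of_mem
    (Filter.inter_mem h2 h1)
  refine hν1 (t ν).code (Cond.code_subset ?_) hν2.1 rfl
  intro σ hσ
  have := (hm ν hν2).2 σ hσ
  rwa [hν3] at this

end Run7.h429.MR
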