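import Pool.Agent.Run7.h429.MR.Tail

/-!
# If `D` is unbounded, then it contains the points of a tail of the types
-/

namespace Run7.h429.MR

open Set Cardinal

universe u v

variable {κ : Ordinal.{u}} {M : CoherentSeq κ}

/-- The data found for a bad type. -/
def RelR (A : Ordinal.{u} → Set (Cond M)) (B : Set Ordinal.{u}) (ν₀ : Ordinal.{u}) (p : Cond M)
    (ζ : Ordinal.{u}) (c : Set (Ordinal.{u} × Ordinal.{u})) (μ : Ordinal.{u}) : Prop :=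
  ∃ t : Cond M, t.code = c ∧ t.withTop p.top ≤ p ∧ ∃ E : Set Ordinal.{u},
    (∀ γ < ζ, E ∈ M.U κ γ) ∧
    {ν | (∀ σ ∈ t.stem, σ < ν) ∧ ∃ (hν : ν < κ) (hE : E ∩ Iio ν ⊆ Iio ν ∧ E ∩ Iio ν ∈ M.F ν)
      (C : TopSet M), t.ext ν hν (E ∩ Iio ν) hE C ∈ NoD A B ν₀ μ ν} ∈ M.U κ ζ

theorem relR_of_bad (hκ : 0 < M.o κ) {A : Ordinal.{u} → Set (Cond M)} {B : Set Ordinal.{u}}
    (hB : Good A B) {ν₀ : Ordinal.{u}} (hν₀ : B ⊆ Ioi ν₀) {p : Cond M}
    (hp1 : ∀ σ ∈ p.stem, σ ≤ ν₀) (hp2 : p.set κ ⊆ B) {s : Cond M}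
    (hs : s.withTop p.top ≤ p) {ζ : Ordinal.{u}} (hζ : ζ < M.o κ)
    (hbad : {ν | ν ∈ Yset s (Dsent A B ν₀ ν)} ∉ M.U κ ζ) :
    ∃ c ∈ Codes κ, ∃ μ < κ, RelR A B ν₀ p ζ c μ := by
  classical
  have hN := M.normal κ le_rfl ζ hζ
  obtain ⟨BN, hBN, hTN⟩ := exists_typical M (fun μ ν => NoD A B ν₀ μ ν)
  set T : TopSet M := ⟨BN ∩ Iio κ, inter_subset_right,
    Filter.inter_mem hBN (CoherentSeq.Iio_mem_F le_rfl)⟩ with hT
  have hpF : p.set κ ∈ M.F κ := p.meas κ (Or.inl rfl)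
  set S₁ : Set Ordinal.{u} := {ν | ν ∉ Yset s (Dsent A B ν₀ ν) ∧ (∀ σ ∈ s.stem, σ < ν) ∧
    ν ∈ p.set κ ∧ p.set κ ∈ M.F ν ∧ ν < κ} with hS₁
  have hS₁U : S₁ ∈ M.U κ ζ := by
    have h1 := Filter.inter_mem (Ultrafilter.compl_mem_iff_notMem.2 hbad)
      (Filter.inter_mem (stems_lt_mem hζ s) (Filter.inter_mem (CoherentSeq.mem_F.1 hpF ζ hζ)
        (Filter.inter_mem (CoherentSeq.reflect_F le_rfl hζ hpF) hN.conc)))
    exact Filter.mem_of_superset h1 (fun ν hν => hν)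
  have hch : ∀ ν, ∃ (t : Cond M) (E : Set Ordinal.{u}) (μ : Ordinal.{u}), ν ∈ S₁ →
      μ < ν ∧ (∀ σ ∈ t.stem, σ < ν) ∧ t.withTop p.top ≤ p ∧
      ∃ (hν : ν < κ) (hE : E ⊆ Iio ν ∧ E ∈ M.F ν) (C : TopSet M),
        t.ext ν hν E hE C ∈ NoD A B ν₀ μ ν := by
    intro ν
    by_cases hν : ν ∈ S₁
    swap
    · exact ⟨s, ∅, 0, fun h => absurd h hν⟩
    obtain ⟨h1, h2, h3, h4, hνκ⟩ := hν
    have hνB : ν ∈ B := hp2 h3
    have hν₀ν : ν₀ < ν := hν₀ hνB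
    have hE₀ : p.set κ ∩ Iio ν ⊆ Iio ν ∧ p.set κ ∩ Iio ν ∈ M.F ν :=
      ⟨inter_subset_right, Filter.inter_mem h4 (CoherentSeq.Iio_mem_F hνκ.le)⟩
    have hq : s.ext ν hνκ (p.set κ ∩ Iio ν) hE₀ (p.top.inter T) ≤ p :=
      (Cond.ext_le_withTop hνκ hE₀ (T := p.top) h2 h3 inter_subset_left
        inter_subset_left).trans hs
    have hqD : s.ext ν hνκ (p.set κ ∩ Iio ν) hE₀ (p.top.inter T) ∉ Dsent A B ν₀ ν :=
      fun h => h1 ⟨h2, hνκ, _, hE₀, _, h⟩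
    obtain ⟨q', hq', hq'D⟩ := (Dsent_isSentence A B ν₀ ν).dense hqD
    obtain ⟨μ, hμ, q'', hq'', hq''N⟩ := closed_D hκ hB hνB hq'D
    have hμν : μ < ν := by
      rcases hμ with rfl | h
      · exact hν₀ν
      · exact h.2
    have hq''q := hq''.trans hq'
    have hq''p : q'' ≤ p := hq''q.trans hq
    have hst₀ : ∀ σ ∈ (s.ext ν hνκ (p.set κ ∩ Iio ν) hE₀ (p.top.inter T)).stem, σ ≤ ν := by
      intro σ hσ
      rcases Finset.mem_insert.1 hσ with rfl | h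
      · exact le_rfl
      · exact (h2 σ h).le
    obtain ⟨t, ht, hst, hs'⟩ := low_of_mem (Φ := fun μ ν => NoD A B ν₀ μ ν) (β := μ) (γ := ν)
      (μ := ν) hκ hTN (NoD_isSentence A B ν₀ μ ν) (r := q'') (by
        intro ρ hρ hνρ
        have h5 := Cond.new_mem hq''q hρ (fun σ hσ => (hst₀ σ hσ).trans_lt hνρ)
        rw [Cond.ext_set_top] at h5
        exact ⟨h5.1.2.1, hμν.trans hνρ, hνρ⟩) hq''N
    have htle : ∀ σ ∈ t.stem, σ ≤ ν := by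
      intro σ hσ
      obtain ⟨τ, _, h6, h7⟩ := hst σ hσ
      exact h7.trans h6
    have hνq'' : ν ∈ q''.stem := hq''q.1 (Finset.mem_insert_self _ _)
    have hνt : ν ∈ t.stem := by
      refine ht.1 ?_
      rw [Cond.base_stem, Cond.mem_restr_stem]
      exact ⟨hνq'', le_refl ν⟩
    have htp : t.withTop p.top ≤ p := by
      refine (Cond.withTop_le_of_base_le ht ?_ p.top).trans
        (Cond.restr_withTop_le hq''p (fun ρ hρ => ?_))
      · intro ρ hρ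
        obtain ⟨σ, h6, h7, h8⟩ := hst ρ hρ
        exact ⟨σ, Cond.mem_restr_stem.2 ⟨h6, h7⟩, h8⟩
      · exact (hp1 ρ hρ).trans hν₀ν.le
    have htp' : (t.restr (Iio ν)).withTop p.top ≤ p := by
      have := Cond.restr_withTop_le htp (S := Iio ν) (fun ρ hρ => (hp1 ρ hρ).trans_lt hν₀ν)
      rwa [Cond.withTop_restr_withTop] at this
    obtain ⟨C, hC⟩ := hs'
    rw [Cond.withTop_eq_ext hνt htle C] at hC
    exact ⟨t.restr (Iio ν), t.set ν, μ, fun _ => ⟨hμν,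
      fun σ hσ => (Cond.mem_restr_stem.1 hσ).2, htp', _, _, C, hC⟩⟩
  choose t E μ hch using hch
  obtain ⟨c, hc⟩ := press_stem hζ hS₁U t (fun ν hν => (hch ν hν).2.1)
  obtain ⟨μ₁, hμ₁, hμU⟩ := hN.press hS₁U (fun ν hν => (hch ν hν).1)
  set Eζ : Set Ordinal.{u} := {β | {ν | β ∈ E ν} ∈ M.U κ ζ} with hEζ
  have hEU : {ν | ∀ β < ν, (β ∈ E ν ↔ β ∈ Eζ)} ∈ M.U κ ζ := by
    refine hN.normal (fun β => {ν | (β ∈ E ν ↔ β ∈ Eζ)}) ?_
    intro β _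
    by_cases hβ : {ν | β ∈ E ν} ∈ M.U κ ζ
    · exact Filter.mem_of_superset hβ (fun ν hν => ⟨fun _ => hβ, fun _ => hν⟩)
    · exact Filter.mem_of_superset (Ultrafilter.compl_mem_iff_notMem.2 hβ)
        (fun ν hν => ⟨fun h => absurd h hν, fun h => absurd h hβ⟩)
  set S₂ : Set Ordinal.{u} := {ν | ν ∈ S₁ ∧ (t ν).code = c ∧ μ ν = μ₁ ∧
    ∀ β < ν, (β ∈ E ν ↔ β ∈ Eζ)} with hS₂
  have hS₂U : S₂ ∈ M.U κ ζ :=
    Filter.mem_of_superset (Filter.inter_mem hc (Filter.inter_mem hμU hEU))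
      (fun ν hν => ⟨hν.1.1, hν.1.2, hν.2.1.2, hν.2.2⟩)
  have hEeq : ∀ ν ∈ S₂, E ν = Eζ ∩ Iio ν := by
    intro ν hν
    obtain ⟨_, _, _, _, hE, _⟩ := hch ν hν.1
    ext β
    constructor
    · intro hβ
      exact ⟨(hν.2.2.2 β (hE.1 hβ)).1 hβ, hE.1 hβ⟩
    · rintro ⟨h1, h2⟩
      exact (hν.2.2.2 β h2).2 h1
  obtain ⟨ν₁, hν₁⟩ := (Ultrafilter.neBot (M.U κ ζ)).nonempty_of_mem hS₂U
  refine ⟨c, ?_, μ₁, hμ₁, t ν₁, hν₁.2.1, (hch ν₁ hν₁.1).2.2.1, Eζ, ?_, ?_⟩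
  · rw [← hν₁.2.1]
    exact code_mem_codes hκ _
  · refine (CoherentSeq.reflect le_rfl hζ).2 (Filter.mem_of_superset hS₂U ?_)
    intro ν hν
    obtain ⟨_, _, _, _, hE, _⟩ := hch ν hν.1
    have h3 := hE.2
    rw [hEeq ν hν] at h3
    exact Filter.mem_of_superset h3 inter_subset_left
  · refine Filter.mem_of_superset hS₂U ?_
    intro ν hν
    obtain ⟨_, h5, _, hνκ, hE, C, hC⟩ := hch ν hν.1
    have hcode : (t ν).code = (t ν₁).code := hν.2.1.trans hν₁.2.1.symm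
    have hbase : (t ν).base = (t ν₁).base := Cond.base_eq_of_code hcode
    refine ⟨?_, hνκ, ?_⟩
    · rw [← Cond.base_stem, ← hbase]
      exact h5
    · have h6 : ∃ (hE : Eζ ∩ Iio ν ⊆ Iio ν ∧ Eζ ∩ Iio ν ∈ M.F ν) (C : TopSet M),
          (t ν).ext ν hνκ (Eζ ∩ Iio ν) hE C ∈ NoD A B ν₀ (μ ν) ν := by
        rw [← hEeq ν hν]
        exact ⟨hE, C, hC⟩
      obtain ⟨hE', C', h7⟩ := h6
      rw [hν.2.2.1, ← Cond.base_ext, hbase, Cond.base_ext] at h7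
      exact ⟨hE', C', h7⟩

/-- If `D` is unbounded below `p`, then for every stem `s` below `p` and all types `ζ` in a tail,
the stem `s` followed by a typical point `ν` of type `ζ` forces `ν ∈ D`. -/
theorem claimR (hκ : 0 < M.o κ) (ho : M.o κ = (Order.succ κ.card).ord)
    {A : Ordinal.{u} → Set (Cond M)} {B : Set Ordinal.{u}}
    (hB : Good A B) {ν₀ : Ordinal.{u}} (hν₀ : B ⊆ Ioi ν₀) {p : Cond M}
    (hp1 : ∀ σ ∈ p.stem, σ ≤ ν₀) (hp2 : p.set κ ⊆ B)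
    (hun : ∀ γ < κ, ∀ q ≤ p, ∃ r ≤ q, ∃ α, γ ≤ α ∧ α < κ ∧ r ∈ Dsent A B ν₀ α)
    {s : Cond M} (hs : s.withTop p.top ≤ p) :
    ∃ ξ < M.o κ, ∀ ζ, ξ ≤ ζ → ζ < M.o κ → {ν | ν ∈ Yset s (Dsent A B ν₀ ν)} ∈ M.U κ ζ := by
  classical
  by_contra hn
  push Not at hn
  have hJ : #((Codes κ) × Iio κ) ≤ #(Iio κ) := by
    rw [Cardinal.mk_prod, Cardinal.lift_id, Cardinal.lift_id]
    calc _ ≤ #(Iio κ) * #(Iio κ) := mul_le_mul' (mk_codes_le hκ) le_rfl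
      _ = #(Iio κ) := Cardinal.mul_eq_self (aleph0_le hκ)
  obtain ⟨⟨⟨c, hc⟩, ⟨μ, hμ⟩⟩, hR⟩ := pigeonhole ho hJ
    (fun ζ j => RelR A B ν₀ p ζ j.1.1 j.2.1) (by
      intro ξ hξ
      obtain ⟨ζ, h1, h2, h3⟩ := hn ξ hξ
      obtain ⟨c, hc, μ, hμ, h4⟩ := relR_of_bad hκ hB hν₀ hp1 hp2 hs h2 h3
      exact ⟨ζ, h1, h2, (⟨c, hc⟩, ⟨μ, hμ⟩), h4⟩)
  simp only at hR
  obtain ⟨ζ₀, -, hζ₀, t₁, ht₁, ht₁p, -⟩ := hR 0 hκ
  set Ψ : Set (Cond M) := {t | ∃ α, μ < α ∧ StarF t (Dsent A B ν₀ α)} with hΨdef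
  have hΨ : ∀ t₁ t, Shr t₁ t → t ∈ Ψ → t₁ ∈ Ψ := by
    rintro t₁ t h ⟨α, h1, h2⟩
    exact ⟨α, h1, h.starF (Dsent_isSentence A B ν₀ α) h2⟩
  obtain ⟨TG, hTGF, hTG⟩ := exists_TG M Ψ
  set T : TopSet M := ⟨TG ∩ Iio κ, inter_subset_right,
    Filter.inter_mem hTGF (CoherentSeq.Iio_mem_F le_rfl)⟩ with hT
  have hqp : t₁.withTop (p.top.inter T) ≤ p :=
    (Cond.withTop_le inter_subset_left).trans ht₁p
  obtain ⟨r, hr, α₀, hα₀, _, hrD⟩ := hun (Order.succ μ) ((M.normal κ le_rfl 0 hκ).succ_lt hμ)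
    (t₁.withTop (p.top.inter T)) hqp
  set S : Set Ordinal.{u} := {ρ | ¬ ∀ σ ∈ t₁.stem, σ < ρ} with hS
  have hSlt : ∀ ρ ∈ S, ∀ ν, ν ∉ S → ρ < ν := by
    intro ρ hρ ν hν
    have h1 : ¬ ∀ σ ∈ t₁.stem, σ < ρ := hρ
    push Not at h1
    obtain ⟨σ, hσ, h2⟩ := h1
    exact h2.trans_lt (not_not.1 hν σ hσ)
  have hrΨ : r ∈ Gd Ψ 0 := ⟨α₀, Order.succ_le_iff.1 hα₀, starF_self hrD⟩
  obtain ⟨n, hn'⟩ := peel hΨ (fun ρ hρ t ht n => (hTG ρ hρ).2 t ht n) hSlt _ r 0 rfl (by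
    intro ρ hρ hρS
    have := (Cond.new_mem hr hρ (not_not.1 hρS)).1
    rw [Cond.withTop_set_top] at this
    exact this.2.1) hrΨ
  obtain ⟨b, hb, hsup⟩ := exists_sup hκ ho Ψ
  have hb' : Order.succ b < M.o κ := by
    have hlim : Order.IsSuccLimit (M.o κ) := by
      rw [ho]
      refine Cardinal.isSuccLimit_ord ?_
      refine le_trans ?_ (Order.le_succ _)
      rw [Ordinal.aleph0_le_card]
      exact (M.normal κ le_rfl 0 hκ).omega_lt.le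
    exact hlim.succ_lt hb
  obtain ⟨ζ, hbζ, hζ, t₂, ht₂, -, E, hE, hEU⟩ := hR (Order.succ b) hb'
  have hbζ' : b < ζ := Order.succ_le_iff.1 hbζ
  have hbase : t₂.base = t₁.base := Cond.base_eq_of_code (ht₂.trans ht₁.symm)
  have hBel : Bel E (r.restr S) t₁ := by
    refine ⟨?_, ?_⟩
    · intro σ hσ
      refine Cond.mem_restr_stem.2 ⟨hr.1 hσ, ?_⟩
      intro h
      exact lt_irrefl _ (h σ hσ)
    · intro ρ hρ l hl
      obtain ⟨h1, h2⟩ := Cond.mem_restr_stem.1 hρ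
      have h2' : ¬ ∀ σ ∈ t₁.stem, σ < ρ := h2
      push Not at h2'
      obtain ⟨σ, hσ, h3⟩ := h2'
      have hlκ : l ≠ κ := ((hl.2.2 σ (Or.inr hσ) h3).trans_lt (t₁.lt σ hσ)).ne
      refine ⟨fun _ => ?_, fun h => absurd h hlκ⟩
      have h4 := hr.2 ρ (Or.inr h1) l hl
      rw [Cond.withTop_set_ne _ _ hlκ] at h4
      rw [Cond.restr_set _ h2]
      exact h4
  obtain ⟨t', ⟨α, hμα, hstar⟩, hBel'⟩ := descend hΨ hsup (E := E) (by
    intro γ hγ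
    refine ⟨hE γ (hγ.trans_lt hbζ'), ?_⟩
    exact (CoherentSeq.reflect (M := M) le_rfl ((hγ.trans_lt hbζ').trans hζ) (X := E)).1
      (fun γ' hγ' => hE γ' (hγ'.trans (hγ.trans_lt hbζ')))) t₁ n _ hn' hBel
  obtain ⟨W, hW⟩ := hstar
  have hακ : α < κ := hB.sub hW.1
  obtain ⟨ν, ⟨⟨h1, hν, hE₁, C, hC⟩, h2, h3, h4⟩, hαν, -⟩ :=
    (M.normal κ le_rfl ζ hζ).exists_gt hακ
      (Filter.inter_mem hEU (Filter.inter_mem (CoherentSeq.mem_F.1 W.2.2 ζ hζ)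
        (Filter.inter_mem (CoherentSeq.reflect_F le_rfl hζ W.2.2) (stems_lt_mem hζ t'))))
  rw [← Cond.base_ext, hbase, Cond.base_ext] at hC
  have hE₂ : E ∩ W.1 ∩ Iio ν ⊆ Iio ν ∧ E ∩ W.1 ∩ Iio ν ∈ M.F ν := by
    refine ⟨inter_subset_right, ?_⟩
    exact Filter.mem_of_superset (Filter.inter_mem hE₁.2 h3)
      (fun x hx => ⟨⟨hx.1.1, hx.2⟩, hx.1.2⟩)
  have h5 : t'.ext ν hν (E ∩ W.1 ∩ Iio ν) hE₂ (C.inter W) ≤
      t₁.ext ν hν (E ∩ Iio ν) hE₁ C :=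
    hBel'.ext_le hν h4 hE₂ hE₁ (fun x hx => ⟨hx.1.1, hx.2⟩) (fun x h6 h7 => ⟨h6, h7⟩)
      inter_subset_left
  have h6 : t'.ext ν hν (E ∩ W.1 ∩ Iio ν) hE₂ (C.inter W) ≤ t'.withTop W :=
    Cond.ext_le_withTop hν hE₂ h4 h2 (fun x hx => hx.1.2) inter_subset_right
  exact hC α hμα hαν _ h5 ((Dsent_isSentence A B ν₀ α).down hW h6)

/-- If `D` is unbounded below `p`, then it contains a tail of the types. -/
theorem unbounded_case (hκ : 0 < M.o κ) (ho : M.o κ = (Order.succ κ.card).ord)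
    {A : Ordinal.{u} → Set (Cond M)} (hA : ∀ β, IsSentence (A β)) {B : Set Ordinal.{u}}
    (hB : Good A B) {ν₀ : Ordinal.{u}} (hν₀ : B ⊆ Ioi ν₀) {p : Cond M}
    (hp1 : ∀ σ ∈ p.stem, σ ≤ ν₀) (hp2 : p.set κ ⊆ B)
    (hun : ∀ γ < κ, ∀ q ≤ p, ∃ r ≤ q, ∃ α, γ ≤ α ∧ α < κ ∧ r ∈ Dsent A B ν₀ α) :
    ∃ q ≤ p, ∃ ξ < M.o κ, ∃ X : Set Ordinal.{u}, (∀ ζ, ξ ≤ ζ → ζ < M.o κ → X ∈ M.U κ ζ) ∧
      X ⊆ B ∧ ∀ α ∈ X, ForcesIff q (club M α) (Dsent A B ν₀ α) := by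
  classical
  have hch : ∀ c : Codes κ, ∃ ξ < M.o κ, ∀ s : Cond M, s.code = c.1 → s.withTop p.top ≤ p →
      ∀ ζ, ξ ≤ ζ → ζ < M.o κ → {ν | ν ∈ Yset s (Dsent A B ν₀ ν)} ∈ M.U κ ζ := by
    intro c
    by_cases h : ∃ s : Cond M, s.code = c.1 ∧ s.withTop p.top ≤ p
    · obtain ⟨s, h1, h2⟩ := h
      obtain ⟨ξ, h3, h4⟩ := claimR hκ ho hB hν₀ hp1 hp2 hun h2
      refine ⟨ξ, h3, ?_⟩
      intro s' hs' _ ζ h5 h6
      have := h4 ζ h5 h6
      have hb : s'.base = s.base := Cond.base_eq_of_code (hs'.trans h1.symm)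
      refine Filter.mem_of_superset this ?_
      intro ν hν
      have hν' : ν ∈ Yset s (Dsent A B ν₀ ν) := hν
      change ν ∈ Yset s' (Dsent A B ν₀ ν)
      rwa [← Yset_base, hb, Yset_base]
    · exact ⟨0, hκ, fun s h1 h2 => absurd ⟨s, h1, h2⟩ h⟩
  choose f hf hf' using hch
  obtain ⟨ξ, hξ, hξ'⟩ := sup_lt ho (mk_codes_le hκ) f hf
  obtain ⟨BD, hBD, hTD⟩ := exists_typical M (fun α _ => Dsent A B ν₀ α)
  set T : TopSet M := ⟨BD ∩ Iio κ, inter_subset_right,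
    Filter.inter_mem hBD (CoherentSeq.Iio_mem_F le_rfl)⟩ with hT
  set X : Set Ordinal.{u} := {α | α ∈ B ∧ ∀ s : Cond M, (∀ σ ∈ s.stem, σ < α) →
    s.withTop p.top ≤ p → α ∈ Yset s (Dsent A B ν₀ α)} with hX
  refine ⟨p.withTop (p.top.inter T), Cond.le_withTop_of_le T le_rfl, ξ, hξ, X, ?_,
    fun α hα => hα.1, ?_⟩
  · intro ζ hξζ hζ
    have hN := M.normal κ le_rfl ζ hζ
    have h1 := diag_stems_U hζ (fun s _ _ => {α | s.withTop p.top ≤ p →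
      α ∈ Yset s (Dsent A B ν₀ α)}) (by
        intro t β γ _ _
        by_cases h : t.withTop p.top ≤ p
        · refine Filter.mem_of_superset (hf' ⟨t.code, code_mem_codes hκ t⟩ t rfl h ζ
            ((hξ' _).trans hξζ) hζ) ?_
          intro ν hν _
          exact hν
        · exact Filter.mem_of_superset Filter.univ_mem (fun _ _ h' => absurd h' h))
    refine Filter.mem_of_superset (Filter.inter_mem h1 (Filter.inter_mem
      (CoherentSeq.mem_F.1 hB.mem ζ hζ) (hN.Ioi_mem hN.pos))) ?_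
    rintro α ⟨h2, h3, h4⟩
    refine ⟨h3, ?_⟩
    intro s hs hsp
    have h5 := h2 s hs 0 h4 0 h4
    have h6 : s.base.withTop p.top ≤ p := by rwa [Cond.base_withTop]
    have h7 : α ∈ Yset s.base (Dsent A B ν₀ α) := h5 h6
    rwa [Yset_base] at h7
  · intro α hα q hq
    have hqp : q ≤ p := hq.trans (Cond.le_withTop_of_le T le_rfl)
    have hαB : α ∈ B := hα.1
    have hν₀α : ν₀ < α := hν₀ hαB
    constructor
    · intro hqα
      rw [Dsent_isSentence A B ν₀ α q]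
      intro q' hq'
      have hαq' : α ∈ q'.stem := hq'.1 (mem_club.1 hqα)
      have hq'p : q' ≤ p := hq'.trans hqp
      have h1 : (q'.restr (Iio α)).withTop p.top ≤ p :=
        Cond.restr_withTop_le hq'p (fun ρ hρ => (hp1 ρ hρ).trans_lt hν₀α)
      obtain ⟨h2, hακ, E, hE, C, h3⟩ := hα.2 _ (fun σ hσ => (Cond.mem_restr_stem.1 hσ).2) h1
      have hE' : E ∩ q'.set α ⊆ Iio α ∧ E ∩ q'.set α ∈ M.F α :=
        ⟨inter_subset_left.trans hE.1, Filter.inter_mem hE.2 (q'.meas α (Or.inr hαq'))⟩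
      set t : Cond M := (q'.restr (Iio α)).ext α hακ (E ∩ q'.set α) hE' C with ht
      have h4 : StarF t (Dsent A B ν₀ α) := by
        refine Shr.starF ?_ (Dsent_isSentence A B ν₀ α) (starF_self h3)
        exact (Shr.refl _).ext hακ hE hE' inter_subset_left C C
      have hstem : t.stem = (q'.restr (Iic α)).stem := by
        ext ρ
        rw [ht, Cond.ext_stem, Finset.mem_insert, Cond.mem_restr_stem, Cond.mem_restr_stem]
        constructor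
        · rintro (h | h)
          · rw [h]
            exact ⟨hαq', le_refl α⟩
          · exact ⟨h.1, (show ρ < α from h.2).le⟩
        · rintro ⟨h5, h6⟩
          rcases (show ρ ≤ α from h6).lt_or_eq with h | h
          · exact Or.inr ⟨h5, h⟩
          · exact Or.inl h
      have h5 : t.base ≤ (q'.restr (Iic α)).base := by
        refine Cond.le_of_subset hstem ?_
        intro ρ hρ
        by_cases hρκ : ρ = κ
        · subst hρκ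
          rw [Cond.base, Cond.base, Cond.withTop_set_top, Cond.withTop_set_top]
        · rw [Cond.base, Cond.base, Cond.withTop_set_ne _ _ hρκ, Cond.withTop_set_ne _ _ hρκ]
          have hρt : ρ ∈ t.stem := by
            rcases hρ with h | h
            · exact absurd h hρκ
            · exact h
          have hρα : ρ ≤ α := by
            rw [hstem] at hρt
            exact (Cond.mem_restr_stem.1 hρt).2
          rw [Cond.restr_set _ (show ρ ∈ Iic α from hρα)]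
          by_cases hρα' : ρ = α
          · subst hρα'
            rw [ht, Cond.ext_set_self]
            exact inter_subset_right
          · rw [ht, Cond.ext_set_ne _ _ _ _ _ _ hρκ hρα', Cond.restr_set]
            exact lt_of_le_of_ne hρα hρα'
      obtain ⟨r', h6, h7, -⟩ := mem_of_low (Φ := fun α _ => Dsent A B ν₀ α) (β := α) (γ := α)
        (μ := α) hTD (Dsent_isSentence A B ν₀ α) (r := q') (by
          intro ρ hρ hαρ
          have h8 := Cond.new_mem (hq'.trans hq) hρ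
            (fun σ hσ => ((hp1 σ hσ).trans_lt hν₀α).trans hαρ)
          rw [Cond.withTop_set_top] at h8
          exact ⟨h8.1.2.1, hαρ, hαρ⟩) h5 (by
          intro ρ hρ
          rw [hstem] at hρ
          obtain ⟨h9, h10⟩ := Cond.mem_restr_stem.1 hρ
          exact ⟨ρ, h9, h10, le_rfl⟩) h4
      exact ⟨r', h6, h7⟩
    · intro hqD
      refine mem_club.2 (Dsent_stem hκ hA hB (q := q) ?_ hqD)
      exact (Her.of_top hp1 hp2).mono hqp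

end Run7.h429.MR
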