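import Mathlib

/-!
# Magidor-Radin forcing for a coherent sequence of normal measures

Measures on an ordinal `κ` are ultrafilters on the ordinals which contain `κ = {α | α < κ}`.
A sentence of the forcing language is represented by the set of the conditions which force it.
-/

namespace Run7.h429.MR

open Set

universe u v

/-- `U` is a normal measure on `κ`: it concentrates on `κ`, is not principal, is `κ`-complete and
is closed under diagonal intersections of length `κ`. -/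
structure IsNormalMeasure (κ : Ordinal.{u}) (U : Ultrafilter Ordinal.{u}) : Prop where
  conc : Iio κ ∈ U
  nonprincipal : ∀ β < κ, {β}ᶜ ∈ U
  complete : ∀ μ < κ, ∀ X : Ordinal.{u} → Set Ordinal.{u}, (∀ β < μ, X β ∈ U) →
    {α | ∀ β < μ, α ∈ X β} ∈ U
  normal : ∀ X : Ordinal.{u} → Set Ordinal.{u}, (∀ β < κ, X β ∈ U) →
    {α | ∀ β < α, α ∈ X β} ∈ U

/-- A coherent sequence `⟨U α β | α ≤ κ, β < o α⟩` of normal measures in the sense of Mitchell.
Coherence of `U` at `(α, β)`: in the ultrapower by `U α β`, the function `o` represents `β`,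
and if `g γ` represents the ordinal `γ < β`, then `U α γ` is represented by
`ν ↦ U ν (g γ ν)`. -/
structure CoherentSeq (κ : Ordinal.{u}) where
  o : Ordinal.{u} → Ordinal.{u}
  U : Ordinal.{u} → Ordinal.{u} → Ultrafilter Ordinal.{u}
  normal : ∀ α ≤ κ, ∀ β < o α, IsNormalMeasure α (U α β)
  coherent : ∀ α ≤ κ, ∀ β < o α, ∃ g : Ordinal.{u} → Ordinal.{u} → Ordinal.{u},
    (∀ γ < β, {ν | g γ ν < o ν} ∈ U α β) ∧
    (∀ γ < β, ∀ δ < γ, {ν | g δ ν < g γ ν} ∈ U α β) ∧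
    (∀ h : Ordinal.{u} → Ordinal.{u}, {ν | h ν < o ν} ∈ U α β →
      ∃ γ < β, {ν | h ν = g γ ν} ∈ U α β) ∧
    (∀ γ < β, ∀ X : Set Ordinal.{u}, X ∈ U α γ ↔ {ν | X ∈ U ν (g γ ν)} ∈ U α β)

variable {κ : Ordinal.{u}}

/-- The filter of the sets which belong to all the measures on `α`. -/
def CoherentSeq.F (M : CoherentSeq κ) (α : Ordinal.{u}) : Filter Ordinal.{u} :=
  ⨆ β ∈ Iio (M.o α), (M.U α β : Filter Ordinal.{u})

/-- The conditions `⟨(κ₁, A₁), …, (κₙ, Aₙ), (κ, A)⟩` of the Magidor-Radin forcing: `stem` is the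
finite set `{κ₁, …, κₙ}`, and `set` maps each `κᵢ` to `Aᵢ` and `κ` to `A` (and all other
ordinals to the empty set). -/
structure Cond (M : CoherentSeq κ) where
  stem : Finset Ordinal.{u}
  set : Ordinal.{u} → Set Ordinal.{u}
  lt : ∀ ν ∈ stem, ν < κ
  sub : ∀ ν, (ν = κ ∨ ν ∈ stem) → set ν ⊆ Iio ν
  meas : ∀ ν, (ν = κ ∨ ν ∈ stem) → set ν ∈ M.F ν
  out : ∀ ν, ¬ (ν = κ ∨ ν ∈ stem) → set ν = ∅

variable {M : CoherentSeq κ}

/-- `l` is the least ordinal among `κ₁, …, κₙ, κ` which is at least `ν`. -/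
def Cond.Next (p : Cond M) (ν l : Ordinal.{u}) : Prop :=
  (l = κ ∨ l ∈ p.stem) ∧ ν ≤ l ∧ ∀ ρ, (ρ = κ ∨ ρ ∈ p.stem) → ν ≤ ρ → l ≤ ρ

/-- `q ≤ p` iff the points of `p` are points of `q`, every new point `ν` of `q` belongs to the
set of `p` attached to the next point `l` of `p`, and the sets of `q` are subsets of the
corresponding sets of `p`. -/
instance : LE (Cond M) where
  le q p := p.stem ⊆ q.stem ∧ ∀ ν, (ν = κ ∨ ν ∈ q.stem) → ∀ l, p.Next ν l →
    (ν = l ∨ ν ∈ p.set l) ∧ q.set ν ⊆ p.set l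

theorem Cond.le_def {p q : Cond M} : q ≤ p ↔ p.stem ⊆ q.stem ∧
    ∀ ν, (ν = κ ∨ ν ∈ q.stem) → ∀ l, p.Next ν l →
      (ν = l ∨ ν ∈ p.set l) ∧ q.set ν ⊆ p.set l := Iff.rfl

theorem Cond.next_exists (p : Cond M) {ν : Ordinal.{u}} (h : ν ≤ κ) : ∃ l, p.Next ν l := by
  classical
  have hne : {l | (l = κ ∨ l ∈ p.stem) ∧ ν ≤ l}.Nonempty := ⟨κ, Or.inl rfl, h⟩
  refine ⟨sInf {l | (l = κ ∨ l ∈ p.stem) ∧ ν ≤ l}, (csInf_mem hne).1, (csInf_mem hne).2, ?_⟩
  intro ρ hρ hνρ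
  exact csInf_le' ⟨hρ, hνρ⟩

theorem Cond.next_self (p : Cond M) {ν : Ordinal.{u}} (h : ν = κ ∨ ν ∈ p.stem) :
    p.Next ν ν := ⟨h, le_refl _, fun _ _ h' => h'⟩

theorem Cond.Next.unique {p : Cond M} {ν l l' : Ordinal.{u}} (h : p.Next ν l)
    (h' : p.Next ν l') : l = l' :=
  le_antisymm (h.2.2 _ h'.1 h'.2.1) (h'.2.2 _ h.1 h.2.1)

theorem Cond.dom_le (p : Cond M) {ν : Ordinal.{u}} (h : ν = κ ∨ ν ∈ p.stem) : ν ≤ κ := by
  rcases h with h | h
  · exact h.le
  · exact (p.lt ν h).le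

instance : Preorder (Cond M) where
  le_refl p := by
    refine ⟨Finset.Subset.refl _, ?_⟩
    intro ν hν l hl
    have := (p.next_self hν).unique hl
    subst this
    exact ⟨Or.inl rfl, Subset.rfl⟩
  le_trans r q p hrq hqp := by
    refine ⟨hqp.1.trans hrq.1, ?_⟩
    intro ν hν l hl
    obtain ⟨μ, hμ⟩ := q.next_exists (r.dom_le hν)
    have hμl : μ ≤ l := hμ.2.2 l (hl.1.imp id (fun h => hqp.1 h)) hl.2.1
    have hpn : p.Next μ l := ⟨hl.1, hμl, fun ρ hρ h => hl.2.2 ρ hρ (hμ.2.1.trans h)⟩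
    obtain ⟨h1, h2⟩ := hrq.2 ν hν μ hμ
    obtain ⟨h3, h4⟩ := hqp.2 μ hμ.1 l hpn
    refine ⟨?_, h2.trans h4⟩
    rcases h1 with rfl | h1
    · exact h3
    · exact Or.inr (h4 h1)

/-! ### Sentences -/

section Sentences

variable {P : Type v} [Preorder P]

/-- `p` forces `not φ` iff no `q ≤ p` forces `φ`. -/
def fnot (φ : Set P) : Set P := {p | ∀ q ≤ p, q ∉ φ}

/-- The set `φ` is a sentence of the forcing language: a condition belongs to it if and only if
`φ` is dense below the condition. (The sentences form the regular open algebra.) -/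
def IsSentence (φ : Set P) : Prop := ∀ p, p ∈ φ ↔ ∀ q ≤ p, ∃ r ≤ q, r ∈ φ

/-- A family of sentences closed under negation and arbitrary conjunctions: a complete
subalgebra. -/
def IsCompleteSubalgebra (𝒢 : Set (Set P)) : Prop :=
  (∀ φ ∈ 𝒢, fnot φ ∈ 𝒢) ∧ ∀ S ⊆ 𝒢, ⋂₀ S ∈ 𝒢

/-- The complete subalgebra generated by the sentences `A i`. -/
def generated {ι : Type*} (A : ι → Set P) : Set (Set P) :=
  {φ | ∀ 𝒢 : Set (Set P), IsCompleteSubalgebra 𝒢 → (∀ i, A i ∈ 𝒢) → φ ∈ 𝒢}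

/-- `p` forces that `φ` and `ψ` are equivalent. -/
def ForcesIff (p : P) (φ ψ : Set P) : Prop := ∀ q ≤ p, q ∈ φ ↔ q ∈ ψ

/-- Let `A i` be the sentences `i ∈ A` and `B j` the sentences `j ∈ B` for names `A`, `B` of
sets. The condition `p` forces that `B` belongs to `V[A]`, with fixed Boolean combinations:
every sentence `B j` is, below `p`, equivalent to one in the complete subalgebra generated by the
sentences `A i`. -/
def Computes {ι ι' : Type*} (p : P) (A : ι → Set P) (B : ι' → Set P) : Prop :=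
  ∀ j, ∃ φ ∈ generated A, ForcesIff p (B j) φ

end Sentences

/-- The sentence `ν ∈ C_G`, where `C_G` is the generic sequence. -/
def club (M : CoherentSeq κ) (ν : Ordinal.{u}) : Set (Cond M) :=
  {p | ∀ q ≤ p, ∃ r ≤ q, ν ∈ r.stem}

end Run7.h429.MR
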