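import Pool.Agent.Run7.h429.MR.Low

/-!
# A subset of `κ` in the extension either is added by a bounded part of the generic sequence,
or computes an unbounded part of it
-/

namespace Run7.h429.MR

open Set

universe u v

variable {κ : Ordinal.{u}} {M : CoherentSeq κ}

theorem mem_club {p : Cond M} {σ : Ordinal.{u}} : p ∈ club M σ ↔ σ ∈ p.stem := by
  classical
  constructor
  · intro hp
    by_contra hσ
    by_cases hσκ : σ < κ
    · obtain ⟨l, hl⟩ := p.next_exists hσκ.le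
      have hσl : σ < l := by
        refine lt_of_le_of_ne hl.2.1 ?_
        rintro rfl
        rcases hl.1 with h | h
        · exact absurd h hσκ.ne
        · exact hσ h
      have hlκ : l ≤ κ := p.dom_le hl.1
      obtain ⟨r, hr, hσr⟩ := hp (p.inter (fun ρ => {x | ρ = l → σ < x}) (by
        intro ρ _
        by_cases h : ρ = l
        · subst h
          exact Filter.mem_of_superset (CoherentSeq.Ioi_mem_F hlκ hσl) (fun x hx _ => hx)
        · exact Filter.mem_of_superset Filter.univ_mem (fun x _ h' => absurd h' h)))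
        (Cond.inter_le _ _ _)
      obtain ⟨h1, _⟩ := hr.2 σ (Or.inr hσr) l hl
      rcases h1 with h1 | h1
      · exact absurd h1 hσl.ne
      · exact lt_irrefl _ (h1.2 rfl)
    · obtain ⟨r, _, hr⟩ := hp p le_rfl
      exact hσκ (r.lt σ hr)
  · intro h q hq
    exact ⟨q, le_rfl, hq.1 h⟩

theorem club_isSentence (σ : Ordinal.{u}) : IsSentence (club M σ) := by
  intro p
  constructor
  · intro h q hq
    exact ⟨q, le_rfl, mem_club.2 (hq.1 (mem_club.1 h))⟩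
  · intro h q hq
    obtain ⟨r, hr, hr'⟩ := h q hq
    exact ⟨r, hr, mem_club.1 hr'⟩

/-- The values `β` and `β'` cannot be distinguished by stems with points at most `ν`. -/
def Eqv (A : Ordinal.{u} → Set (Cond M)) (ν β β' : Ordinal.{u}) : Prop :=
  ∀ t : Cond M, (∀ σ ∈ t.stem, σ ≤ ν) → (StarF t (A β) ↔ StarF t (A β'))

theorem Eqv.symm {A : Ordinal.{u} → Set (Cond M)} {ν β β' : Ordinal.{u}} (h : Eqv A ν β β') :
    Eqv A ν β' β := fun t ht => (h t ht).symm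

theorem Eqv.trans {A : Ordinal.{u} → Set (Cond M)} {ν β β' β'' : Ordinal.{u}}
    (h : Eqv A ν β β') (h' : Eqv A ν β' β'') : Eqv A ν β β'' :=
  fun t ht => (h t ht).trans (h' t ht)

theorem Eqv.mono {A : Ordinal.{u} → Set (Cond M)} {ν ν' β β' : Ordinal.{u}}
    (h : Eqv A ν β β') (hν : ν' ≤ ν) : Eqv A ν' β β' :=
  fun t ht => h t (fun σ hσ => (ht σ hσ).trans hν)

theorem classes_bounded (hκ : 0 < M.o κ) (A : Ordinal.{u} → Set (Cond M)) {ν : Ordinal.{u}}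
    (hν : ν < κ) : ∃ b < κ, ∀ β < κ, ∃ β' < b, Eqv A ν β β' := by
  classical
  have hN := M.normal κ le_rfl 0 hκ
  by_contra hn
  push Not at hn
  have hch : ∀ b, ∃ β, b < κ → β < κ ∧ ∀ β' < b, ¬ Eqv A ν β β' := by
    intro b
    by_cases hb : b < κ
    · obtain ⟨β, h1, h2⟩ := hn b hb
      exact ⟨β, fun _ => ⟨h1, h2⟩⟩
    · exact ⟨0, fun h => absurd h hb⟩
  choose f hf using hch
  set Q : Set (Ordinal.{u} × Ordinal.{u}) → Ordinal.{u} → Prop := fun c b =>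
    ∃ t : Cond M, t.code = c ∧ StarF t (A (f b)) with hQ
  have h1 : {b | ∀ c ⊆ Iio (Order.succ ν) ×ˢ Iio (Order.succ ν),
      b ∈ {b | (Q c b ↔ {b | Q c b} ∈ M.U κ 0)}} ∈ M.U κ 0 := by
    refine hN.codes (hN.succ_lt hν) _ ?_
    intro c _
    by_cases hc : {b | Q c b} ∈ M.U κ 0
    · exact Filter.mem_of_superset hc (fun b hb => ⟨fun _ => hc, fun _ => hb⟩)
    · exact Filter.mem_of_superset (Ultrafilter.compl_mem_iff_notMem.2 hc)
        (fun b hb => ⟨fun h => absurd h hb, fun h => absurd h hc⟩)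
  obtain ⟨b₁, hb₁, -, hb₁κ⟩ := hN.exists_gt hν h1
  obtain ⟨b₂, hb₂, hb₂', hb₂κ⟩ := hN.exists_gt (hf b₁ hb₁κ).1 h1
  refine (hf b₂ hb₂κ).2 (f b₁) hb₂' ?_
  intro t ht
  have hc : t.code ⊆ Iio (Order.succ ν) ×ˢ Iio (Order.succ ν) :=
    Cond.code_subset (fun σ hσ => Order.lt_succ_iff.2 (ht σ hσ))
  have h2 := hb₁ t.code hc
  have h3 := hb₂ t.code hc
  have h4 : ∀ b, Q t.code b ↔ StarF t (A (f b)) := by
    intro b
    constructor
    · rintro ⟨t', ht', h⟩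
      exact (starF_of_code ht').1 h
    · intro h
      exact ⟨t, rfl, h⟩
  rw [← h4, ← h4]
  exact h3.trans h2.symm

/-- The properties of the top set which is used for `A`. -/
structure Good (A : Ordinal.{u} → Set (Cond M)) (B : Set Ordinal.{u}) : Prop where
  sub : B ⊆ Iio κ
  mem : B ∈ M.F κ
  typ : Typical B (fun β _ => A β)
  cls : ∀ μ ∈ B, ∀ ν < μ, ∀ β < κ, ∃ β' < μ, Eqv A ν β β'

theorem exists_good (hκ : 0 < M.o κ) (A : Ordinal.{u} → Set (Cond M)) :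
    ∃ B : Set Ordinal.{u}, Good A B := by
  classical
  obtain ⟨B, hB, hT⟩ := exists_typical M (fun β _ => A β)
  have hch : ∀ ν, ∃ b, ν < κ → b < κ ∧ ∀ β < κ, ∃ β' < b, Eqv A ν β β' := by
    intro ν
    by_cases hν : ν < κ
    · obtain ⟨b, h1, h2⟩ := classes_bounded hκ A hν
      exact ⟨b, fun _ => ⟨h1, h2⟩⟩
    · exact ⟨0, fun h => absurd h hν⟩
  choose b hb using hch
  have h2 : {μ | ∀ ν < μ, μ ∈ Ioi (b ν)} ∈ M.F κ := by
    refine CoherentSeq.mem_F.2 (fun ζ hζ => ?_)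
    exact (M.normal κ le_rfl ζ hζ).normal (fun ν => Ioi (b ν))
      (fun ν hν => (M.normal κ le_rfl ζ hζ).Ioi_mem (hb ν hν).1)
  refine ⟨Iio κ ∩ (B ∩ {μ | ∀ ν < μ, μ ∈ Ioi (b ν)}), inter_subset_left,
    Filter.inter_mem (CoherentSeq.Iio_mem_F le_rfl) (Filter.inter_mem hB h2),
    hT.mono (fun x hx => hx.2.1), ?_⟩
  intro μ hμ ν hν β hβ
  obtain ⟨β', h3, h4⟩ := (hb ν (hν.trans hμ.1)).2 β hβ
  exact ⟨β', h3.trans (hμ.2.2 ν hν), h4⟩

/-- The next element of `B` above `α`. -/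
noncomputable def nxt (B : Set Ordinal.{u}) (α : Ordinal.{u}) : Ordinal.{u} := sInf (B ∩ Ioi α)

theorem nxt_le {B : Set Ordinal.{u}} {α ρ : Ordinal.{u}} (hρ : ρ ∈ B) (h : α < ρ) :
    nxt B α ≤ ρ := csInf_le' ⟨hρ, h⟩

theorem F_unbounded (hκ : 0 < M.o κ) {B : Set Ordinal.{u}} (hB : B ∈ M.F κ) {α : Ordinal.{u}}
    (hα : α < κ) : ∃ ρ ∈ B, α < ρ ∧ ρ < κ :=
  (M.normal κ le_rfl 0 hκ).exists_gt hα (CoherentSeq.mem_F.1 hB 0 hκ)

theorem nxt_mem (hκ : 0 < M.o κ) {B : Set Ordinal.{u}} (hB : B ∈ M.F κ) {α : Ordinal.{u}}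
    (hα : α < κ) : nxt B α ∈ B ∧ α < nxt B α := by
  obtain ⟨ρ, h1, h2, _⟩ := F_unbounded hκ hB hα
  exact csInf_mem (⟨ρ, h1, h2⟩ : (B ∩ Ioi α).Nonempty)

theorem nxt_mono {B : Set Ordinal.{u}} {α α' : Ordinal.{u}} (hne : (B ∩ Ioi α').Nonempty)
    (h : α ≤ α') : nxt B α ≤ nxt B α' := by
  have := csInf_mem hne
  exact nxt_le this.1 (h.trans_lt this.2)

/-- The sentence `α ∈ D`: the set named by `A`, up to the next element of `B` above `α`, cannot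
be computed from its part below the next element of `B` above `μ`, for any `μ < α` in `B`
(or `μ = ν₀`). -/
def Dsent (A : Ordinal.{u} → Set (Cond M)) (B : Set Ordinal.{u}) (ν₀ α : Ordinal.{u}) :
    Set (Cond M) :=
  {p | α ∈ B ∧ ∀ μ, (μ = ν₀ ∨ (μ ∈ B ∧ μ < α)) → ∀ q ≤ p, ∃ r ≤ q,
    ∃ β < nxt B α, ∃ β' < nxt B α, Eqv A μ β β' ∧ r ∈ A β ∧ r ∈ fnot (A β')}

theorem Dsent_isSentence (A : Ordinal.{u} → Set (Cond M)) (B : Set Ordinal.{u})
    (ν₀ α : Ordinal.{u}) : IsSentence (Dsent A B ν₀ α) := by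
  intro p
  constructor
  · intro hp q hq
    exact ⟨q, le_rfl, hp.1, fun μ hμ q' hq' => hp.2 μ hμ q' (hq'.trans hq)⟩
  · intro h
    obtain ⟨r, _, hr⟩ := h p le_rfl
    refine ⟨hr.1, ?_⟩
    intro μ hμ q hq
    obtain ⟨r', hr', hr''⟩ := h q hq
    obtain ⟨r₂, h1, h2⟩ := hr''.2 μ hμ r' le_rfl
    exact ⟨r₂, h1.trans hr', h2⟩

/-- Hereditarily, all the points above `ν₀` are in `B`. -/
def Her (B : Set Ordinal.{u}) (ν₀ : Ordinal.{u}) (q : Cond M) : Prop :=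
  ∀ r ≤ q, ∀ ρ ∈ r.stem, ν₀ < ρ → ρ ∈ B

theorem Her.mono {B : Set Ordinal.{u}} {ν₀ : Ordinal.{u}} {q r : Cond M} (h : Her B ν₀ q)
    (hr : r ≤ q) : Her B ν₀ r := fun r' hr' => h r' (hr'.trans hr)

theorem Her.of_top {B : Set Ordinal.{u}} {ν₀ : Ordinal.{u}} {p : Cond M}
    (h1 : ∀ σ ∈ p.stem, σ ≤ ν₀) (h2 : p.set κ ⊆ B) : Her B ν₀ p := by
  intro r hr ρ hρ hν
  have hn : p.Next ρ κ := by
    refine ⟨Or.inl rfl, (r.lt ρ hρ).le, ?_⟩
    intro σ hσ h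
    rcases hσ with rfl | hσ
    · exact le_rfl
    · exact absurd ((h1 σ hσ).trans_lt hν) (not_lt.2 h)
  rcases (hr.2 ρ (Or.inr hρ) κ hn).1 with h | h
  · exact absurd h (r.lt ρ hρ).ne
  · exact h2 h

theorem Dsent_stem (hκ : 0 < M.o κ) {A : Ordinal.{u} → Set (Cond M)}
    (hA : ∀ β, IsSentence (A β)) {B : Set Ordinal.{u}} (hB : Good A B) {ν₀ : Ordinal.{u}}
    {q : Cond M} (hq : Her B ν₀ q) {α : Ordinal.{u}}
    (hqα : q ∈ Dsent A B ν₀ α) : α ∈ q.stem := by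
  classical
  by_contra hα
  have hαB : α ∈ B := hqα.1
  have hακ : α < κ := hB.sub hαB
  obtain ⟨l, hl⟩ := q.next_exists hακ.le
  have hαl : α < l := by
    refine lt_of_le_of_ne hl.2.1 ?_
    rintro rfl
    rcases hl.1 with h | h
    · exact absurd h hακ.ne
    · exact hα h
  have hlκ : l ≤ κ := q.dom_le hl.1
  obtain ⟨μ, hμ, hμq, hμα⟩ : ∃ μ, (μ = ν₀ ∨ (μ ∈ B ∧ μ < α)) ∧ (∀ ρ ∈ q.stem, ρ < α → ρ ≤ μ) ∧
      ν₀ ≤ μ := by
    by_cases hne : (q.stem.filter (fun ρ => ν₀ < ρ ∧ ρ < α)).Nonempty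
    · have hm := Finset.max'_mem _ hne
      obtain ⟨h1, h2, h3⟩ := Finset.mem_filter.1 hm
      refine ⟨_, Or.inr ⟨hq q le_rfl _ h1 h2, h3⟩, ?_, h2.le⟩
      intro ρ hρ hρα
      by_cases h4 : ν₀ < ρ
      · exact Finset.le_max' _ _ (Finset.mem_filter.2 ⟨hρ, h4, hρα⟩)
      · exact (not_lt.1 h4).trans h2.le
    · refine ⟨ν₀, Or.inl rfl, ?_, le_rfl⟩
      intro ρ hρ hρα
      by_contra h4
      exact hne ⟨ρ, Finset.mem_filter.2 ⟨hρ, not_le.1 h4, hρα⟩⟩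
  set q' : Cond M := q.inter (fun ρ => {x | ρ = l → α < x}) (by
    intro ρ _
    by_cases h : ρ = l
    · subst h
      exact Filter.mem_of_superset (CoherentSeq.Ioi_mem_F hlκ hαl) (fun x hx _ => hx)
    · exact Filter.mem_of_superset Filter.univ_mem (fun x _ h' => absurd h' h)) with hq'
  have hq'q : q' ≤ q := Cond.inter_le _ _ _
  obtain ⟨r, hr, β, hβ, β', hβ', he, h1, h2⟩ := hqα.2 μ hμ q' hq'q
  have hgt : ∀ ρ ∈ r.stem, μ < ρ → α < ρ := by
    intro ρ hρ hμρ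
    by_contra hle
    push Not at hle
    have hn : q'.Next ρ l := by
      refine ⟨hl.1, hle.trans hαl.le, ?_⟩
      intro τ hτ hρτ
      have hτ' : τ = κ ∨ τ ∈ q.stem := hτ
      refine hl.2.2 τ hτ' ?_
      by_contra hτα
      push Not at hτα
      rcases hτ' with rfl | hτ'
      · exact absurd (hτα.trans hακ) (lt_irrefl _)
      · exact absurd (hμρ.trans_le hρτ) (not_lt.2 (hμq τ hτ' hτα))
    rcases (hr.2 ρ (Or.inr hρ) l hn).1 with h | h
    · exact absurd (h ▸ hle) (not_le.2 hαl)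
    · exact absurd (h.2 rfl) (not_lt.2 hle)
  have hr' : ∀ ρ ∈ r.stem, μ < ρ → ρ ∈ B ∧ nxt B α ≤ ρ := by
    intro ρ hρ hμρ
    have h3 : ρ ∈ B := hq r (hr.trans hq'q) ρ hρ (hμα.trans_lt hμρ)
    exact ⟨h3, nxt_le h3 (hgt ρ hρ hμρ)⟩
  obtain ⟨t, ht, hst, hs⟩ := low_of_mem (Φ := fun β _ => A β) (β := β) (γ := β') hκ hB.typ (hA β)
    (r := r) (μ := μ)
    (fun ρ hρ h => ⟨(hr' ρ hρ h).1, hβ.trans_le (hr' ρ hρ h).2, hβ'.trans_le (hr' ρ hρ h).2⟩) h1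
  have hs' : StarF t (A β') := by
    refine (he t ?_).1 hs
    intro σ hσ
    obtain ⟨τ, _, h3, h4⟩ := hst σ hσ
    exact h4.trans h3
  obtain ⟨r', h3, h4, -⟩ := mem_of_low (Φ := fun β _ => A β) (β := β') (γ := β) hB.typ (hA β')
    (fun ρ hρ h => ⟨(hr' ρ hρ h).1, hβ'.trans_le (hr' ρ hρ h).2, hβ.trans_le (hr' ρ hρ h).2⟩)
    ht hst hs'
  exact h2 r' h3 h4

section Generated

variable {P : Type v} [Preorder P] {ι : Type*} {A : ι → Set P}

theorem generated_atom (i : ι) : A i ∈ generated A := fun _ _ h => h i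

theorem generated_fnot {φ : Set P} (h : φ ∈ generated A) : fnot φ ∈ generated A :=
  fun 𝒢 h1 h2 => h1.1 _ (h 𝒢 h1 h2)

theorem generated_sInter {S : Set (Set P)} (h : ∀ φ ∈ S, φ ∈ generated A) :
    ⋂₀ S ∈ generated A :=
  fun 𝒢 h1 h2 => h1.2 _ (fun φ hφ => h φ hφ 𝒢 h1 h2)

theorem generated_iInter {J : Type*} {φ : J → Set P} (h : ∀ j, φ j ∈ generated A) :
    (⋂ j, φ j) ∈ generated A := by
  rw [← sInter_range]
  exact generated_sInter (by rintro _ ⟨j, rfl⟩; exact h j)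

theorem generated_inter {φ ψ : Set P} (h1 : φ ∈ generated A) (h2 : ψ ∈ generated A) :
    φ ∩ ψ ∈ generated A := by
  rw [← sInter_pair]
  refine generated_sInter ?_
  rintro _ (rfl | rfl)
  · exact h1
  · exact h2

theorem generated_univ : (univ : Set P) ∈ generated A := by
  rw [← sInter_empty]
  exact generated_sInter (by simp)

theorem generated_empty : (∅ : Set P) ∈ generated A := by
  have : (∅ : Set P) = fnot univ := by
    ext p
    simp only [mem_empty_iff_false, false_iff]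
    intro h
    exact h p le_rfl (mem_univ _)
  rw [this]
  exact generated_fnot generated_univ

/-- The disjunction of sentences. -/
theorem generated_ex {J : Type*} {φ : J → Set P} (h : ∀ j, φ j ∈ generated A) :
    {p | ∀ q ≤ p, ∃ r ≤ q, ∃ j, r ∈ φ j} ∈ generated A := by
  have : {p | ∀ q ≤ p, ∃ r ≤ q, ∃ j, r ∈ φ j} = fnot (⋂ j, fnot (φ j)) := by
    ext p
    simp only [fnot, mem_iInter, mem_ofPred_eq, not_forall, not_not]
    constructor
    · intro h q hq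
      obtain ⟨r, hr, j, hj⟩ := h q hq
      exact ⟨j, r, hr, hj⟩
    · intro h q hq
      obtain ⟨j, r, hr, hj⟩ := h q hq
      exact ⟨r, hr, j, hj⟩
  rw [this]
  exact generated_fnot (generated_iInter (fun j => generated_fnot (h j)))

theorem generated_ground {φ : Set P} (h : φ ∈ generated A) (c : Prop) :
    {p | c ∧ p ∈ φ} ∈ generated A := by
  by_cases hc : c
  · simpa [hc] using h
  · simpa [hc] using generated_empty

theorem generated_mono {ι' : Type*} {A' : ι' → Set P} (h : ∀ j, A' j ∈ generated A) :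
    generated A' ⊆ generated A :=
  fun _ hφ 𝒢 h1 h2 => hφ 𝒢 h1 (fun j => h j 𝒢 h1 h2)

end Generated

theorem Dsent_generated (A : Ordinal.{u} → Set (Cond M)) {B : Set Ordinal.{u}}
    (hB : Good A B) (hκ : 0 < M.o κ) (ν₀ α : Ordinal.{u}) :
    Dsent A B ν₀ α ∈ generated (fun β : Iio κ => A β) := by
  by_cases hα : α ∈ B
  · have hακ : α < κ := hB.sub hα
    have hn := nxt_mem hκ hB.mem hακ
    have : Dsent A B ν₀ α = ⋂ μ : {μ // μ = ν₀ ∨ (μ ∈ B ∧ μ < α)},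
        {p | ∀ q ≤ p, ∃ r ≤ q, ∃ x : {x : Ordinal.{u} × Ordinal.{u} //
          x.1 < nxt B α ∧ x.2 < nxt B α ∧ Eqv A μ x.1 x.2}, r ∈ A x.1.1 ∩ fnot (A x.1.2)} := by
      ext p
      simp only [Dsent, mem_ofPred_eq, mem_iInter, Subtype.forall, Subtype.exists, Prod.exists,
        mem_inter_iff]
      constructor
      · rintro ⟨_, h⟩ μ hμ q hq
        obtain ⟨r, hr, β, h1, β', h2, h3, h4, h5⟩ := h μ hμ q hq
        exact ⟨r, hr, β, β', ⟨h1, h2, h3⟩, h4, h5⟩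
      · intro h
        refine ⟨hα, ?_⟩
        intro μ hμ q hq
        obtain ⟨r, hr, β, β', ⟨h1, h2, h3⟩, h4, h5⟩ := h μ hμ q hq
        exact ⟨r, hr, β, h1, β', h2, h3, h4, h5⟩
    rw [this]
    refine generated_iInter (fun μ => generated_ex (fun x => ?_))
    have hκ' : nxt B α < κ := hB.sub hn.1
    exact generated_inter
      (generated_atom (A := fun β : Iio κ => A β) ⟨x.1.1, x.2.1.trans hκ'⟩)
      (generated_fnot (generated_atom (A := fun β : Iio κ => A β)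
        ⟨x.1.2, x.2.2.1.trans hκ'⟩))
  · have : Dsent A B ν₀ α = ∅ := by
      ext p
      simp [Dsent, hα]
    rw [this]
    exact generated_empty

/-- If `t` decides that `σ` may be added. -/
def Allowed (t : Cond M) (σ : Ordinal.{u}) : Prop :=
  ∃ l, t.Next σ l ∧ σ ∈ t.set l ∧ t.set l ∈ M.F σ

/-- The sentence: the part of the generic sequence up to `ν₁` is compatible with `t`. -/
def chi (ν₁ : Ordinal.{u}) (t : Cond M) : Set (Cond M) :=
  {p | (∀ σ ∈ t.stem, p ∈ club M σ) ∧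
    ∀ σ ≤ ν₁, σ ∉ t.stem → ¬ Allowed t σ → p ∈ fnot (club M σ)}

theorem chi_generated {ν₁ : Ordinal.{u}} {t : Cond M} (ht : ∀ σ ∈ t.stem, σ ≤ ν₁) :
    chi ν₁ t ∈ generated (fun μ : Iic ν₁ => club M μ) := by
  have : chi ν₁ t = (⋂ σ : {σ // σ ∈ t.stem}, club M σ) ∩
      ⋂ σ : {σ // σ ≤ ν₁ ∧ σ ∉ t.stem ∧ ¬ Allowed t σ}, fnot (club M σ) := by
    ext p
    simp only [chi, mem_ofPred_eq, mem_inter_iff, mem_iInter, Subtype.forall, and_imp]
  rw [this]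
  refine generated_inter (generated_iInter (fun σ => ?_)) (generated_iInter (fun σ => ?_))
  · exact generated_atom (A := fun μ : Iic ν₁ => club M μ) ⟨σ.1, ht σ.1 σ.2⟩
  · exact generated_fnot (generated_atom (A := fun μ : Iic ν₁ => club M μ) ⟨σ.1, σ.2.1⟩)

/-- Small elements of the set named by `A` are computed by the generic sequence up to `ν₁`. -/
theorem computed_low (hκ : 0 < M.o κ) {Φ : Ordinal.{u} → Ordinal.{u} → Set (Cond M)}
    {B : Set Ordinal.{u}} (hT : Typical B Φ) {q : Cond M} {ν₁ β γ : Ordinal.{u}}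
    (hΦ : IsSentence (Φ β γ)) (hν₁ : ν₁ ∈ q.stem)
    (hr : ∀ r ≤ q, ∀ ρ ∈ r.stem, ν₁ < ρ → ρ ∈ B ∧ β < ρ ∧ γ < ρ) :
    ∃ φ ∈ generated (fun μ : Iic ν₁ => club M μ), ForcesIff q (Φ β γ) φ := by
  classical
  refine ⟨{p | ∀ q ≤ p, ∃ r ≤ q, ∃ t : {t : Cond M // (∀ σ ∈ t.stem, σ ≤ ν₁) ∧
      ν₁ ∈ t.stem ∧ StarF t (Φ β γ)}, r ∈ chi ν₁ t.1},
    generated_ex (fun t => chi_generated t.2.1), ?_⟩
  intro p hpq
  constructor
  · intro hp p' hp'
    obtain ⟨t, ht, hst, hs⟩ := low_of_mem hκ hT hΦ (r := p') (μ := ν₁)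
      (hr p' (hp'.trans hpq)) (hΦ.down hp hp')
    have htle : ∀ σ ∈ t.stem, σ ≤ ν₁ := by
      intro σ hσ
      obtain ⟨τ, _, h3, h4⟩ := hst σ hσ
      exact h4.trans h3
    have hνt : ν₁ ∈ t.stem := by
      refine ht.1 ?_
      rw [Cond.base_stem, Cond.mem_restr_stem]
      exact ⟨(hp'.trans hpq).1 hν₁, le_refl ν₁⟩
    obtain ⟨r', h3, h4, h5, -⟩ := mem_of_low hT hΦ (hr p' (hp'.trans hpq)) ht hst hs
    refine ⟨r', h3, ⟨t, htle, hνt, hs⟩, ?_, ?_⟩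
    · intro σ hσ
      exact mem_club.2 (h5.1 hσ)
    · intro σ hσν hσt hall r'' hr'' hσr
      have hσr' := mem_club.1 hσr
      obtain ⟨l, hl⟩ := t.next_exists ((hσν.trans_lt (t.lt ν₁ hνt)).le)
      have hlν : l ≤ ν₁ := hl.2.2 ν₁ (Or.inr hνt) hσν
      have hlκ : l ≠ κ := (hlν.trans_lt (t.lt ν₁ hνt)).ne
      have h6 := (hr''.trans h5).2 σ (Or.inr hσr') l hl
      rw [Cond.withTop_set_ne _ _ hlκ] at h6
      refine hall ⟨l, hl, ?_, ?_⟩
      · rcases h6.1 with h7 | h7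
        · exact absurd (h7 ▸ hl.1.resolve_left hlκ) hσt
        · exact h7
      · exact Filter.mem_of_superset (r''.meas σ (Or.inr hσr')) h6.2
  · intro hp
    rw [hΦ]
    intro p' hp'
    obtain ⟨r, hrp', ⟨t, htle, hνt, hs⟩, hr1, hr2⟩ := hp p' hp'
    have hrq : r ≤ q := hrp'.trans (hp'.trans hpq)
    have htr : t.stem ⊆ r.stem := fun σ hσ => mem_club.1 (hr1 σ hσ)
    have hνκ : ν₁ < κ := t.lt ν₁ hνt
    have htyp : ∀ ρ ∈ r.stem, ν₁ < ρ →
        ρ ∈ (wit (Φ β γ) t).1 ∧ (wit (Φ β γ) t).1 ∈ M.F ρ := by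
      intro ρ hρ hνρ
      obtain ⟨h1, h2, h3⟩ := hr r hrq ρ hρ hνρ
      exact (hT ρ h1 t (fun σ hσ => (htle σ hσ).trans_lt hνρ) β h2 γ h3).1
    have hall : ∀ ρ ∈ r.stem, ρ ≤ ν₁ → ∀ l, t.Next ρ l →
        (ρ = l ∨ ρ ∈ t.set l) ∧ t.set l ∈ M.F ρ := by
      intro ρ hρ hρν l hl
      by_cases hρt : ρ ∈ t.stem
      · have := (t.next_self (Or.inr hρt)).unique hl
        subst this
        exact ⟨Or.inl rfl, t.meas ρ (Or.inr hρt)⟩
      · by_contra hn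
        have hna : ¬ Allowed t ρ := by
          rintro ⟨l', hl', h1, h2⟩
          have := hl'.unique hl
          subst this
          exact hn ⟨Or.inr h1, h2⟩
        exact hr2 ρ hρν hρt hna r le_rfl (mem_club.2 hρ)
    set W := wit (Φ β γ) t with hW
    set Bf : Ordinal.{u} → Set Ordinal.{u} := fun ρ =>
      {x | (∀ l, ρ ≤ ν₁ → t.Next ρ l → x ∈ t.set l) ∧ (ν₁ < ρ → x ∈ W.1)} with hBf
    have hBfF : ∀ ρ, (ρ = κ ∨ ρ ∈ r.stem) → Bf ρ ∈ M.F ρ := by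
      intro ρ hρ
      by_cases hρν : ρ ≤ ν₁
      · have hρr : ρ ∈ r.stem := by
          rcases hρ with rfl | h
          · exact absurd hρν (not_le.2 hνκ)
          · exact h
        obtain ⟨l, hl⟩ := t.next_exists (hρν.trans hνκ.le)
        refine Filter.mem_of_superset (hall ρ hρr hρν l hl).2 (fun x hx => ⟨?_, ?_⟩)
        · intro l' _ hl'
          rw [← hl.unique hl']
          exact hx
        · exact fun h => absurd h (not_lt.2 hρν)
      · have h1 : W.1 ∈ M.F ρ := by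
          rcases hρ with rfl | h
          · exact W.2.2
          · exact (htyp ρ h (not_le.1 hρν)).2
        exact Filter.mem_of_superset h1 (fun x hx => ⟨fun _ h => absurd h hρν, fun _ => hx⟩)
    refine ⟨r.inter Bf hBfF, (Cond.inter_le _ _ _).trans hrp', ?_⟩
    refine hΦ.down (wit_spec hs) ⟨htr, ?_⟩
    intro ρ hρ l hl
    have hρ' : ρ = κ ∨ ρ ∈ r.stem := hρ
    have hl' : t.Next ρ l := hl
    by_cases hρν : ρ ≤ ν₁
    · have hρr : ρ ∈ r.stem := by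
        rcases hρ' with rfl | h
        · exact absurd hρν (not_le.2 hνκ)
        · exact h
      have hlκ : l ≠ κ := ((hl'.2.2 ν₁ (Or.inr hνt) hρν).trans_lt hνκ).ne
      rw [Cond.withTop_set_ne _ _ hlκ]
      exact ⟨(hall ρ hρr hρν l hl').1, fun x hx => hx.2.1 l hρν hl'⟩
    · have hlκ : l = κ := by
        rcases hl'.1 with h | h
        · exact h
        · exact absurd (hl'.2.1.trans (htle l h)) hρν
      subst hlκ
      rw [Cond.withTop_set_top]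
      refine ⟨?_, fun x hx => hx.2.2 (not_le.1 hρν)⟩
      rcases hρ' with h | h
      · exact Or.inl h
      · exact Or.inr (htyp ρ h (not_le.1 hρν)).1

/-- If no unbounded part of the generic sequence is computed, then the set named by `A` is
computed by a bounded part of the generic sequence. -/
theorem bounded_of_not_unbounded (hκ : 0 < M.o κ) {A : Ordinal.{u} → Set (Cond M)}
    (hA : ∀ β, IsSentence (A β)) {B : Set Ordinal.{u}} (hB : Good A B) {ν₀ : Ordinal.{u}}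
    (hν₀ : B ⊆ Ioi ν₀) {q : Cond M} (hq : Her B ν₀ q) {γ : Ordinal.{u}} (hγ : γ < κ)
    (hno : ∀ r ≤ q, ∀ α, γ ≤ α → α < κ → r ∉ Dsent A B ν₀ α) :
    ∃ r ≤ q, ∃ ν < κ, ν ∈ r.stem ∧ (∀ σ ∈ r.stem, σ ≤ ν) ∧
      Computes r (fun μ : Iic ν => club M μ) (fun β : Iio κ => A β) := by
  classical
  have hν₀κ : ν₀ < κ := by
    obtain ⟨ρ, h1, h2, h3⟩ := F_unbounded hκ hB.mem hγ
    exact (show ν₀ < ρ from hν₀ h1).trans h3
  set γ' := max γ (Order.succ ν₀) with hγ'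
  have hγ'κ : γ' < κ := max_lt hγ ((M.normal κ le_rfl 0 hκ).succ_lt hν₀κ)
  -- invariance below `r`
  set Inv : Cond M → Ordinal.{u} → Ordinal.{u} → Prop := fun r μ b =>
    ∀ β < b, ∀ β' < b, Eqv A μ β β' → ∀ r' ≤ r, r' ∈ A β → r' ∈ A β' with hInv
  have hInv_mono : ∀ r r' μ b, r' ≤ r → Inv r μ b → Inv r' μ b := by
    intro r r' μ b h h1 β hβ β' hβ' he r'' hr''
    exact h1 β hβ β' hβ' he r'' (hr''.trans h)
  -- each point of `B` above `γ'` is not in `D`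
  have hstep : ∀ α ∈ B, γ' ≤ α → ∀ r ≤ q, ∃ r' ≤ r, ∃ μ, (μ = ν₀ ∨ (μ ∈ B ∧ μ < α)) ∧
      Inv r' μ (nxt B α) := by
    intro α hα hγα r hr
    have h1 := hno r hr α ((le_max_left _ _).trans hγα) (hB.sub hα)
    have h2 : ¬ ∀ μ, (μ = ν₀ ∨ (μ ∈ B ∧ μ < α)) → ∀ q ≤ r, ∃ r ≤ q,
        ∃ β < nxt B α, ∃ β' < nxt B α, Eqv A μ β β' ∧ r ∈ A β ∧ r ∈ fnot (A β') :=
      fun h => h1 ⟨hα, h⟩
    push Not at h2
    obtain ⟨μ, hμ, r', hr', h3⟩ := h2
    refine ⟨r', hr', μ, hμ, ?_⟩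
    intro β hβ β' hβ' he r'' hr'' hmem
    by_contra hmem'
    obtain ⟨r₃, h4, h5⟩ := (hA β').dense hmem'
    exact h3 r₃ (h4.trans hr'') β hβ β' hβ' he ((hA β).down hmem h4) h5
  have hcls : ∀ μ < κ, ∀ β < κ, ∃ β' < nxt B μ, Eqv A μ β β' := by
    intro μ hμ β hβ
    have h := nxt_mem hκ hB.mem hμ
    exact hB.cls _ h.1 μ h.2 β hβ
  have hnxtκ : ∀ μ < κ, nxt B μ < κ := fun μ hμ => hB.sub (nxt_mem hκ hB.mem hμ).1
  have hne : ∀ μ < κ, (B ∩ Ioi μ).Nonempty := by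
    intro μ hμ
    obtain ⟨ρ, h1, h2, _⟩ := F_unbounded hκ hB.mem hμ
    exact ⟨ρ, h1, h2⟩
  -- going down below `γ'`
  have hind : ∀ α, α ∈ B → γ' ≤ α → ∀ r ≤ q, ∃ r' ≤ r, ∃ μ < γ', Inv r' μ (nxt B α) := by
    intro α
    induction α using WellFoundedLT.induction with
    | ind α ih =>
      intro hα hγα r hr
      obtain ⟨r', hr', μ, hμ, hi⟩ := hstep α hα hγα r hr
      by_cases hμγ : μ < γ'
      · exact ⟨r', hr', μ, hμγ, hi⟩
      · have hμ' : μ ∈ B ∧ μ < α := by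
          rcases hμ with rfl | h
          · exact absurd (lt_max_of_lt_right (Order.lt_succ _)) hμγ
          · exact h
        obtain ⟨r'', hr'', μ'', hμ'', hi''⟩ := ih μ hμ'.2 hμ'.1 (not_lt.1 hμγ) r' (hr'.trans hr)
        refine ⟨r'', hr''.trans hr', μ'', hμ'', ?_⟩
        intro β hβ β' hβ' he r₃ hr₃ hmem
        have hμκ : μ < κ := hB.sub hμ'.1
        have hακ : α < κ := hB.sub hα
        have hnn : nxt B μ ≤ nxt B α := nxt_mono (hne α hακ) hμ'.2.le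
        obtain ⟨β₁, h1, h2⟩ := hcls μ hμκ β (hβ.trans (hnxtκ α hακ))
        obtain ⟨β₁', h1', h2'⟩ := hcls μ hμκ β' (hβ'.trans (hnxtκ α hακ))
        have hle : μ'' ≤ μ := (hμ''.trans_le (not_lt.1 hμγ)).le
        have h3 := hi β hβ β₁ (h1.trans_le hnn) h2 r₃ (hr₃.trans hr'') hmem
        have h4 := hi'' β₁ h1 β₁' h1' (((h2.mono hle).symm.trans he).trans (h2'.mono hle))
          r₃ hr₃ h3
        exact hi β₁' (h1'.trans_le hnn) β' hβ' h2'.symm r₃ (hr₃.trans hr'') h4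
  obtain ⟨α₀, hα₀B, hα₀, hα₀κ⟩ := F_unbounded hκ hB.mem hγ'κ
  obtain ⟨r₀, hr₀, μ₀, hμ₀, hi₀⟩ := hind α₀ hα₀B hα₀.le q le_rfl
  have hμ₀κ : μ₀ < κ := hμ₀.trans hγ'κ
  have huni : ∀ α ∈ B, γ' ≤ α → Inv r₀ μ₀ (nxt B α) := by
    intro α hα hγα β hβ β' hβ' he r hr hmem
    have hακ : α < κ := hB.sub hα
    rw [hA]
    intro r' hr'
    obtain ⟨r'', hr'', μ₁, hμ₁, hi₁⟩ := hind α hα hγα r' ((hr'.trans hr).trans hr₀)
    refine ⟨r'', hr'', ?_⟩
    set m := max μ₀ μ₁ with hm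
    have hmγ : m < γ' := max_lt hμ₀ hμ₁
    have hmκ : m < κ := hmγ.trans hγ'κ
    obtain ⟨β₁, h1, h2⟩ := hcls m hmκ β (hβ.trans (hnxtκ α hακ))
    obtain ⟨β₁', h1', h2'⟩ := hcls m hmκ β' (hβ'.trans (hnxtκ α hακ))
    have hn1 : nxt B m ≤ nxt B α := nxt_mono (hne α hακ) (hmγ.le.trans hγα)
    have hn2 : nxt B m ≤ nxt B α₀ := nxt_mono (hne α₀ hα₀κ) (hmγ.le.trans hα₀.le)
    have hr''r₀ : r'' ≤ r₀ := hr''.trans (hr'.trans hr)
    have h3 : r'' ∈ A β₁ := hi₁ β hβ β₁ (h1.trans_le hn1) (h2.mono (le_max_right _ _)) r'' le_rfl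
      ((hA β).down hmem (hr''.trans hr'))
    have h4 : r'' ∈ A β₁' := hi₀ β₁ (h1.trans_le hn2) β₁' (h1'.trans_le hn2)
      (((h2.mono (le_max_left _ _)).symm.trans he).trans (h2'.mono (le_max_left _ _)))
      r'' hr''r₀ h3
    exact hi₁ β₁' (h1'.trans_le hn1) β' hβ' (h2'.mono (le_max_right _ _)).symm r'' le_rfl h4
  have hfin : ∀ β < κ, ∀ β' < κ, Eqv A μ₀ β β' → ∀ r ≤ r₀, r ∈ A β → r ∈ A β' := by
    intro β hβ β' hβ' he r hr hmem
    obtain ⟨α, hα, hα', hακ⟩ := F_unbounded hκ hB.mem (max_lt (max_lt hβ hβ') hγ'κ)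
    have h1 := (nxt_mem hκ hB.mem hακ).2
    refine huni α hα ((le_max_right _ _).trans hα'.le) β ?_ β' ?_ he r hr hmem
    · exact (((le_max_left _ _).trans (le_max_left _ _)).trans_lt hα').trans h1
    · exact (((le_max_right _ _).trans (le_max_left _ _)).trans_lt hα').trans h1
  obtain ⟨ν₁, -, hν₁μ, hν₁κ, hν₁s, r₁, hr₁, hst₁⟩ := one_point r₀ (Or.inl rfl) hκ
    Filter.univ_mem (max_lt hμ₀κ hν₀κ)
  have hν₁st : ν₁ ∈ r₁.stem := by
    rw [hst₁]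
    exact Finset.mem_insert_self _ _
  have hν₁max : ∀ σ ∈ r₁.stem, σ ≤ ν₁ := by
    intro σ hσ
    rw [hst₁] at hσ
    rcases Finset.mem_insert.1 hσ with h | h
    · exact h.le
    · exact (hν₁s σ h (r₀.lt σ h)).le
  refine ⟨r₁, hr₁.trans hr₀, ν₁, hν₁κ, hν₁st, hν₁max, ?_⟩
  rintro ⟨β, hβ⟩
  obtain ⟨β₁, h1, h2⟩ := hcls μ₀ hμ₀κ β hβ
  have h1κ : β₁ < κ := h1.trans (hnxtκ μ₀ hμ₀κ)
  obtain ⟨φ, hφ, hφ'⟩ := computed_low (Φ := fun β _ => A β) (β := β₁) (γ := β₁) hκ hB.typ (hA β₁)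
    hν₁st (by
      intro r hr ρ hρ hνρ
      have h3 : ρ ∈ B := hq r (hr.trans (hr₁.trans hr₀)) ρ hρ
        (((le_max_right _ _).trans_lt hν₁μ).trans hνρ)
      have h4 : β₁ < ρ := h1.trans_le (nxt_le h3 (((le_max_left _ _).trans_lt hν₁μ).trans hνρ))
      exact ⟨h3, h4, h4⟩)
  refine ⟨φ, hφ, ?_⟩
  intro r hr
  rw [← hφ' r hr]
  exact ⟨hfin β hβ β₁ h1κ h2 r (hr.trans hr₁), hfin β₁ h1κ β hβ h2.symm r (hr.trans hr₁)⟩

end Run7.h429.MR
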