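import Pool.Agent.Run7.h429.MR.ClaimR

/-!
# The dichotomy for names of arbitrary sets of ordinals
-/

namespace Run7.h429.MR

open Set Cardinal

universe u v w

variable {κ : Ordinal.{u}} {M : CoherentSeq κ}

/-- The part of a condition up to `ν`. -/
noncomputable def Cond.low (r : Cond M) (ν : Ordinal.{u}) : Cond M := (r.restr (Iic ν)).base

theorem Cond.mem_low_stem {r : Cond M} {ν σ : Ordinal.{u}} :
    σ ∈ (r.low ν).stem ↔ σ ∈ r.stem ∧ σ ≤ ν := Cond.mem_restr_stem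

theorem Cond.low_set {r : Cond M} {ν σ : Ordinal.{u}} (h : σ ≤ ν) (hσ : σ ≠ κ) :
    (r.low ν).set σ = r.set σ := by
  rw [Cond.low, Cond.base, Cond.withTop_set_ne _ _ hσ, Cond.restr_set]
  exact h

theorem Cond.low_set_top (r : Cond M) (ν : Ordinal.{u}) : (r.low ν).set κ = Iio κ := by
  rw [Cond.low, Cond.base, Cond.withTop_set_top]

theorem Cond.low_eq {x y : Cond M} {ν : Ordinal.{u}} (h1 : ∀ σ ≤ ν, σ ∈ x.stem ↔ σ ∈ y.stem)
    (h2 : ∀ σ ≤ ν, σ ≠ κ → x.set σ = y.set σ) : x.low ν = y.low ν := by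
  refine Cond.eq_of ?_ ?_
  · ext σ
    rw [Cond.mem_low_stem, Cond.mem_low_stem]
    exact ⟨fun h => ⟨(h1 σ h.2).1 h.1, h.2⟩, fun h => ⟨(h1 σ h.2).2 h.1, h.2⟩⟩
  · intro σ hσ
    by_cases h : σ = κ
    · subst h
      rw [Cond.low_set_top, Cond.low_set_top]
    · have hσ' : σ ≤ ν := by
        rcases hσ with h' | h'
        · exact absurd h' h
        · exact (Cond.mem_low_stem.1 h').2
      rw [Cond.low_set hσ' h, Cond.low_set hσ' h]
      exact h2 σ hσ' h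

theorem Cond.low_low (r : Cond M) (ν : Ordinal.{u}) : (r.low ν).low ν = r.low ν :=
  Cond.low_eq (fun σ hσ => by rw [Cond.mem_low_stem]; exact ⟨fun h => h.1, fun h => ⟨h, hσ⟩⟩)
    (fun _ hσ h => Cond.low_set hσ h)

theorem Cond.low_le_low {q r : Cond M} (h : q ≤ r) {ν : Ordinal.{u}} (hν : ν ∈ r.stem) :
    q.low ν ≤ r.low ν := by
  refine ⟨?_, ?_⟩
  · intro σ hσ
    rw [Cond.mem_low_stem] at hσ ⊢
    exact ⟨h.1 hσ.1, hσ.2⟩
  · intro ρ hρ l hl
    by_cases h1 : ρ = κ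
    · subst h1
      have : l = ρ := le_antisymm (Cond.dom_le _ hl.1) hl.2.1
      subst this
      refine ⟨Or.inl rfl, ?_⟩
      rw [Cond.low_set_top, Cond.low_set_top]
    · have hρ' := Cond.mem_low_stem.1 (hρ.resolve_left h1)
      have hlν : l ≤ ν := hl.2.2 ν (Or.inr (Cond.mem_low_stem.2 ⟨hν, le_rfl⟩)) hρ'.2
      have hlκ : l ≠ κ := (hlν.trans_lt (r.lt ν hν)).ne
      have hn : r.Next ρ l := by
        refine ⟨Or.inr (Cond.mem_low_stem.1 (hl.1.resolve_left hlκ)).1, hl.2.1, ?_⟩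
        intro τ hτ hρτ
        by_cases hτν : τ ≤ ν
        · refine hl.2.2 τ (Or.inr (Cond.mem_low_stem.2 ⟨?_, hτν⟩)) hρτ
          rcases hτ with rfl | hτ
          · exact absurd (r.lt ν hν) (not_lt.2 hτν)
          · exact hτ
        · exact hlν.trans (not_le.1 hτν).le
      rw [Cond.low_set hρ'.2 h1, Cond.low_set hlν hlκ]
      exact h.2 ρ (Or.inr hρ'.1) l hn

theorem combine {r t : Cond M} {ν : Ordinal.{u}} (hν : ν ∈ r.stem) (ht : t ≤ r.low ν)
    (htν : ∀ σ ∈ t.stem, σ ≤ ν) : ∃ r' ≤ r, r'.low ν = t.base ∧ ν ∈ r'.stem := by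
  have h1 : t.base ≤ (r.restr (Iic ν)).base := by
    have := Cond.base_le_base ht
    rwa [Cond.low, Cond.base_base] at this
  obtain ⟨r', h2, -, -, -, h3⟩ := compat_low_aux h1 (fun ρ hρ => ⟨ν, hν, le_rfl, htν ρ hρ⟩)
    ⟨Iio κ, Subset.rfl, CoherentSeq.Iio_mem_F le_rfl⟩ (by
      intro ρ hρ _
      refine ⟨r.lt ρ hρ, ?_⟩
      exact Filter.mem_of_superset (CoherentSeq.Iio_mem_F (r.lt ρ hρ).le)
        (fun x hx => (show x < ρ from hx).trans (r.lt ρ hρ)))
  exact ⟨r', h2, h3, h2.1 hν⟩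

/-- Membership in a sentence about the generic sequence up to `ν` only depends on the part of
the condition up to `ν`. -/
theorem low_dep (ν : Ordinal.{u}) {ψ : Set (Cond M)}
    (hψ : ψ ∈ generated (fun μ : Iic ν => club M μ)) :
    ∀ r : Cond M, ν ∈ r.stem → (r ∈ ψ ↔ r.low ν ∈ ψ) := by
  refine hψ {ψ | ∀ r : Cond M, ν ∈ r.stem → (r ∈ ψ ↔ r.low ν ∈ ψ)} ⟨?_, ?_⟩ ?_
  · intro φ hφ r hr
    constructor
    · intro h t ht htφ
      have hνt : ν ∈ t.stem := ht.1 (Cond.mem_low_stem.2 ⟨hr, le_rfl⟩)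
      have h1 : t.low ν ∈ φ := (hφ t hνt).1 htφ
      have h2 : t.low ν ≤ r.low ν := by
        have := Cond.low_le_low ht (Cond.mem_low_stem.2 ⟨hr, le_rfl⟩)
        rwa [Cond.low_low] at this
      obtain ⟨r', h3, h4, h5⟩ := combine hr h2 (fun σ hσ => (Cond.mem_low_stem.1 hσ).2)
      have h6 : (t.low ν).base = t.low ν := Cond.base_base _
      rw [h6] at h4
      refine h r' h3 ((hφ r' h5).2 ?_)
      rw [h4]
      exact h1
    · intro h q hq hqφ
      exact h _ (Cond.low_le_low hq hr) ((hφ q (hq.1 hr)).1 hqφ)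
  · intro S hS r hr
    simp only [mem_sInter]
    exact ⟨fun h φ hφ => (hS hφ r hr).1 (h φ hφ), fun h φ hφ => (hS hφ r hr).2 (h φ hφ)⟩
  · rintro ⟨σ, hσ⟩ r hr
    rw [mem_club, mem_club, Cond.mem_low_stem]
    exact ⟨fun h => ⟨h, hσ⟩, fun h => h.1⟩

/-- The canonical approximation of a sentence by the generic sequence up to `ν`. -/
def phi (χ : Set (Cond M)) (ν : Ordinal.{u}) : Set (Cond M) :=
  {p | ∀ q ≤ p, ∃ r ≤ q, ∃ t : {t : Cond M // (∀ σ ∈ t.stem, σ ≤ ν) ∧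
      ν ∈ t.stem ∧ StarF t χ}, r ∈ chi ν t.1}

theorem phi_generated (χ : Set (Cond M)) (ν : Ordinal.{u}) :
    phi χ ν ∈ generated (fun μ : Iic ν => club M μ) :=
  generated_ex (fun t => chi_generated t.2.1)

theorem phi_isSentence (χ : Set (Cond M)) (ν : Ordinal.{u}) : IsSentence (phi χ ν) := by
  intro p
  constructor
  · intro hp q hq
    exact ⟨q, le_rfl, fun q' hq' => hp q' (hq'.trans hq)⟩
  · intro h q hq
    obtain ⟨r, hr, hr'⟩ := h q hq
    obtain ⟨r', h1, h2⟩ := hr' r le_rfl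
    exact ⟨r', h1.trans hr, h2⟩

theorem mem_chi_restr {q : Cond M} {ν : Ordinal.{u}} (hν : ν ∈ q.stem) :
    q ∈ chi ν (q.restr (Iic ν)) := by
  refine ⟨fun σ hσ => mem_club.2 (Cond.mem_restr_stem.1 hσ).1, ?_⟩
  intro σ hσν hσt hall q'' hq'' hσq
  have hσq' := mem_club.1 hσq
  have hνt : ν ∈ (q.restr (Iic ν)).stem := Cond.mem_restr_stem.2 ⟨hν, le_refl ν⟩
  obtain ⟨l, hl⟩ := (q.restr (Iic ν)).next_exists (hσν.trans_lt (q.lt ν hν)).le
  have hlν : l ≤ ν := hl.2.2 ν (Or.inr hνt) hσν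
  have hlκ : l ≠ κ := (hlν.trans_lt (q.lt ν hν)).ne
  have hn : q.Next σ l := by
    refine ⟨Or.inr (Cond.mem_restr_stem.1 (hl.1.resolve_left hlκ)).1, hl.2.1, ?_⟩
    intro τ hτ hστ
    by_cases hτν : τ ≤ ν
    · refine hl.2.2 τ (Or.inr (Cond.mem_restr_stem.2 ⟨?_, hτν⟩)) hστ
      rcases hτ with rfl | hτ
      · exact absurd (q.lt ν hν) (not_lt.2 hτν)
      · exact hτ
    · exact hlν.trans (not_le.1 hτν).le
  have h6 := hq''.2 σ (Or.inr hσq') l hn
  have h7 : (q.restr (Iic ν)).set l = q.set l := Cond.restr_set _ hlν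
  refine hall ⟨l, hl, ?_, ?_⟩
  · rw [h7]
    rcases h6.1 with h8 | h8
    · exact absurd (h8 ▸ hl.1.resolve_left hlκ) hσt
    · exact h8
  · rw [h7]
    exact Filter.mem_of_superset (q''.meas σ (Or.inr hσq')) h6.2

/-- If a sentence is computed by the generic sequence up to `ν`, then it is equivalent to its
canonical approximation. -/
theorem computed_eq {χ ψ : Set (Cond M)} (hχ : IsSentence χ) {r : Cond M} {ν : Ordinal.{u}}
    (hν : ν ∈ r.stem) (hmax : ∀ σ ∈ r.stem, σ ≤ ν)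
    (hψ : ψ ∈ generated (fun μ : Iic ν => club M μ)) (h : ForcesIff r χ ψ) :
    ForcesIff r χ (phi χ ν) := by
  have hνκ : ν < κ := r.lt ν hν
  intro r' hr'
  constructor
  · intro hr'χ q hq
    have hqr : q ≤ r := hq.trans hr'
    have hνq : ν ∈ q.stem := hqr.1 hν
    have h1 : q.low ν ∈ ψ := (low_dep ν hψ q hνq).1 ((h q hqr).1 (hχ.down hr'χ hq))
    have h2 : (q.restr (Iic ν)).withTop r.top ≤ r := Cond.restr_withTop_le hqr hmax
    have h3 : ν ∈ ((q.restr (Iic ν)).withTop r.top).stem :=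
      Cond.mem_restr_stem.2 ⟨hνq, le_refl ν⟩
    have h4 : ((q.restr (Iic ν)).withTop r.top).low ν = q.low ν := by
      refine Cond.low_eq ?_ ?_
      · intro σ hσ
        rw [Cond.withTop_stem, Cond.mem_restr_stem]
        exact ⟨fun h => h.1, fun h => ⟨h, hσ⟩⟩
      · intro σ hσ hσκ
        rw [Cond.withTop_set_ne _ _ hσκ, Cond.restr_set]
        exact hσ
    have h5 : (q.restr (Iic ν)).withTop r.top ∈ χ := by
      rw [h _ h2, low_dep ν hψ _ h3, h4]
      exact h1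
    refine ⟨q, le_rfl, ⟨q.restr (Iic ν), fun σ hσ => (Cond.mem_restr_stem.1 hσ).2,
      Cond.mem_restr_stem.2 ⟨hνq, le_refl ν⟩, _, h5⟩, mem_chi_restr hνq⟩
  · intro hr'φ
    rw [hχ]
    intro q hq
    obtain ⟨r₂, hr₂q, ⟨t, htle, hνt, W, hW⟩, hr1, hr2⟩ := hr'φ q hq
    have hr₂ : r₂ ≤ r := hr₂q.trans (hq.trans hr')
    have htr : t.stem ⊆ r₂.stem := fun σ hσ => mem_club.1 (hr1 σ hσ)
    have hall : ∀ ρ ∈ r₂.stem, ρ ≤ ν → ∀ l, t.Next ρ l →
        (ρ = l ∨ ρ ∈ t.set l) ∧ t.set l ∈ M.F ρ := by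
      intro ρ hρ hρν l hl
      by_cases hρt : ρ ∈ t.stem
      · have := (t.next_self (Or.inr hρt)).unique hl
        subst this
        exact ⟨Or.inl rfl, t.meas ρ (Or.inr hρt)⟩
      · by_contra hn
        have hna : ¬ Allowed t ρ := by
          rintro ⟨l', hl', h1, h2⟩
          have := hl'.unique hl
          subst this
          exact hn ⟨Or.inr h1, h2⟩
        exact hr2 ρ hρν hρt hna r₂ le_rfl (mem_club.2 hρ)
    set Bf : Ordinal.{u} → Set Ordinal.{u} := fun ρ =>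
      {x | ∀ l, ρ ≤ ν → t.Next ρ l → x ∈ t.set l} with hBf
    have hBfF : ∀ ρ, (ρ = κ ∨ ρ ∈ r₂.stem) → Bf ρ ∈ M.F ρ := by
      intro ρ hρ
      by_cases hρν : ρ ≤ ν
      · have hρr : ρ ∈ r₂.stem := by
          rcases hρ with rfl | h
          · exact absurd hρν (not_le.2 hνκ)
          · exact h
        obtain ⟨l, hl⟩ := t.next_exists (hρν.trans hνκ.le)
        refine Filter.mem_of_superset (hall ρ hρr hρν l hl).2 (fun x hx => ?_)
        intro l' _ hl'
        rw [← hl.unique hl']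
        exact hx
      · exact Filter.mem_of_superset Filter.univ_mem (fun x _ _ h' => absurd h' hρν)
    set r₃ : Cond M := r₂.inter Bf hBfF with hr₃
    have hr₃r₂ : r₃ ≤ r₂ := Cond.inter_le _ _ _
    have hr₃r : r₃ ≤ r := hr₃r₂.trans hr₂
    have hνr₃ : ν ∈ r₃.stem := hr₃r.1 hν
    set x : Cond M := (r₃.restr (Iic ν)).withTop (r.top.inter W) with hx
    have hxr : x ≤ r := (Cond.withTop_le inter_subset_left).trans
      (Cond.restr_withTop_le hr₃r hmax)
    have hxt : x ≤ t.withTop W := by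
      refine ⟨?_, ?_⟩
      · intro σ hσ
        exact Cond.mem_restr_stem.2 ⟨htr hσ, htle σ hσ⟩
      · intro ρ hρ l hl
        have hl' : t.Next ρ l := hl
        by_cases h1 : ρ = κ
        · subst h1
          have : l = ρ := le_antisymm (Cond.dom_le _ hl'.1) hl'.2.1
          subst this
          refine ⟨Or.inl rfl, ?_⟩
          rw [hx, Cond.withTop_set_top, Cond.withTop_set_top]
          exact inter_subset_right
        · have hρ' : ρ ∈ (r₃.restr (Iic ν)).stem := by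
            rcases hρ with h | h
            · exact absurd h h1
            · exact h
          obtain ⟨h2, h3⟩ := Cond.mem_restr_stem.1 hρ'
          have h3' : ρ ≤ ν := h3
          have hlκ : l ≠ κ := ((hl'.2.2 ν (Or.inr hνt) h3').trans_lt hνκ).ne
          rw [hx, Cond.withTop_set_ne _ _ h1, Cond.withTop_set_ne _ _ hlκ, Cond.restr_set _ h3]
          exact ⟨(hall ρ h2 h3' l hl').1, fun y hy => hy.2 l h3' hl'⟩
    have hxχ : x ∈ χ := hχ.down hW hxt
    have hνx : ν ∈ x.stem := hxr.1 hν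
    have hlow : x.low ν = r₃.low ν := by
      refine Cond.low_eq ?_ ?_
      · intro σ hσ
        rw [hx, Cond.withTop_stem, Cond.mem_restr_stem]
        exact ⟨fun h => h.1, fun h => ⟨h, hσ⟩⟩
      · intro σ hσ hσκ
        rw [hx, Cond.withTop_set_ne _ _ hσκ, Cond.restr_set]
        exact hσ
    refine ⟨r₃, hr₃r₂.trans hr₂q, ?_⟩
    rw [h r₃ hr₃r, low_dep ν hψ _ hνr₃, ← hlow, ← low_dep ν hψ _ hνx, ← h x hxr]
    exact hxχ

theorem univ_isSentence : IsSentence (univ : Set (Cond M)) := by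
  intro p
  exact ⟨fun _ q _ => ⟨q, le_rfl, mem_univ _⟩, fun _ => mem_univ _⟩

/-- It is enough to consider `κ` many of the sentences. -/
theorem exists_small (hκ : 0 < M.o κ) {ι : Type w} (A : ι → Set (Cond M))
    (hA : ∀ i, IsSentence (A i)) :
    ∃ A' : Ordinal.{u} → Set (Cond M), (∀ β, IsSentence (A' β)) ∧
      (∀ β, A' β ∈ generated A) ∧
      ∀ (r : Cond M) (ν : Ordinal.{u}), ν ∈ r.stem → (∀ σ ∈ r.stem, σ ≤ ν) →
        Computes r (fun μ : Iic ν => club M μ) (fun β : Iio κ => A' β) →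
        Computes r (fun μ : Iic ν => club M μ) A := by
  classical
  have hJ : #((Codes κ) × (Iio κ) × ULift.{u + 1} Bool) ≤ #(Iio κ) := by
    rw [Cardinal.mk_prod, Cardinal.lift_id, Cardinal.lift_id, Cardinal.mk_prod,
      Cardinal.lift_id, Cardinal.lift_id, Cardinal.mk_uLift]
    have h2 : Cardinal.lift.{u + 1} #Bool ≤ #(Iio κ) := by
      refine le_trans ?_ (aleph0_le hκ)
      simp
    calc _ ≤ #(Iio κ) * (#(Iio κ) * #(Iio κ)) :=
          mul_le_mul' (mk_codes_le hκ) (mul_le_mul' le_rfl h2)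
      _ = #(Iio κ) := by
          rw [Cardinal.mul_eq_self (aleph0_le hκ), Cardinal.mul_eq_self (aleph0_le hκ)]
  obtain ⟨e⟩ := Cardinal.le_def _ _ |>.1 hJ
  set K : Bool → ι → Ordinal.{u} → Set (Cond M) := fun b i ν =>
    if b then A i ∩ fnot (phi (A i) ν) else fnot (A i) ∩ phi (A i) ν with hK
  set P : ((Codes κ) × (Iio κ) × ULift.{u + 1} Bool) → ι → Prop := fun j i =>
    ∃ s : Cond M, s.code = j.1.1 ∧ StarF s (K j.2.2.down i j.2.1.1) with hP
  have hch : ∀ β : Ordinal.{u}, ∃ S : Set (Cond M), IsSentence S ∧ S ∈ generated A ∧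
      ∀ j, (e j).1 = β → (∃ i, P j i) → ∃ i, P j i ∧ S = A i := by
    intro β
    by_cases h : ∃ j, (e j).1 = β ∧ ∃ i, P j i
    · obtain ⟨j, hj, i, hi⟩ := h
      refine ⟨A i, hA i, generated_atom i, ?_⟩
      intro j' hj' _
      have : j' = j := e.injective (Subtype.ext (hj'.trans hj.symm))
      subst this
      exact ⟨i, hi, rfl⟩
    · exact ⟨univ, univ_isSentence, generated_univ, fun j h1 h2 => absurd ⟨j, h1, h2⟩ h⟩
  choose A' hA' hA'g hA'P using hch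
  refine ⟨A', hA', hA'g, ?_⟩
  intro r ν hν hmax hcomp i
  refine ⟨phi (A i) ν, phi_generated _ _, ?_⟩
  have hνκ : ν < κ := r.lt ν hν
  have key : ∀ (b : Bool) (r'' : Cond M), r'' ≤ r → r'' ∉ K b i ν := by
    intro b r'' hr'' hmem
    obtain ⟨i', ⟨s, hs1, hs2⟩, h3⟩ := hA'P _ (⟨r''.code, code_mem_codes hκ r''⟩, ⟨ν, hνκ⟩, ⟨b⟩)
      rfl ⟨i, r'', rfl, starF_self hmem⟩
    obtain ⟨W, hW⟩ := (starF_of_code (show s.code = r''.code from hs1)).1 hs2
    obtain ⟨ψ, hψ, hψ'⟩ := hcomp (e (⟨r''.code, code_mem_codes hκ r''⟩, ⟨ν, hνκ⟩, ⟨b⟩))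
    have h3' : A' (e (⟨r''.code, code_mem_codes hκ r''⟩, ⟨ν, hνκ⟩, ⟨b⟩)).1 = A i' := h3
    simp only [h3'] at hψ'
    have h4 := computed_eq (hA i') hν hmax hψ hψ'
    have h5 : r''.withTop (r''.top.inter W) ≤ r :=
      (Cond.le_withTop_of_le W le_rfl).trans hr''
    have h6 : r''.withTop (r''.top.inter W) ≤ r''.withTop W :=
      Cond.withTop_le inter_subset_right
    have h7 := h4 _ h5
    have hW' : r''.withTop W ∈ K b i' ν := hW
    cases b with
    | true =>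
      simp only [hK, if_true] at hW'
      have h8 := (hA i').down hW'.1 h6
      exact hW'.2 _ h6 (h7.1 h8)
    | false =>
      simp only [hK, Bool.false_eq_true, if_false] at hW'
      have h8 := (phi_isSentence (A i') ν).down hW'.2 h6
      exact hW'.1 _ h6 (h7.2 h8)
  intro r' hr'
  constructor
  · intro h1
    by_contra h2
    obtain ⟨r'', h3, h4⟩ := (phi_isSentence (A i) ν).dense h2
    refine key true r'' (h3.trans hr') ?_
    simp only [hK, if_true]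
    exact ⟨(hA i).down h1 h3, h4⟩
  · intro h1
    by_contra h2
    obtain ⟨r'', h3, h4⟩ := (hA i).dense h2
    refine key false r'' (h3.trans hr') ?_
    simp only [hK, Bool.false_eq_true, if_false]
    exact ⟨h4, (phi_isSentence (A i) ν).down h1 h3⟩

/-- The dichotomy for names of subsets of `κ`. -/
theorem dichotomy_small (hκ : 0 < M.o κ) (ho : M.o κ = (Order.succ κ.card).ord)
    {A : Ordinal.{u} → Set (Cond M)} (hA : ∀ β, IsSentence (A β)) (p : Cond M) :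
    ∃ q ≤ p, (∃ ν < κ, ν ∈ q.stem ∧ (∀ σ ∈ q.stem, σ ≤ ν) ∧
        Computes q (fun μ : Iic ν => club M μ) (fun β : Iio κ => A β)) ∨
      (∃ ξ < M.o κ, ∃ X : Set Ordinal.{u}, (∀ ζ, ξ ≤ ζ → ζ < M.o κ → X ∈ M.U κ ζ) ∧
        Computes q (fun β : Iio κ => A β) (fun α : X => club M α)) := by
  classical
  obtain ⟨B₀, hB₀⟩ := exists_good hκ A
  have hbd : ∀ s : Finset Ordinal.{u}, (∀ σ ∈ s, σ < κ) → ∃ ν₀ < κ, ∀ σ ∈ s, σ ≤ ν₀ := by
    intro s
    induction s using Finset.induction_on with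
    | empty => exact fun _ => ⟨0, CoherentSeq.pos hκ, by simp⟩
    | insert a s ha ih =>
      intro hs
      obtain ⟨μ, h1, h2⟩ := ih (fun σ hσ => hs σ (Finset.mem_insert_of_mem hσ))
      refine ⟨max μ a, max_lt h1 (hs a (Finset.mem_insert_self _ _)), ?_⟩
      intro σ hσ
      rcases Finset.mem_insert.1 hσ with rfl | hσ
      · exact le_max_right _ _
      · exact (h2 σ hσ).trans (le_max_left _ _)
  obtain ⟨ν₀, hν₀κ, hν₀p⟩ := hbd p.stem p.lt
  set B : Set Ordinal.{u} := B₀ ∩ Ioi ν₀ with hBdef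
  have hB : Good A B :=
    { sub := inter_subset_left.trans hB₀.sub
      mem := Filter.inter_mem hB₀.mem (CoherentSeq.Ioi_mem_F le_rfl hν₀κ)
      typ := hB₀.typ.mono inter_subset_left
      cls := fun μ hμ => hB₀.cls μ hμ.1 }
  set T : TopSet M := ⟨B, hB.sub, hB.mem⟩ with hT
  set p₁ : Cond M := p.withTop (p.top.inter T) with hp₁
  have hp₁p : p₁ ≤ p := Cond.le_withTop_of_le T le_rfl
  have h1 : ∀ σ ∈ p₁.stem, σ ≤ ν₀ := hν₀p
  have h2 : p₁.set κ ⊆ B := by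
    rw [hp₁, Cond.withTop_set_top]
    exact inter_subset_right
  by_cases hun : ∀ γ < κ, ∀ q ≤ p₁, ∃ r ≤ q, ∃ α, γ ≤ α ∧ α < κ ∧ r ∈ Dsent A B ν₀ α
  · obtain ⟨q, hq, ξ, hξ, X, hX, hXB, hXD⟩ := unbounded_case hκ ho hA hB inter_subset_right h1 h2
      hun
    exact ⟨q, hq.trans hp₁p, Or.inr ⟨ξ, hξ, X, hX,
      fun α => ⟨_, Dsent_generated A hB hκ ν₀ α, hXD α α.2⟩⟩⟩
  · push Not at hun
    obtain ⟨γ, hγ, q, hq, hno⟩ := hun
    obtain ⟨r, hr, ν, hν, h3, h4, h5⟩ := bounded_of_not_unbounded hκ hA hB inter_subset_right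
      ((Her.of_top h1 h2).mono hq) hγ hno
    exact ⟨r, hr.trans (hq.trans hp₁p), Or.inl ⟨ν, hν, h3, h4, h5⟩⟩

/-- The dichotomy: every set of ordinals in the extension is added by a bounded part of the
generic sequence, or computes the points of a tail of the types. -/
theorem dichotomy (hκ : 0 < M.o κ) (ho : M.o κ = (Order.succ κ.card).ord) {ι : Type w}
    {A : ι → Set (Cond M)} (hA : ∀ i, IsSentence (A i)) (p : Cond M) :
    ∃ q ≤ p, (∃ ν < κ, Computes q (fun μ : Iic ν => club M μ) A) ∨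
      (∃ ξ < M.o κ, ∃ X : Set Ordinal.{u}, (∀ ζ, ξ ≤ ζ → ζ < M.o κ → X ∈ M.U κ ζ) ∧
        Computes q A (fun α : X => club M α)) := by
  obtain ⟨A', h1, h2, h3⟩ := exists_small hκ A hA
  obtain ⟨q, hq, h | h⟩ := dichotomy_small hκ ho h1 p
  · obtain ⟨ν, hν, h4, h5, h6⟩ := h
    exact ⟨q, hq, Or.inl ⟨ν, hν, h3 q ν h4 h5 h6⟩⟩
  · obtain ⟨ξ, hξ, X, hX, h4⟩ := h
    refine ⟨q, hq, Or.inr ⟨ξ, hξ, X, hX, ?_⟩⟩
    intro α
    obtain ⟨φ, hφ, hφ'⟩ := h4 α
    exact ⟨φ, generated_mono (A' := fun β : Iio κ => A' β) (fun β => h2 β) hφ, hφ'⟩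

end Run7.h429.MR
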