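import Pool.Agent.Run7.h429.MR.Prikry

/-!
# Typical top sets, and deciding sentences by the lower part of a condition
-/

namespace Run7.h429.MR

open Set

universe u v

variable {κ : Ordinal.{u}} {M : CoherentSeq κ}

theorem starF_base {t : Cond M} {ψ : Set (Cond M)} : StarF t.base ψ ↔ StarF t ψ := by
  unfold StarF
  simp only [Cond.base_withTop]

theorem starF_of_code {t t' : Cond M} (h : t.code = t'.code) {ψ : Set (Cond M)} :
    StarF t ψ ↔ StarF t' ψ := by
  unfold StarF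
  simp only [Cond.withTop_eq_of_code h]

theorem starF_self {t : Cond M} {ψ : Set (Cond M)} (h : t ∈ ψ) : StarF t ψ :=
  ⟨t.top, by rwa [Cond.withTop_top]⟩

open Classical in
/-- A top set which witnesses `StarF s ψ`. -/
noncomputable def witAux (ψ : Set (Cond M)) (s : Cond M) : TopSet M :=
  if h : StarF s ψ then Classical.choose h else s.top

/-- A top set which witnesses `StarF t ψ`, and only depends on the stem of `t`. -/
noncomputable def wit (ψ : Set (Cond M)) (t : Cond M) : TopSet M := witAux ψ t.base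

theorem wit_spec {ψ : Set (Cond M)} {t : Cond M} (h : StarF t ψ) : t.withTop (wit ψ t) ∈ ψ := by
  have h' : StarF t.base ψ := starF_base.2 h
  unfold wit witAux
  rw [dif_pos h']
  have := Classical.choose_spec h'
  rwa [Cond.base_withTop] at this

theorem Cond.base_base (t : Cond M) : t.base.base = t.base := Cond.withTop_withTop _ _ _

theorem wit_base (ψ : Set (Cond M)) (t : Cond M) : wit ψ t.base = wit ψ t :=
  congrArg (witAux ψ) t.base_base

theorem wit_of_code (ψ : Set (Cond M)) {t t' : Cond M} (h : t.code = t'.code) :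
    wit ψ t = wit ψ t' := congrArg (witAux ψ) (Cond.base_eq_of_code h)

/-- The points of `B` are typical for the family `Φ` of sentences. -/
def Typical (B : Set Ordinal.{u}) (Φ : Ordinal.{u} → Ordinal.{u} → Set (Cond M)) : Prop :=
  ∀ ρ ∈ B, ∀ t : Cond M, (∀ σ ∈ t.stem, σ < ρ) → ∀ β < ρ, ∀ γ < ρ,
    (ρ ∈ (wit (Φ β γ) t).1 ∧ (wit (Φ β γ) t).1 ∈ M.F ρ) ∧
    (ρ ∈ (wit (fnot (Φ β γ)) t).1 ∧ (wit (fnot (Φ β γ)) t).1 ∈ M.F ρ)

theorem exists_typical (M : CoherentSeq κ) (Φ : Ordinal.{u} → Ordinal.{u} → Set (Cond M)) :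
    ∃ B ∈ M.F κ, Typical B Φ := by
  have hZ : ∀ W : TopSet M, {ρ | ρ ∈ W.1 ∧ W.1 ∈ M.F ρ} ∈ M.F κ := by
    intro W
    refine CoherentSeq.mem_F.2 (fun ζ hζ => ?_)
    exact Filter.inter_mem (CoherentSeq.mem_F.1 W.2.2 ζ hζ)
      (CoherentSeq.reflect_F le_rfl hζ W.2.2)
  refine ⟨_, diag_stems₂ (fun t β γ =>
    {ρ | ρ ∈ (wit (Φ β γ) t).1 ∧ (wit (Φ β γ) t).1 ∈ M.F ρ} ∩
    {ρ | ρ ∈ (wit (fnot (Φ β γ)) t).1 ∧ (wit (fnot (Φ β γ)) t).1 ∈ M.F ρ})
    (fun t β γ _ _ => Filter.inter_mem (hZ _) (hZ _)), ?_⟩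
  intro ρ hρ t ht β hβ γ hγ
  have := hρ t ht β hβ γ hγ
  simp only [wit_base] at this
  exact this

theorem Typical.mono {B B' : Set Ordinal.{u}} {Φ : Ordinal.{u} → Ordinal.{u} → Set (Cond M)}
    (h : Typical B Φ) (hB : B' ⊆ B) : Typical B' Φ := fun ρ hρ => h ρ (hB hρ)

/-- Combine a lower part `t` (with points at most `μ`) with the part of `r` above `μ`, whose
sets are intersected with `W`. -/
theorem compat_low_aux {r t : Cond M} {μ : Ordinal.{u}}
    (ht : t.base ≤ (r.restr (Iic μ)).base)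
    (hstem : ∀ ρ ∈ t.stem, ∃ σ ∈ r.stem, σ ≤ μ ∧ ρ ≤ σ) (W : TopSet M)
    (hW : ∀ ρ ∈ r.stem, μ < ρ → ρ ∈ W.1 ∧ W.1 ∈ M.F ρ) :
    ∃ r' ≤ r, r' ≤ t.withTop W ∧ r'.stem ⊆ t.stem ∪ r.stem ∧
      (∀ ρ ∈ r'.stem, ρ ≤ μ → ρ ∈ t.stem) ∧ (r'.restr (Iic μ)).base = t.base := by
  classical
  have htμ : ∀ ρ ∈ t.stem, ρ ≤ μ := by
    intro ρ hρ
    obtain ⟨σ, _, h1, h2⟩ := hstem ρ hρ
    exact h2.trans h1
  let r' : Cond M :=
    { stem := t.stem ∪ r.stem.filter (fun ρ => μ < ρ)
      set := fun ρ => {x | (ρ = κ ∧ x ∈ r.set κ ∧ x ∈ W.1) ∨ (ρ ≠ κ ∧ ρ ≤ μ ∧ x ∈ t.set ρ) ∨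
        (ρ ≠ κ ∧ μ < ρ ∧ x ∈ r.set ρ ∧ x ∈ W.1)}
      lt := by
        intro ρ hρ
        rcases Finset.mem_union.1 hρ with h | h
        · exact t.lt ρ h
        · exact r.lt ρ (Finset.mem_filter.1 h).1
      sub := by
        rintro ρ hρ x (⟨rfl, hx, _⟩ | ⟨h1, h2, hx⟩ | ⟨h1, h2, hx, _⟩)
        · exact r.sub ρ (Or.inl rfl) hx
        · refine t.sub ρ ?_ hx
          rcases hρ with h | h
          · exact absurd h h1
          · rcases Finset.mem_union.1 h with h | h
            · exact Or.inr h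
            · exact absurd (Finset.mem_filter.1 h).2 (not_lt.2 h2)
        · refine r.sub ρ ?_ hx
          rcases hρ with h | h
          · exact absurd h h1
          · rcases Finset.mem_union.1 h with h | h
            · exact absurd (htμ ρ h) (not_le.2 h2)
            · exact Or.inr (Finset.mem_filter.1 h).1
      meas := by
        intro ρ hρ
        by_cases h : ρ = κ
        · subst h
          exact Filter.mem_of_superset (Filter.inter_mem (r.meas ρ (Or.inl rfl)) W.2.2)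
            (fun x hx => Or.inl ⟨rfl, hx.1, hx.2⟩)
        · by_cases h' : ρ ≤ μ
          · refine Filter.mem_of_superset (t.meas ρ ?_) (fun x hx => Or.inr (Or.inl ⟨h, h', hx⟩))
            rcases hρ with h1 | h1
            · exact absurd h1 h
            · rcases Finset.mem_union.1 h1 with h2 | h2
              · exact Or.inr h2
              · exact absurd (Finset.mem_filter.1 h2).2 (not_lt.2 h')
          · have hρr : ρ ∈ r.stem := by
              rcases hρ with h1 | h1
              · exact absurd h1 h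
              · rcases Finset.mem_union.1 h1 with h2 | h2
                · exact absurd (htμ ρ h2) h'
                · exact (Finset.mem_filter.1 h2).1
            refine Filter.mem_of_superset (Filter.inter_mem (r.meas ρ (Or.inr hρr))
              (hW ρ hρr (not_le.1 h')).2) (fun x hx => Or.inr (Or.inr ?_))
            exact ⟨h, not_le.1 h', hx.1, hx.2⟩
      out := by
        intro ρ hρ
        have h1 : ρ ≠ κ := fun h => hρ (Or.inl h)
        have h2 : ρ ∉ t.stem := fun h => hρ (Or.inr (Finset.mem_union_left _ h))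
        ext x
        simp only [mem_ofPred_eq, mem_empty_iff_false, iff_false]
        rintro (⟨rfl, _⟩ | ⟨_, _, hx⟩ | ⟨_, h3, hx, _⟩)
        · exact h1 rfl
        · rw [t.out ρ (by tauto)] at hx
          exact hx
        · have h4 : ρ ∉ r.stem := fun h => hρ (Or.inr (Finset.mem_union_right _
            (Finset.mem_filter.2 ⟨h, h3⟩)))
          rw [r.out ρ (by tauto)] at hx
          exact hx }
  have hr'le : ∀ ρ, ρ ≠ κ → ρ ≤ μ → r'.set ρ = t.set ρ := by
    intro ρ h1 h2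
    ext x
    constructor
    · rintro (⟨h, _⟩ | ⟨_, _, hx⟩ | ⟨_, h3, _⟩)
      · exact absurd h h1
      · exact hx
      · exact absurd h3 (not_lt.2 h2)
    · intro hx
      exact Or.inr (Or.inl ⟨h1, h2, hx⟩)
  have hr'gt : ∀ ρ, ρ ≠ κ → μ < ρ → r'.set ρ ⊆ r.set ρ ∩ W.1 := by
    rintro ρ h1 h2 x (⟨h, _⟩ | ⟨_, h3, _⟩ | ⟨_, _, h3, h4⟩)
    · exact absurd h h1
    · exact absurd h2 (not_lt.2 h3)
    · exact ⟨h3, h4⟩
  have hr'top : r'.set κ ⊆ r.set κ ∩ W.1 := by
    rintro x (⟨_, h3, h4⟩ | ⟨h, _⟩ | ⟨h, _⟩)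
    · exact ⟨h3, h4⟩
    · exact absurd rfl h
    · exact absurd rfl h
  refine ⟨r', ⟨?_, ?_⟩, ⟨?_, ?_⟩, ?_, ?_, ?_⟩
  · intro σ hσ
    by_cases h : σ ≤ μ
    · refine Finset.mem_union_left _ (ht.1 ?_)
      rw [Cond.base_stem, Cond.mem_restr_stem]
      exact ⟨hσ, h⟩
    · exact Finset.mem_union_right _ (Finset.mem_filter.2 ⟨hσ, not_le.1 h⟩)
  · intro ρ hρ l hl
    by_cases h1 : ρ = κ
    · subst h1
      have : l = ρ := le_antisymm (r.dom_le hl.1) hl.2.1
      subst this
      exact ⟨Or.inl rfl, hr'top.trans inter_subset_left⟩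
    · by_cases h2 : ρ ≤ μ
      · have hρt : ρ ∈ t.stem := by
          rcases hρ with h | h
          · exact absurd h h1
          · rcases Finset.mem_union.1 h with h | h
            · exact h
            · exact absurd (Finset.mem_filter.1 h).2 (not_lt.2 h2)
        obtain ⟨σ, hσ, hσμ, hρσ⟩ := hstem ρ hρt
        have hlσ : l ≤ σ := hl.2.2 σ (Or.inr hσ) hρσ
        have hlκ : l ≠ κ := (hlσ.trans_lt (r.lt σ hσ)).ne
        have hlr : l ∈ r.stem := hl.1.resolve_left hlκ
        have hnext : ((r.restr (Iic μ)).base).Next ρ l := by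
          refine ⟨Or.inr ?_, hl.2.1, ?_⟩
          · rw [Cond.base_stem, Cond.mem_restr_stem]
            exact ⟨hlr, hlσ.trans hσμ⟩
          · intro τ hτ h
            refine hl.2.2 τ (hτ.imp id ?_) h
            intro h'
            rw [Cond.base_stem, Cond.mem_restr_stem] at h'
            exact h'.1
        have h3 := ht.2 ρ (Or.inr hρt) l hnext
        rw [hr'le ρ h1 h2]
        have h4 : (r.restr (Iic μ)).base.set l = r.set l := by
          rw [Cond.base, Cond.withTop_set_ne _ _ hlκ, Cond.restr_set]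
          exact hlσ.trans hσμ
        have h5 : t.base.set ρ = t.set ρ := by
          rw [Cond.base, Cond.withTop_set_ne _ _ h1]
        rw [h4, h5] at h3
        exact h3
      · have hρr : ρ ∈ r.stem := by
          rcases hρ with h | h
          · exact absurd h h1
          · rcases Finset.mem_union.1 h with h | h
            · exact absurd (htμ ρ h) h2
            · exact (Finset.mem_filter.1 h).1
        have := (r.next_self (Or.inr hρr)).unique hl
        subst this
        exact ⟨Or.inl rfl, (hr'gt ρ h1 (not_le.1 h2)).trans inter_subset_left⟩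
  · exact Finset.subset_union_left
  · intro ρ hρ l hl
    by_cases h1 : ρ = κ
    · subst h1
      have : l = ρ := le_antisymm (t.dom_le hl.1) hl.2.1
      subst this
      refine ⟨Or.inl rfl, ?_⟩
      rw [Cond.withTop_set_top]
      exact hr'top.trans inter_subset_right
    · by_cases h2 : ρ ≤ μ
      · have hρt : ρ ∈ t.stem := by
          rcases hρ with h | h
          · exact absurd h h1
          · rcases Finset.mem_union.1 h with h | h
            · exact h
            · exact absurd (Finset.mem_filter.1 h).2 (not_lt.2 h2)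
        have := ((t.withTop W).next_self (Or.inr hρt)).unique hl
        subst this
        refine ⟨Or.inl rfl, ?_⟩
        rw [hr'le ρ h1 h2, Cond.withTop_set_ne _ _ h1]
      · have hρr : ρ ∈ r.stem := by
          rcases hρ with h | h
          · exact absurd h h1
          · rcases Finset.mem_union.1 h with h | h
            · exact absurd (htμ ρ h) h2
            · exact (Finset.mem_filter.1 h).1
        have hlκ : l = κ := by
          rcases hl.1 with h | h
          · exact h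
          · exact absurd (hl.2.1.trans (htμ l h)) h2
        subst hlκ
        rw [Cond.withTop_set_top]
        exact ⟨Or.inr (hW ρ hρr (not_le.1 h2)).1,
          (hr'gt ρ h1 (not_le.1 h2)).trans inter_subset_right⟩
  · intro ρ hρ
    rcases Finset.mem_union.1 hρ with h | h
    · exact Finset.mem_union_left _ h
    · exact Finset.mem_union_right _ (Finset.mem_filter.1 h).1
  · intro ρ hρ hρμ
    rcases Finset.mem_union.1 hρ with h | h
    · exact h
    · exact absurd (Finset.mem_filter.1 h).2 (not_lt.2 hρμ)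
  · refine Cond.eq_of ?_ ?_
    · ext ρ
      rw [Cond.base_stem, Cond.base_stem, Cond.mem_restr_stem]
      constructor
      · rintro ⟨h1, h2⟩
        rcases Finset.mem_union.1 h1 with h | h
        · exact h
        · exact absurd (Finset.mem_filter.1 h).2 (not_lt.2 h2)
      · intro h
        exact ⟨Finset.mem_union_left _ h, htμ ρ h⟩
    · intro ρ hρ
      by_cases h1 : ρ = κ
      · subst h1
        rw [Cond.base, Cond.base, Cond.withTop_set_top, Cond.withTop_set_top]
      · have hρ' : ρ ∈ (r'.restr (Iic μ)).stem := by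
          rcases hρ with h | h
          · exact absurd h h1
          · exact h
        have h2 : ρ ≤ μ := (Cond.mem_restr_stem.1 hρ').2
        rw [Cond.base, Cond.base, Cond.withTop_set_ne _ _ h1, Cond.withTop_set_ne _ _ h1,
          Cond.restr_set _ (show ρ ∈ Iic μ from h2), hr'le ρ h1 h2]

/-- Combine a lower part `t` (with points at most `μ`) with the part of `r` above `μ`, whose
sets are intersected with `W`. -/
theorem compat_low {r t : Cond M} {μ : Ordinal.{u}} (ht : t.base ≤ (r.restr (Iic μ)).base)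
    (hstem : ∀ ρ ∈ t.stem, ∃ σ ∈ r.stem, σ ≤ μ ∧ ρ ≤ σ) (W : TopSet M)
    (hW : ∀ ρ ∈ r.stem, μ < ρ → ρ ∈ W.1 ∧ W.1 ∈ M.F ρ) :
    ∃ r' ≤ r, r' ≤ t.withTop W ∧ r'.stem ⊆ t.stem ∪ r.stem ∧
      ∀ ρ ∈ r'.stem, ρ ≤ μ → ρ ∈ t.stem := by
  obtain ⟨r', h1, h2, h3, h4, -⟩ := compat_low_aux ht hstem W hW
  exact ⟨r', h1, h2, h3, h4⟩

theorem Cond.base_le_base {t s : Cond M} (h : t ≤ s) : t.base ≤ s.base := by
  refine ⟨h.1, ?_⟩
  intro ρ hρ l hl
  have hl' : s.Next ρ l := hl
  by_cases h1 : ρ = κ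
  · subst h1
    have : l = ρ := le_antisymm (s.dom_le hl'.1) hl'.2.1
    subst this
    refine ⟨Or.inl rfl, ?_⟩
    rw [Cond.base, Cond.base, Cond.withTop_set_top, Cond.withTop_set_top]
  · have h2 := h.2 ρ hρ l hl'
    by_cases hlκ : l = κ
    · subst hlκ
      rw [Cond.base, Cond.base, Cond.withTop_set_top, Cond.withTop_set_ne _ _ h1]
      have hρt : ρ ∈ t.stem := hρ.resolve_left h1
      exact ⟨Or.inr (t.lt ρ hρt), fun x hx =>
        (show x < ρ from t.sub ρ (Or.inr hρt) hx).trans (t.lt ρ hρt)⟩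
    · rw [Cond.base, Cond.base, Cond.withTop_set_ne _ _ h1, Cond.withTop_set_ne _ _ hlκ]
      exact h2

/-- If the points of `r` above `μ` are typical, then a sentence of the family which `r` forces is
forced by a lower part. -/
theorem low_of_mem (hκ : 0 < M.o κ) {B : Set Ordinal.{u}}
    {Φ : Ordinal.{u} → Ordinal.{u} → Set (Cond M)} (hT : Typical B Φ) {r : Cond M}
    {μ β γ : Ordinal.{u}} (hΦ : IsSentence (Φ β γ))
    (hr : ∀ ρ ∈ r.stem, μ < ρ → ρ ∈ B ∧ β < ρ ∧ γ < ρ) (hmem : r ∈ Φ β γ) :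
    ∃ t : Cond M, t.base ≤ (r.restr (Iic μ)).base ∧
      (∀ ρ ∈ t.stem, ∃ σ ∈ r.stem, σ ≤ μ ∧ ρ ≤ σ) ∧ StarF t (Φ β γ) := by
  obtain ⟨t, ht, hst, hdec⟩ := prikry hκ (r.restr (Iic μ)) hΦ
  have hst' : ∀ ρ ∈ t.stem, ∃ σ ∈ r.stem, σ ≤ μ ∧ ρ ≤ σ := by
    intro ρ hρ
    obtain ⟨σ, hσ, h⟩ := hst ρ hρ
    obtain ⟨h1, h2⟩ := Cond.mem_restr_stem.1 hσ
    exact ⟨σ, h1, h2, h⟩
  refine ⟨t, Cond.base_le_base ht, hst', ?_⟩
  rcases hdec with h | h
  · exact starF_self h
  · exfalso
    have hs := starF_self h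
    obtain ⟨r', h1, h2, -⟩ := compat_low (Cond.base_le_base ht) hst' (wit (fnot (Φ β γ)) t)
      (by
        intro ρ hρ hμρ
        obtain ⟨h3, h4, h5⟩ := hr ρ hρ hμρ
        refine (hT ρ h3 t ?_ β h4 γ h5).2
        intro σ hσ
        obtain ⟨τ, _, h6, h7⟩ := hst' σ hσ
        exact (h7.trans h6).trans_lt hμρ)
    have h3 : r' ∈ fnot (Φ β γ) := hΦ.fnot.down (wit_spec hs) h2
    exact h3 r' le_rfl (hΦ.down hmem h1)

/-- Conversely. -/
theorem mem_of_low {B : Set Ordinal.{u}}
    {Φ : Ordinal.{u} → Ordinal.{u} → Set (Cond M)} (hT : Typical B Φ) {r : Cond M}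
    {μ β γ : Ordinal.{u}} (hΦ : IsSentence (Φ β γ))
    (hr : ∀ ρ ∈ r.stem, μ < ρ → ρ ∈ B ∧ β < ρ ∧ γ < ρ)
    {t : Cond M} (ht : t.base ≤ (r.restr (Iic μ)).base)
    (hst : ∀ ρ ∈ t.stem, ∃ σ ∈ r.stem, σ ≤ μ ∧ ρ ≤ σ) (hs : StarF t (Φ β γ)) :
    ∃ r' ≤ r, r' ∈ Φ β γ ∧ r' ≤ t.withTop (wit (Φ β γ) t) ∧ r'.stem ⊆ t.stem ∪ r.stem ∧
      ∀ ρ ∈ r'.stem, ρ ≤ μ → ρ ∈ t.stem := by
  obtain ⟨r', h1, h2, h3, h4⟩ := compat_low ht hst (wit (Φ β γ) t)
    (by
      intro ρ hρ hμρ
      obtain ⟨h3, h4, h5⟩ := hr ρ hρ hμρ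
      refine (hT ρ h3 t ?_ β h4 γ h5).1
      intro σ hσ
      obtain ⟨τ, _, h6, h7⟩ := hst σ hσ
      exact (h7.trans h6).trans_lt hμρ)
  exact ⟨r', h1, hΦ.down (wit_spec hs) h2, h2, h3, h4⟩

end Run7.h429.MR
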