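import Pool.Agent.Run7.h429.MR.Basic

/-!
# The Prikry property of the Magidor-Radin forcing
-/

namespace Run7.h429.MR

open Set

universe u v

section Sentences

variable {P : Type v} [Preorder P]

theorem IsSentence.down {φ : Set P} (h : IsSentence φ) {p q : P} (hp : p ∈ φ) (hq : q ≤ p) :
    q ∈ φ :=
  (h q).2 (fun r hr => (h p).1 hp r (hr.trans hq))

theorem IsSentence.fnot {φ : Set P} (h : IsSentence φ) : IsSentence (fnot φ) := by
  intro p
  constructor
  · intro hp q hq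
    exact ⟨q, le_refl q, fun r hr => hp r (hr.trans hq)⟩
  · intro hp q hq hqφ
    obtain ⟨r, hr, hr'⟩ := hp q hq
    exact hr' r (le_refl r) (h.down hqφ hr)

theorem IsSentence.dense {φ : Set P} (h : IsSentence φ) {p : P} (hp : p ∉ φ) :
    ∃ q ≤ p, q ∈ MR.fnot φ := by
  by_contra hn
  push Not at hn
  refine hp ((h p).2 ?_)
  intro q hq
  by_contra h1
  push Not at h1
  exact hn q hq h1

end Sentences

variable {κ : Ordinal.{u}} {M : CoherentSeq κ}

/-- Some top set makes the stem of `p` force `φ`. -/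
def StarF (p : Cond M) (φ : Set (Cond M)) : Prop := ∃ B : TopSet M, p.withTop B ∈ φ

theorem CoherentSeq.pos (hκ : 0 < M.o κ) : 0 < κ := by
  obtain ⟨ν, hν⟩ := (Ultrafilter.neBot (M.U κ 0)).nonempty_of_mem (M.normal κ le_rfl 0 hκ).conc
  exact lt_of_le_of_lt zero_le hν

theorem compat_ext {s q : Cond M} {D : TopSet M} (hq : q ≤ s.withTop D) {ν : Ordinal.{u}}
    (hν : ν < κ) (hνq : ν ∈ q.stem) (hνs : ∀ σ ∈ s.stem, σ < ν) {E : Set Ordinal.{u}}
    (hE : E ⊆ Iio ν ∧ E ∈ M.F ν) (C : TopSet M)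
    (h1 : ∀ ρ ∈ q.stem, (∀ σ ∈ s.stem, σ < ρ) → ρ < ν → ρ ∈ E ∧ E ∈ M.F ρ)
    (h2 : ∀ ρ ∈ q.stem, ν < ρ → ρ ∈ C.1 ∧ C.1 ∈ M.F ρ) :
    ∃ r ≤ q, r ≤ s.ext ν hν E hE C := by
  classical
  set Bf : Ordinal.{u} → Set Ordinal.{u} := fun ρ =>
    {x | ((∀ σ ∈ s.stem, σ < ρ) → ρ ≤ ν → x ∈ E) ∧ (ν < ρ → x ∈ C.1)} with hBf
  have hB : ∀ ρ, (ρ = κ ∨ ρ ∈ q.stem) → Bf ρ ∈ M.F ρ := by
    intro ρ hρ
    by_cases hlt : ν < ρ
    · have hC : C.1 ∈ M.F ρ := by
        rcases hρ with rfl | hρ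
        · exact C.2.2
        · exact (h2 ρ hρ hlt).2
      refine Filter.mem_of_superset hC (fun x hx => ⟨fun _ h => absurd hlt (not_lt.2 h), ?_⟩)
      exact fun _ => hx
    · by_cases hs : ∀ σ ∈ s.stem, σ < ρ
      · have hEρ : E ∈ M.F ρ := by
          rcases (not_lt.1 hlt).lt_or_eq with h | rfl
          · rcases hρ with rfl | hρ
            · exact absurd (h.trans hν) (lt_irrefl _)
            · exact (h1 ρ hρ hs h).2
          · exact hE.2
        exact Filter.mem_of_superset hEρ (fun x hx => ⟨fun _ _ => hx, fun h => absurd h hlt⟩)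
      · refine Filter.mem_of_superset Filter.univ_mem (fun x _ => ?_)
        exact ⟨fun h => absurd h hs, fun h => absurd h hlt⟩
  refine ⟨q.inter Bf hB, Cond.inter_le _ _ _, ?_, ?_⟩
  · intro ρ hρ
    rcases Finset.mem_insert.1 hρ with rfl | h
    · exact hνq
    · exact hq.1 h
  · intro ρ hρ l hl
    have hρ' : ρ = κ ∨ ρ ∈ q.stem := hρ
    by_cases hs : ∀ σ ∈ s.stem, σ < ρ
    · rcases lt_or_ge ν ρ with hlt | hle
      · have hlκ : l = κ := by
          rcases hl.1 with h | h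
          · exact h
          · rcases Finset.mem_insert.1 h with rfl | h
            · exact absurd hl.2.1 (not_le.2 hlt)
            · exact absurd hl.2.1 (not_le.2 (hs l h))
        subst hlκ
        refine ⟨?_, ?_⟩
        · rcases hρ' with h | h
          · exact Or.inl h
          · right
            rw [Cond.ext_set_top]
            exact (h2 ρ h hlt).1
        · rw [Cond.ext_set_top]
          exact fun x hx => hx.2.2 hlt
      · have hlν : l = ν := by
          have : l ≤ ν := hl.2.2 ν (Or.inr (Finset.mem_insert_self _ _)) hle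
          rcases hl.1 with h | h
          · exact absurd (h ▸ this) (not_le.2 hν)
          · rcases Finset.mem_insert.1 h with h | h
            · exact h
            · exact absurd hl.2.1 (not_le.2 (hs l h))
        subst hlν
        refine ⟨?_, ?_⟩
        · rcases hle.lt_or_eq with h | h
          · right
            rw [Cond.ext_set_self]
            rcases hρ' with h' | h'
            · exact absurd (h'.symm.le.trans_lt h) (not_lt.2 hν.le)
            · exact (h1 ρ h' hs h).1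
          · exact Or.inl h
        · rw [Cond.ext_set_self]
          exact fun x hx => hx.2.1 hs hle
    · push Not at hs
      obtain ⟨σ, hσ, hρσ⟩ := hs
      have hlσ : l ≤ σ := hl.2.2 σ (Or.inr (Finset.mem_insert_of_mem hσ)) hρσ
      have hlν : l < ν := hlσ.trans_lt (hνs σ hσ)
      have hlκ : l ≠ κ := (hlν.trans hν).ne
      have hls : l ∈ s.stem := by
        rcases hl.1 with h | h
        · exact absurd h hlκ
        · rcases Finset.mem_insert.1 h with h | h
          · exact absurd h hlν.ne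
          · exact h
      have hnext : (s.withTop D).Next ρ l := by
        refine ⟨Or.inr hls, hl.2.1, ?_⟩
        intro τ hτ hρτ
        refine hl.2.2 τ ?_ hρτ
        exact hτ.imp id (fun h => Finset.mem_insert_of_mem h)
      obtain ⟨h3, h4⟩ := hq.2 ρ hρ' l hnext
      rw [Cond.withTop_set_ne _ _ hlκ] at h3 h4
      rw [Cond.ext_set_ne _ _ _ _ _ _ hlκ hlν.ne]
      exact ⟨h3, fun x hx => h4 hx.1⟩

theorem one_point (q : Cond M) {l : Ordinal.{u}} (hl : l = κ ∨ l ∈ q.stem) {η : Ordinal.{u}}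
    (hη : η < M.o l) {X : Set Ordinal.{u}} (hX : X ∈ M.U l η) {δ : Ordinal.{u}} (hδ : δ < l) :
    ∃ ν ∈ X, δ < ν ∧ ν < l ∧ (∀ σ ∈ q.stem, σ < l → σ < ν) ∧
      ∃ q' ≤ q, q'.stem = insert ν q.stem := by
  classical
  have hlκ : l ≤ κ := q.dom_le hl
  have hN := M.normal l hlκ η hη
  have hbd : ∀ s : Finset Ordinal.{u}, ∃ δ' < l, δ ≤ δ' ∧ ∀ σ ∈ s, σ < l → σ ≤ δ' := by
    intro s
    induction s using Finset.induction_on with
    | empty => exact ⟨δ, hδ, le_rfl, by simp⟩
    | insert a s ha ih =>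
      obtain ⟨δ', h1, h2, h3⟩ := ih
      by_cases hal : a < l
      · refine ⟨max δ' a, max_lt h1 hal, h2.trans (le_max_left _ _), ?_⟩
        intro σ hσ hσl
        rcases Finset.mem_insert.1 hσ with rfl | hσ
        · exact le_max_right _ _
        · exact (h3 σ hσ hσl).trans (le_max_left _ _)
      · refine ⟨δ', h1, h2, ?_⟩
        intro σ hσ hσl
        rcases Finset.mem_insert.1 hσ with rfl | hσ
        · exact absurd hσl hal
        · exact h3 σ hσ hσl
  obtain ⟨δ', h1, h2, h3⟩ := hbd q.stem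
  have hA := q.meas l hl
  have hA1 : q.set l ∈ M.U l η := CoherentSeq.mem_F.1 hA η hη
  have hA2 : {ν | q.set l ∈ M.F ν} ∈ M.U l η := CoherentSeq.reflect_F hlκ hη hA
  obtain ⟨ν, ⟨hν1, hν2, hν3⟩, hν4, hν5⟩ := hN.exists_gt h1
    (Filter.inter_mem hX (Filter.inter_mem hA1 hA2))
  have hνκ : ν < κ := hν5.trans_le hlκ
  have hνq : ν ∉ q.stem := fun h => absurd (h3 ν h hν5) (not_le.2 hν4)
  have hnext : q.Next ν l := by
    refine ⟨hl, hν5.le, ?_⟩
    intro τ hτ hντ
    by_contra hlt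
    push Not at hlt
    rcases hτ with rfl | hτ
    · exact absurd hlt (not_lt.2 hlκ)
    · exact absurd (h3 τ hτ hlt) (not_le.2 (hν4.trans_le hντ))
  let q' : Cond M :=
    { stem := insert ν q.stem
      set := fun ρ => {x | (ρ = ν ∧ x ∈ q.set l ∧ x < ν) ∨ (ρ ≠ ν ∧ x ∈ q.set ρ)}
      lt := by
        intro ρ hρ
        rcases Finset.mem_insert.1 hρ with rfl | h
        · exact hνκ
        · exact q.lt ρ h
      sub := by
        rintro ρ hρ x (⟨rfl, _, hx⟩ | ⟨h, hx⟩)
        · exact hx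
        · refine q.sub ρ ?_ hx
          rcases hρ with h' | h'
          · exact Or.inl h'
          · exact Or.inr ((Finset.mem_insert.1 h').resolve_left h)
      meas := by
        intro ρ hρ
        by_cases h : ρ = ν
        · subst h
          exact Filter.mem_of_superset (Filter.inter_mem hν3 (CoherentSeq.Iio_mem_F hνκ.le))
            (fun x hx => Or.inl ⟨rfl, hx.1, hx.2⟩)
        · refine Filter.mem_of_superset (q.meas ρ ?_) (fun x hx => Or.inr ⟨h, hx⟩)
          rcases hρ with h' | h'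
          · exact Or.inl h'
          · exact Or.inr ((Finset.mem_insert.1 h').resolve_left h)
      out := by
        intro ρ hρ
        ext x
        simp only [mem_ofPred_eq, mem_empty_iff_false, iff_false]
        rintro (⟨rfl, _⟩ | ⟨h, hx⟩)
        · exact hρ (Or.inr (Finset.mem_insert_self _ _))
        · rw [q.out ρ (fun h' => hρ (h'.imp id (fun h => Finset.mem_insert_of_mem h)))] at hx
          exact hx }
  refine ⟨ν, hν1, h2.trans_lt hν4, hν5, fun σ hσ hσl => (h3 σ hσ hσl).trans_lt hν4,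
    q', ⟨Finset.subset_insert _ _, ?_⟩, rfl⟩
  intro ρ hρ l' hl'
  by_cases h : ρ = ν
  · subst h
    have := hnext.unique hl'
    subst this
    refine ⟨Or.inr hν2, ?_⟩
    rintro x (⟨_, hx, _⟩ | ⟨h, _⟩)
    · exact hx
    · exact absurd rfl h
  · have hρ' : ρ = κ ∨ ρ ∈ q.stem := by
      rcases hρ with h' | h'
      · exact Or.inl h'
      · exact Or.inr ((Finset.mem_insert.1 h').resolve_left h)
    have := (q.next_self hρ').unique hl'
    subst this
    refine ⟨Or.inl rfl, ?_⟩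
    rintro x (⟨h', _⟩ | ⟨_, hx⟩)
    · exact absurd h' h
    · exact hx

/-- The points `ν` above the stem of `t` such that some one-point extension of `t` by `ν`
belongs to `ψ`. -/
def Yset (t : Cond M) (ψ : Set (Cond M)) : Set Ordinal.{u} :=
  {ν | (∀ σ ∈ t.stem, σ < ν) ∧ ∃ (hν : ν < κ) (E : Set Ordinal.{u})
    (hE : E ⊆ Iio ν ∧ E ∈ M.F ν) (C : TopSet M), t.ext ν hν E hE C ∈ ψ}

theorem Yset_base (t : Cond M) (ψ : Set (Cond M)) : Yset t.base ψ = Yset t ψ := by
  ext ν
  simp only [Yset, Cond.base_stem, Cond.base_ext]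

theorem star_of_Yset {s : Cond M} {φ : Set (Cond M)} (hφ : IsSentence φ) {ζ : Ordinal.{u}}
    (hζ : ζ < M.o κ) (hY : Yset s φ ∈ M.U κ ζ) : StarF s φ := by
  classical
  have hN := M.normal κ le_rfl ζ hζ
  have hch : ∀ ν, ∃ (E : Set Ordinal.{u}) (C : TopSet M), ν ∈ Yset s φ →
      ∃ (hν : ν < κ) (hE : E ⊆ Iio ν ∧ E ∈ M.F ν), s.ext ν hν E hE C ∈ φ := by
    intro ν
    by_cases hν : ν ∈ Yset s φ
    · obtain ⟨_, h1, E, hE, C, h2⟩ := id hν
      exact ⟨E, C, fun _ => ⟨h1, hE, h2⟩⟩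
    · exact ⟨∅, s.top, fun h => absurd h hν⟩
  choose E C hEC using hch
  set Eζ : Set Ordinal.{u} := {β | {ν | β ∈ E ν} ∈ M.U κ ζ} with hEζ
  set X : Set Ordinal.{u} := {ν | ν ∈ Yset s φ ∧ ∀ β < ν, (β ∈ E ν ↔ β ∈ Eζ)} with hXdef
  have hX : X ∈ M.U κ ζ := by
    refine Filter.inter_mem hY (hN.normal (fun β => {ν | (β ∈ E ν ↔ β ∈ Eζ)}) ?_)
    intro β _
    by_cases hβ : {ν | β ∈ E ν} ∈ M.U κ ζ
    · exact Filter.mem_of_superset hβ (fun ν hν => ⟨fun _ => hβ, fun _ => hν⟩)
    · exact Filter.mem_of_superset (Ultrafilter.compl_mem_iff_notMem.2 hβ)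
        (fun ν hν => ⟨fun h => absurd h hν, fun h => absurd h hβ⟩)
  have hEF : ∀ ν ∈ X, Eζ ∈ M.F ν := by
    intro ν hν
    obtain ⟨_, hE, _⟩ := hEC ν hν.1
    exact Filter.mem_of_superset hE.2 (fun β hβ => (hν.2 β (hE.1 hβ)).1 hβ)
  have hEγ : ∀ γ < ζ, Eζ ∈ M.U κ γ :=
    (CoherentSeq.reflect le_rfl hζ).2 (Filter.mem_of_superset hX hEF)
  set Eb : Set Ordinal.{u} := {μ | μ ∈ Eζ ∧ Eζ ∈ M.F μ ∧ μ < κ} with hEb
  have hEbγ : ∀ γ < ζ, Eb ∈ M.U κ γ := by
    intro γ hγ
    have h1 := (CoherentSeq.reflect (M := M) le_rfl (hγ.trans hζ) (X := Eζ)).1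
      (fun γ' hγ' => hEγ γ' (hγ'.trans hγ))
    exact Filter.mem_of_superset (Filter.inter_mem (hEγ γ hγ)
      (Filter.inter_mem h1 (M.normal κ le_rfl γ (hγ.trans hζ)).conc)) (fun μ hμ => hμ)
  set W : Set Ordinal.{u} := {μ | ∃ η < M.o μ, X ∈ M.U μ η} with hW
  set Cs : Set Ordinal.{u} := {μ | ∀ ν < μ, μ ∈ (C ν).1 ∧ (C ν).1 ∈ M.F μ} with hCs
  have hCsF : Cs ∈ M.F κ := by
    refine CoherentSeq.mem_F.2 (fun γ hγ => ?_)
    refine (M.normal κ le_rfl γ hγ).normal (fun ν => {μ | μ ∈ (C ν).1 ∧ (C ν).1 ∈ M.F μ}) ?_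
    intro ν _
    exact Filter.inter_mem (CoherentSeq.mem_F.1 (C ν).2.2 γ hγ)
      (CoherentSeq.reflect_F le_rfl hγ (C ν).2.2)
  set B : Set Ordinal.{u} := Iio κ ∩ (Cs ∩ (Eb ∪ (X ∪ W))) with hBdef
  have hBF : B ∈ M.F κ := by
    refine Filter.inter_mem (CoherentSeq.Iio_mem_F le_rfl) (Filter.inter_mem hCsF ?_)
    refine CoherentSeq.mem_F.2 (fun γ hγ => ?_)
    rcases lt_trichotomy γ ζ with h | rfl | h
    · exact Filter.mem_of_superset (hEbγ γ h) (fun x hx => Or.inl hx)
    · exact Filter.mem_of_superset hX (fun x hx => Or.inr (Or.inl hx))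
    · exact Filter.mem_of_superset (CoherentSeq.reflect_pos le_rfl hγ h hX)
        (fun x hx => Or.inr (Or.inr hx))
  refine ⟨⟨B, inter_subset_left, hBF⟩, ?_⟩
  rw [hφ]
  intro q hq
  have hB : ∀ ρ ∈ q.stem, (∀ σ ∈ s.stem, σ < ρ) → ρ ∈ B := by
    intro ρ hρ hs
    have hn : (s.withTop ⟨B, inter_subset_left, hBF⟩).Next ρ κ := by
      refine ⟨Or.inl rfl, (q.lt ρ hρ).le, ?_⟩
      intro σ hσ h
      rcases hσ with rfl | hσ
      · exact le_rfl
      · exact absurd h (not_le.2 (hs σ hσ))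
    obtain ⟨h1, _⟩ := hq.2 ρ (Or.inr hρ) κ hn
    rcases h1 with h1 | h1
    · exact absurd h1 (q.lt ρ hρ).ne
    · rwa [Cond.withTop_set_top] at h1
  set L : Set Ordinal.{u} := {ρ | (ρ = κ ∨ ρ ∈ q.stem) ∧ (∀ σ ∈ s.stem, σ < ρ) ∧ ρ ∉ Eb} with hL
  have hLne : L.Nonempty := ⟨κ, Or.inl rfl, s.lt, fun h => lt_irrefl _ h.2.2⟩
  set l := sInf L with hldef
  have hl : l ∈ L := csInf_mem hLne
  have hmin : ∀ ρ ∈ q.stem, (∀ σ ∈ s.stem, σ < ρ) → ρ < l → ρ ∈ Eb := by
    intro ρ hρ hs hρl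
    by_contra h
    exact absurd (csInf_le' (show ρ ∈ L from ⟨Or.inr hρ, hs, h⟩)) (not_le.2 hρl)
  have main : ∀ (q' : Cond M), q' ≤ q → ∀ ν ∈ X, ν ∈ q'.stem → ν ≤ l →
      (∀ ρ ∈ q'.stem, ρ ≠ ν → ρ ∈ q.stem) → ∃ r ≤ q, r ∈ φ := by
    intro q' hq' ν hνX hνq' hνl hst
    obtain ⟨hν, hE, hφ'⟩ := hEC ν hνX.1
    have hνs := hνX.1.1
    obtain ⟨r, hr, hr'⟩ := compat_ext (hq'.trans hq) hν hνq' hνs hE (C ν)
      (by
        intro ρ hρ hs hρν
        have h1 := hmin ρ (hst ρ hρ hρν.ne) hs (hρν.trans_le hνl)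
        refine ⟨(hνX.2 ρ hρν).2 h1.1, ?_⟩
        refine Filter.mem_of_superset
          (Filter.inter_mem h1.2.1 (CoherentSeq.Iio_mem_F h1.2.2.le)) ?_
        rintro x ⟨hx1, hx2⟩
        exact (hνX.2 x (hx2.trans hρν)).2 hx1)
      (by
        intro ρ hρ hνρ
        have h1 := hB ρ (hst ρ hρ hνρ.ne') (fun σ hσ => (hνs σ hσ).trans hνρ)
        exact h1.2.1 ν hνρ)
    exact ⟨r, hr.trans hq', hφ.down hφ' hr'⟩
  by_cases hlX : l ∈ X
  · refine main q le_rfl l hlX ?_ le_rfl (fun ρ h _ => h)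
    rcases hl.1 with h | h
    · obtain ⟨h', _⟩ := hEC l hlX.1
      exact absurd h h'.ne
    · exact h
  · have hη : ∃ η < M.o l, X ∈ M.U l η := by
      rcases hl.1 with h | h
      · rw [h]
        exact ⟨ζ, hζ, hX⟩
      · rcases (hB l h hl.2.1).2.2 with h' | h' | h'
        · exact absurd h' hl.2.2
        · exact absurd h' hlX
        · exact h'
    obtain ⟨η, hη, hXη⟩ := hη
    have hl0 : 0 < l := by
      obtain ⟨ν, hν⟩ := (Ultrafilter.neBot (M.U l η)).nonempty_of_mem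
        (M.normal l (q.dom_le hl.1) η hη).conc
      exact lt_of_le_of_lt zero_le hν
    obtain ⟨ν, hνX, _, hνl, _, q', hq', hst⟩ := one_point q hl.1 hη hXη hl0
    refine main q' hq' ν hνX ?_ hνl.le ?_
    · rw [hst]
      exact Finset.mem_insert_self _ _
    · intro ρ hρ hne
      rw [hst] at hρ
      exact (Finset.mem_insert.1 hρ).resolve_left hne

theorem Cond.le_withTop_of_le {p q : Cond M} (B : TopSet M) (h : q ≤ p.withTop (p.top.inter B)) :
    q ≤ p := by
  refine h.trans ?_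
  conv_rhs => rw [← p.withTop_top]
  exact Cond.withTop_le inter_subset_left

/-- The Prikry property: below `p` every sentence can be decided without adding new points
above the stem of `p`. -/
theorem prikry (hκ : 0 < M.o κ) (p : Cond M) {φ : Set (Cond M)} (hφ : IsSentence φ) :
    ∃ q ≤ p, (∀ ρ ∈ q.stem, ∃ σ ∈ p.stem, ρ ≤ σ) ∧ (q ∈ φ ∨ q ∈ fnot φ) := by
  classical
  have hκ0 : 0 < κ := CoherentSeq.pos hκ
  set T : Set (Cond M) → Cond M → Set Ordinal.{u} := fun ψ t =>
    {μ | μ ∈ Yset t ψ → ∃ ζ < M.o κ, Yset t ψ ∈ M.U κ ζ} with hT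
  have hTF : ∀ ψ t, T ψ t ∈ M.F κ := by
    intro ψ t
    by_cases h : ∃ ζ < M.o κ, Yset t ψ ∈ M.U κ ζ
    · exact Filter.mem_of_superset Filter.univ_mem (fun _ _ _ => h)
    · push Not at h
      refine CoherentSeq.mem_F.2 (fun ζ hζ => ?_)
      exact Filter.mem_of_superset (Ultrafilter.compl_mem_iff_notMem.2 (h ζ hζ))
        (fun x hx hx' => absurd hx' hx)
  set B₁ : Set Ordinal.{u} := {μ | ∀ t : Cond M, (∀ σ ∈ t.stem, σ < μ) → ∀ β < μ,
    μ ∈ T φ t.base ∩ T (fnot φ) t.base} with hB₁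
  have hB₁F : B₁ ∈ M.F κ := diag_stems (fun t _ => T φ t ∩ T (fnot φ) t)
    (fun t _ _ => Filter.inter_mem (hTF _ _) (hTF _ _))
  set B₂ : TopSet M := ⟨B₁ ∩ (Ioi 0 ∩ Iio κ), fun x hx => hx.2.2,
    Filter.inter_mem hB₁F (Filter.inter_mem (CoherentSeq.Ioi_mem_F le_rfl hκ0)
      (CoherentSeq.Iio_mem_F le_rfl))⟩ with hB₂
  have hdec : ∃ q₁ ≤ p.withTop (p.top.inter B₂), ∃ ψ, (ψ = φ ∨ ψ = fnot φ) ∧ q₁ ∈ ψ := by
    by_cases h : p.withTop (p.top.inter B₂) ∈ fnot φ
    · exact ⟨_, le_rfl, _, Or.inr rfl, h⟩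
    · have : ¬ ∀ q ≤ p.withTop (p.top.inter B₂), q ∉ φ := h
      push Not at this
      obtain ⟨q, h1, h2⟩ := this
      exact ⟨q, h1, φ, Or.inl rfl, h2⟩
  obtain ⟨q₁, hq₁, ψ, hψ, hq₁ψ⟩ := hdec
  have hψs : IsSentence ψ := by
    rcases hψ with rfl | rfl
    · exact hφ
    · exact hφ.fnot
  have hq₁p : q₁ ≤ p := Cond.le_withTop_of_le B₂ hq₁
  have hnew : ∀ ρ ∈ q₁.stem, (∀ σ ∈ p.stem, σ < ρ) → ρ ∈ B₂.1 := by
    intro ρ hρ hs
    have hn : (p.withTop (p.top.inter B₂)).Next ρ κ := by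
      refine ⟨Or.inl rfl, (q₁.lt ρ hρ).le, ?_⟩
      intro σ hσ h
      rcases hσ with rfl | hσ
      · exact le_rfl
      · exact absurd h (not_le.2 (hs σ hσ))
    obtain ⟨h1, _⟩ := hq₁.2 ρ (Or.inr hρ) κ hn
    rcases h1 with h1 | h1
    · exact absurd h1 (q₁.lt ρ hρ).ne
    · rw [Cond.withTop_set_top] at h1
      exact h1.2
  set S : Set Ordinal.{u} := {ρ | ¬ ∀ σ ∈ p.stem, σ < ρ} with hS
  have hind : ∀ (n : ℕ) (t : Cond M), (t.stem.filter (· ∉ S)).card = n →
      (∀ ρ ∈ t.stem, ρ ∉ S → ρ ∈ B₂.1) → StarF t ψ → StarF (t.restr S) ψ := by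
    intro n
    induction n with
    | zero =>
      intro t hc _ hst
      have : t.restr S = t := by
        have h0 : ∀ ρ ∈ t.stem, ρ ∈ S := by
          intro ρ hρ
          by_contra h
          have : ρ ∈ t.stem.filter (· ∉ S) := Finset.mem_filter.2 ⟨hρ, h⟩
          rw [Finset.card_eq_zero.1 hc] at this
          simp at this
        refine Cond.eq_of ?_ ?_
        · ext ρ
          rw [Cond.mem_restr_stem]
          exact ⟨fun h => h.1, fun h => ⟨h, h0 ρ h⟩⟩
        · rintro ν (rfl | hν)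
          · exact Cond.restr_set_top _ _
          · exact Cond.restr_set _ (Cond.mem_restr_stem.1 hν).2
      rwa [this]
    | succ n ih =>
      intro t hc htB hst
      have hne : (t.stem.filter (· ∉ S)).Nonempty := by
        rw [← Finset.card_pos, hc]
        exact Nat.succ_pos n
      set ν := (t.stem.filter (· ∉ S)).max' hne with hνdef
      have hνm : ν ∈ t.stem.filter (· ∉ S) := Finset.max'_mem _ _
      obtain ⟨hνt, hνS⟩ := Finset.mem_filter.1 hνm
      have hνp : ∀ σ ∈ p.stem, σ < ν := not_not.1 hνS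
      have hmax : ∀ ρ ∈ t.stem, ρ ≤ ν := by
        intro ρ hρ
        by_cases hρS : ρ ∈ S
        · have : ∃ σ ∈ p.stem, ρ ≤ σ := by
            have h : ¬ ∀ σ ∈ p.stem, σ < ρ := hρS
            push Not at h
            exact h
          obtain ⟨σ, hσ, h⟩ := this
          exact h.trans (hνp σ hσ).le
        · exact Finset.le_max' _ _ (Finset.mem_filter.2 ⟨hρ, hρS⟩)
      set t' := t.restr (Iio ν) with ht'
      have hνκ : ν < κ := t.lt ν hνt
      have hset : t.set ν ⊆ Iio ν ∧ t.set ν ∈ M.F ν :=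
        ⟨t.sub ν (Or.inr hνt), t.meas ν (Or.inr hνt)⟩
      have hext : ∀ B : TopSet M, t.withTop B = t'.ext ν hνκ (t.set ν) hset B := by
        intro B
        refine Cond.eq_of ?_ ?_
        · ext ρ
          simp only [Cond.withTop_stem, Cond.ext_stem, Finset.mem_insert, ht',
            Cond.mem_restr_stem]
          constructor
          · intro hρ
            rcases (hmax ρ hρ).lt_or_eq with h | h
            · exact Or.inr ⟨hρ, h⟩
            · exact Or.inl h
          · rintro (rfl | h)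
            · exact hνt
            · exact h.1
        · intro ρ hρ
          by_cases h1 : ρ = κ
          · subst h1
            simp
          · have hρt : ρ ∈ t.stem := by
              rcases hρ with h | h
              · exact absurd h h1
              · exact h
            rw [Cond.withTop_set_ne _ _ h1]
            by_cases h2 : ρ = ν
            · subst h2
              simp
            · rw [Cond.ext_set_ne _ _ _ _ _ _ h1 h2, ht', Cond.restr_set]
              exact lt_of_le_of_ne (hmax ρ hρt) h2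
      have hstem' : ∀ σ ∈ t'.stem, σ < ν := fun σ hσ => (Cond.mem_restr_stem.1 hσ).2
      have hνY : ν ∈ Yset t' ψ := by
        obtain ⟨B, hB⟩ := hst
        rw [hext B] at hB
        exact ⟨hstem', hνκ, _, hset, B, hB⟩
      have hνB := htB ν hνt hνS
      have hT' := hνB.1 t' hstem' 0 hνB.2.1
      have hex : ∃ ζ < M.o κ, Yset t' ψ ∈ M.U κ ζ := by
        rcases hψ with rfl | rfl
        · have h3 := hT'.1
          simp only [hT, Yset_base, mem_ofPred_eq] at h3
          exact h3 hνY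
        · have h3 := hT'.2
          simp only [hT, Yset_base, mem_ofPred_eq] at h3
          exact h3 hνY
      obtain ⟨ζ, hζ, hYζ⟩ := hex
      have hst' : StarF t' ψ := star_of_Yset hψs hζ hYζ
      have hcard : (t'.stem.filter (· ∉ S)).card = n := by
        have : t'.stem.filter (· ∉ S) = (t.stem.filter (· ∉ S)).erase ν := by
          ext ρ
          simp only [Finset.mem_filter, Finset.mem_erase, ht', Cond.mem_restr_stem]
          constructor
          · rintro ⟨⟨h1, h2⟩, h3⟩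
            exact ⟨(show ρ < ν from h2).ne, h1, h3⟩
          · rintro ⟨h1, h2, h3⟩
            exact ⟨⟨h2, lt_of_le_of_ne (hmax ρ h2) h1⟩, h3⟩
        rw [this, Finset.card_erase_of_mem hνm, hc]
        rfl
      have h4 := ih t' hcard (fun ρ hρ => htB ρ (Cond.mem_restr_stem.1 hρ).1) hst'
      obtain ⟨B, hB⟩ := h4
      refine ⟨B, ?_⟩
      have : (t.restr S).withTop B = (t'.restr S).withTop B := by
        have hlt : ∀ ρ ∈ S, ρ < ν := by
          intro ρ hρS
          have h : ¬ ∀ σ ∈ p.stem, σ < ρ := hρS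
          push Not at h
          obtain ⟨σ, hσ, h⟩ := h
          exact h.trans_lt (hνp σ hσ)
        refine Cond.eq_of ?_ ?_
        · ext ρ
          simp only [Cond.withTop_stem, Cond.mem_restr_stem, ht']
          exact ⟨fun h => ⟨⟨h.1, hlt ρ h.2⟩, h.2⟩, fun h => ⟨h.1.1, h.2⟩⟩
        · intro ρ hρ
          by_cases h1 : ρ = κ
          · subst h1
            simp
          · have hρ' : ρ ∈ (t.restr S).stem := by
              rcases hρ with h | h
              · exact absurd h h1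
              · exact h
            have hρS := (Cond.mem_restr_stem.1 hρ').2
            rw [Cond.withTop_set_ne _ _ h1, Cond.withTop_set_ne _ _ h1, Cond.restr_set _ hρS,
              Cond.restr_set _ hρS, ht', Cond.restr_set]
            exact hlt ρ hρS
      rw [this]
      exact hB
  have hstar : StarF (q₁.restr S) ψ := by
    refine hind _ q₁ rfl ?_ ⟨q₁.top, by rwa [Cond.withTop_top]⟩
    intro ρ hρ hρS
    exact hnew ρ hρ (not_not.1 hρS)
  obtain ⟨B, hB⟩ := hstar
  refine ⟨(q₁.restr S).withTop (B.inter p.top), ⟨?_, ?_⟩, ?_, ?_⟩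
  · intro σ hσ
    rw [Cond.withTop_stem, Cond.mem_restr_stem]
    exact ⟨hq₁p.1 hσ, fun h => lt_irrefl _ (h σ hσ)⟩
  · intro ρ hρ l hl
    by_cases h1 : ρ = κ
    · subst h1
      have : l = ρ := le_antisymm (p.dom_le hl.1) hl.2.1
      subst this
      refine ⟨Or.inl rfl, ?_⟩
      rw [Cond.withTop_set_top]
      exact inter_subset_right
    · have hρ' : ρ ∈ (q₁.restr S).stem := by
        rcases hρ with h | h
        · exact absurd h h1
        · exact h
      obtain ⟨h2, h3⟩ := Cond.mem_restr_stem.1 hρ'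
      rw [Cond.withTop_set_ne _ _ h1, Cond.restr_set _ h3]
      exact hq₁p.2 ρ (Or.inr h2) l hl
  · intro ρ hρ
    have h := (Cond.mem_restr_stem.1 hρ).2
    have h : ¬ ∀ σ ∈ p.stem, σ < ρ := h
    push Not at h
    exact h
  · have : (q₁.restr S).withTop (B.inter p.top) ∈ ψ :=
      hψs.down hB (Cond.withTop_le inter_subset_left)
    rcases hψ with rfl | rfl
    · exact Or.inl this
    · exact Or.inr this

end Run7.h429.MR
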