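import Pool.Agent.Run7.h429.MR.Card

/-!
# The computed part of the generic sequence contains a tail of the types
-/

namespace Run7.h429.MR

open Set Cardinal

universe u v

variable {κ : Ordinal.{u}} {M : CoherentSeq κ}

/-! ### Restrictions and one-point extensions -/

theorem Cond.restr_withTop_le {t p : Cond M} (h : t ≤ p) {S : Set Ordinal.{u}}
    (hS : ∀ ρ ∈ p.stem, ρ ∈ S) : (t.restr S).withTop p.top ≤ p := by
  refine ⟨?_, ?_⟩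
  · intro σ hσ
    rw [Cond.withTop_stem, Cond.mem_restr_stem]
    exact ⟨h.1 hσ, hS σ hσ⟩
  · intro ρ hρ l hl
    by_cases h1 : ρ = κ
    · subst h1
      have : l = ρ := le_antisymm (p.dom_le hl.1) hl.2.1
      subst this
      refine ⟨Or.inl rfl, ?_⟩
      rw [Cond.withTop_set_top]
      exact Subset.rfl
    · have hρ' : ρ ∈ (t.restr S).stem := by
        rcases hρ with h | h
        · exact absurd h h1
        · exact h
      obtain ⟨h2, h3⟩ := Cond.mem_restr_stem.1 hρ'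
      rw [Cond.withTop_set_ne _ _ h1, Cond.restr_set _ h3]
      exact h.2 ρ (Or.inr h2) l hl

theorem Cond.withTop_restr_withTop (t : Cond M) (T T' : TopSet M) (S : Set Ordinal.{u}) :
    ((t.withTop T).restr S).withTop T' = (t.restr S).withTop T' := by
  refine Cond.eq_of ?_ ?_
  · ext ρ
    simp only [Cond.withTop_stem, Cond.mem_restr_stem]
  · intro ρ hρ
    by_cases h1 : ρ = κ
    · subst h1
      simp
    · have hρ' : ρ ∈ ((t.withTop T).restr S).stem := by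
        rcases hρ with h | h
        · exact absurd h h1
        · exact h
      obtain ⟨h2, h3⟩ := Cond.mem_restr_stem.1 hρ'
      rw [Cond.withTop_set_ne _ _ h1, Cond.withTop_set_ne _ _ h1, Cond.restr_set _ h3,
        Cond.restr_set _ h3, Cond.withTop_set_ne _ _ h1]

theorem Cond.withTop_le_of_base_le {t s : Cond M} (h : t.base ≤ s.base)
    (hst : ∀ ρ ∈ t.stem, ∃ σ ∈ s.stem, ρ ≤ σ) (T : TopSet M) :
    t.withTop T ≤ s.withTop T := by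
  refine ⟨h.1, ?_⟩
  intro ρ hρ l hl
  have hl' : s.Next ρ l := hl
  by_cases h1 : ρ = κ
  · subst h1
    have : l = ρ := le_antisymm (s.dom_le hl'.1) hl'.2.1
    subst this
    refine ⟨Or.inl rfl, ?_⟩
    rw [Cond.withTop_set_top, Cond.withTop_set_top]
  · have hρt : ρ ∈ t.stem := hρ.resolve_left h1
    obtain ⟨σ, hσ, hρσ⟩ := hst ρ hρt
    have hlκ : l ≠ κ := ((hl'.2.2 σ (Or.inr hσ) hρσ).trans_lt (s.lt σ hσ)).ne
    have h2 := h.2 ρ hρ l hl'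
    rw [Cond.base, Cond.base, Cond.withTop_set_ne _ _ h1, Cond.withTop_set_ne _ _ hlκ] at h2
    rw [Cond.withTop_set_ne _ _ h1, Cond.withTop_set_ne _ _ hlκ]
    exact h2

theorem Cond.ext_le_withTop {s : Cond M} {ν : Ordinal.{u}} (hν : ν < κ) {E : Set Ordinal.{u}}
    (hE : E ⊆ Iio ν ∧ E ∈ M.F ν) {C T : TopSet M} (hs : ∀ σ ∈ s.stem, σ < ν) (hνT : ν ∈ T.1)
    (hET : E ⊆ T.1) (hCT : C.1 ⊆ T.1) : s.ext ν hν E hE C ≤ s.withTop T := by
  refine ⟨Finset.subset_insert _ _, ?_⟩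
  intro ρ hρ l hl
  have hl' : s.Next ρ l := hl
  by_cases h1 : ρ = κ
  · subst h1
    have : l = ρ := le_antisymm (s.dom_le hl'.1) hl'.2.1
    subst this
    refine ⟨Or.inl rfl, ?_⟩
    rw [Cond.ext_set_top, Cond.withTop_set_top]
    exact hCT
  · by_cases h2 : ρ = ν
    · subst h2
      have hlκ : l = κ := by
        rcases hl'.1 with h | h
        · exact h
        · exact absurd hl'.2.1 (not_le.2 (hs l h))
      subst hlκ
      rw [Cond.ext_set_self, Cond.withTop_set_top]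
      exact ⟨Or.inr hνT, hET⟩
    · have hρs : ρ ∈ s.stem := by
        rcases hρ with h | h
        · exact absurd h h1
        · exact (Finset.mem_insert.1 h).resolve_left h2
      have := (s.next_self (Or.inr hρs)).unique hl'
      subst this
      refine ⟨Or.inl rfl, ?_⟩
      rw [Cond.ext_set_ne _ _ _ _ _ _ h1 h2, Cond.withTop_set_ne _ _ h1]

theorem Cond.withTop_eq_ext {t : Cond M} {ν : Ordinal.{u}} (hν : ν ∈ t.stem)
    (hmax : ∀ ρ ∈ t.stem, ρ ≤ ν) (C : TopSet M) :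
    t.withTop C = (t.restr (Iio ν)).ext ν (t.lt ν hν) (t.set ν)
      ⟨t.sub ν (Or.inr hν), t.meas ν (Or.inr hν)⟩ C := by
  refine Cond.eq_of ?_ ?_
  · ext ρ
    simp only [Cond.withTop_stem, Cond.ext_stem, Finset.mem_insert, Cond.mem_restr_stem]
    constructor
    · intro hρ
      rcases (hmax ρ hρ).lt_or_eq with h | h
      · exact Or.inr ⟨hρ, h⟩
      · exact Or.inl h
    · rintro (rfl | h)
      · exact hν
      · exact h.1
  · intro ρ hρ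
    by_cases h1 : ρ = κ
    · subst h1
      simp
    · have hρt : ρ ∈ t.stem := by
        rcases hρ with h | h
        · exact absurd h h1
        · exact h
      rw [Cond.withTop_set_ne _ _ h1]
      by_cases h2 : ρ = ν
      · subst h2
        simp
      · rw [Cond.ext_set_ne _ _ _ _ _ _ h1 h2, Cond.restr_set]
        exact lt_of_le_of_ne (hmax ρ hρt) h2

theorem Cond.new_mem {p q : Cond M} (h : q ≤ p) {ρ : Ordinal.{u}} (hρ : ρ ∈ q.stem)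
    (hs : ∀ σ ∈ p.stem, σ < ρ) : ρ ∈ p.set κ ∧ q.set ρ ⊆ p.set κ := by
  have hn : p.Next ρ κ := by
    refine ⟨Or.inl rfl, (q.lt ρ hρ).le, ?_⟩
    intro σ hσ h
    rcases hσ with rfl | hσ
    · exact le_rfl
    · exact absurd h (not_le.2 (hs σ hσ))
  obtain ⟨h1, h2⟩ := h.2 ρ (Or.inr hρ) κ hn
  exact ⟨h1.resolve_left (q.lt ρ hρ).ne, h2⟩

/-! ### Shrinking the sets below `κ` -/

/-- `t₁` is obtained from `t` by shrinking the sets (the top sets are ignored). -/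
def Shr (t₁ t : Cond M) : Prop := t₁.stem = t.stem ∧ ∀ ρ ∈ t.stem, t₁.set ρ ⊆ t.set ρ

theorem Shr.withTop_le {t₁ t : Cond M} (h : Shr t₁ t) (T : TopSet M) :
    t₁.withTop T ≤ t.withTop T := by
  refine Cond.le_of_subset h.1 ?_
  intro ν hν
  by_cases h1 : ν = κ
  · subst h1
    simp
  · rw [Cond.withTop_set_ne _ _ h1, Cond.withTop_set_ne _ _ h1]
    refine h.2 ν ?_
    rcases hν with h' | h'
    · exact absurd h' h1
    · rwa [Cond.withTop_stem, h.1] at h'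

theorem Shr.starF {t₁ t : Cond M} (h : Shr t₁ t) {ψ : Set (Cond M)} (hψ : IsSentence ψ)
    (hs : StarF t ψ) : StarF t₁ ψ := by
  obtain ⟨T, hT⟩ := hs
  exact ⟨T, hψ.down hT (h.withTop_le T)⟩

theorem Shr.ext {t₁ t : Cond M} (h : Shr t₁ t) {ν : Ordinal.{u}} (hν : ν < κ)
    {E E' : Set Ordinal.{u}} (hE : E ⊆ Iio ν ∧ E ∈ M.F ν) (hE' : E' ⊆ Iio ν ∧ E' ∈ M.F ν)
    (hEE : E' ⊆ E) (C C' : TopSet M) :
    Shr (t₁.ext ν hν E' hE' C') (t.ext ν hν E hE C) := by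
  refine ⟨by rw [Cond.ext_stem, Cond.ext_stem, h.1], ?_⟩
  intro ρ hρ
  have hρκ : ρ ≠ κ := by
    rintro rfl
    exact (t.ext ν hν E hE C).not_mem_stem hρ
  by_cases h2 : ρ = ν
  · subst h2
    rw [Cond.ext_set_self, Cond.ext_set_self]
    exact hEE
  · rw [Cond.ext_set_ne _ _ _ _ _ _ hρκ h2, Cond.ext_set_ne _ _ _ _ _ _ hρκ h2]
    exact h.2 ρ ((Finset.mem_insert.1 hρ).resolve_left h2)

theorem Shr.refl (t : Cond M) : Shr t t := ⟨rfl, fun _ _ => Subset.rfl⟩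

/-! ### Iterated one-point extensions -/

/-- The stems from which `Ψ` can be reached by adding `n` typical points. -/
def Gd (Ψ : Set (Cond M)) : ℕ → Set (Cond M)
  | 0 => Ψ
  | n + 1 => {t | ∃ ζ < M.o κ, Yset t (Gd Ψ n) ∈ M.U κ ζ}

theorem Gd_shr {Ψ : Set (Cond M)} (hΨ : ∀ t₁ t, Shr t₁ t → t ∈ Ψ → t₁ ∈ Ψ) :
    ∀ n t₁ t, Shr t₁ t → t ∈ Gd Ψ n → t₁ ∈ Gd Ψ n := by
  intro n
  induction n with
  | zero => exact hΨ
  | succ n ih =>
    rintro t₁ t h ⟨ζ, hζ, hY⟩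
    refine ⟨ζ, hζ, Filter.mem_of_superset hY ?_⟩
    rintro ν ⟨h1, hν, E, hE, C, h2⟩
    exact ⟨by rwa [h.1], hν, E, hE, C, ih _ _ (h.ext hν hE hE Subset.rfl C C) h2⟩

theorem exists_TG (M : CoherentSeq κ) (Ψ : Set (Cond M)) :
    ∃ TG ∈ M.F κ, ∀ ρ ∈ TG, 0 < ρ ∧ ∀ t : Cond M, (∀ σ ∈ t.stem, σ < ρ) → ∀ n,
      ρ ∈ Yset t (Gd Ψ n) → ∃ ζ < M.o κ, Yset t (Gd Ψ n) ∈ M.U κ ζ := by
  classical
  have h1 : ∀ t : Cond M, {ρ | ∀ n, ρ ∈ Yset t (Gd Ψ n) →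
      ∃ ζ < M.o κ, Yset t (Gd Ψ n) ∈ M.U κ ζ} ∈ M.F κ := by
    intro t
    refine CoherentSeq.mem_F.2 (fun ζ hζ => ?_)
    refine (M.normal κ le_rfl ζ hζ).inter_nat (fun n => {ρ | ρ ∈ Yset t (Gd Ψ n) →
      ∃ ζ < M.o κ, Yset t (Gd Ψ n) ∈ M.U κ ζ}) ?_
    intro n
    by_cases h : Yset t (Gd Ψ n) ∈ M.U κ ζ
    · exact Filter.mem_of_superset Filter.univ_mem (fun _ _ _ => ⟨ζ, hζ, h⟩)
    · exact Filter.mem_of_superset (Ultrafilter.compl_mem_iff_notMem.2 h)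
        (fun x hx hx' => absurd hx' hx)
  have h2 : Ioi (0 : Ordinal.{u}) ∈ M.F κ :=
    CoherentSeq.mem_F.2 (fun ζ hζ => (M.normal κ le_rfl ζ hζ).Ioi_mem
      (M.normal κ le_rfl ζ hζ).pos)
  refine ⟨_, Filter.inter_mem (diag_stems (fun t _ => {ρ | ∀ n, ρ ∈ Yset t (Gd Ψ n) →
      ∃ ζ < M.o κ, Yset t (Gd Ψ n) ∈ M.U κ ζ}) (fun t _ _ => h1 t)) h2, ?_⟩
  rintro ρ ⟨h3, h4⟩
  have h4' : 0 < ρ := h4
  refine ⟨h4', ?_⟩
  intro t ht n hn
  have := h3 t ht 0 h4' n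
  rw [Yset_base] at this
  exact this hn

theorem peel {Ψ : Set (Cond M)} (hΨ : ∀ t₁ t, Shr t₁ t → t ∈ Ψ → t₁ ∈ Ψ)
    {TG : Set Ordinal.{u}} (hTG : ∀ ρ ∈ TG, ∀ t : Cond M, (∀ σ ∈ t.stem, σ < ρ) → ∀ n,
      ρ ∈ Yset t (Gd Ψ n) → ∃ ζ < M.o κ, Yset t (Gd Ψ n) ∈ M.U κ ζ)
    {S : Set Ordinal.{u}} (hS : ∀ ρ ∈ S, ∀ ν, ν ∉ S → ρ < ν) :
    ∀ (m : ℕ) (t : Cond M) (n : ℕ), {ρ | ρ ∈ t.stem ∧ ρ ∉ S}.ncard = m →
      (∀ ρ ∈ t.stem, ρ ∉ S → ρ ∈ TG) → t ∈ Gd Ψ n → ∃ n', t.restr S ∈ Gd Ψ n' := by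
  classical
  intro m
  induction m with
  | zero =>
    intro t n hc _ hst
    have hfin : {ρ | ρ ∈ t.stem ∧ ρ ∉ S}.Finite :=
      t.stem.finite_toSet.subset (fun ρ hρ => hρ.1)
    rw [Set.ncard_eq_zero hfin] at hc
    have h0 : ∀ ρ ∈ t.stem, ρ ∈ S := by
      intro ρ hρ
      by_contra h
      have : ρ ∈ {ρ | ρ ∈ t.stem ∧ ρ ∉ S} := ⟨hρ, h⟩
      rw [hc] at this
      exact this
    refine ⟨n, Gd_shr hΨ n _ _ ⟨?_, ?_⟩ hst⟩
    · ext ρ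
      rw [Cond.mem_restr_stem]
      exact ⟨fun h => h.1, fun h => ⟨h, h0 ρ h⟩⟩
    · intro ρ hρ
      rw [Cond.restr_set _ (h0 ρ hρ)]
  | succ m ih =>
    intro t n hc htB hst
    have hfin : {ρ | ρ ∈ t.stem ∧ ρ ∉ S}.Finite :=
      t.stem.finite_toSet.subset (fun ρ hρ => hρ.1)
    have hne' : {ρ | ρ ∈ t.stem ∧ ρ ∉ S}.Nonempty := by
      rw [← Set.ncard_pos hfin, hc]
      exact Nat.succ_pos m
    have hne : (t.stem.filter (· ∉ S)).Nonempty := by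
      obtain ⟨ρ, h1, h2⟩ := hne'
      exact ⟨ρ, Finset.mem_filter.2 ⟨h1, h2⟩⟩
    set ν := (t.stem.filter (· ∉ S)).max' hne with hνdef
    have hνm : ν ∈ t.stem.filter (· ∉ S) := Finset.max'_mem _ _
    obtain ⟨hνt, hνS⟩ := Finset.mem_filter.1 hνm
    have hmax : ∀ ρ ∈ t.stem, ρ ≤ ν := by
      intro ρ hρ
      by_cases hρS : ρ ∈ S
      · exact (hS ρ hρS ν hνS).le
      · exact Finset.le_max' _ _ (Finset.mem_filter.2 ⟨hρ, hρS⟩)
    set t' := t.restr (Iio ν) with ht'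
    have hstem' : ∀ σ ∈ t'.stem, σ < ν := fun σ hσ => (Cond.mem_restr_stem.1 hσ).2
    have hνY : ν ∈ Yset t' (Gd Ψ n) := by
      have := Cond.withTop_eq_ext hνt hmax t.top
      rw [Cond.withTop_top] at this
      rw [this] at hst
      exact ⟨hstem', t.lt ν hνt, _, _, _, hst⟩
    have hst' : t' ∈ Gd Ψ (n + 1) := hTG ν (htB ν hνt hνS) t' hstem' n hνY
    have hcard : {ρ | ρ ∈ t'.stem ∧ ρ ∉ S}.ncard = m := by
      have : {ρ | ρ ∈ t'.stem ∧ ρ ∉ S} = {ρ | ρ ∈ t.stem ∧ ρ ∉ S} \ {ν} := by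
        ext ρ
        simp only [ht', Cond.mem_restr_stem, mem_sdiff, mem_ofPred_eq, mem_singleton_iff]
        constructor
        · rintro ⟨⟨h1, h2⟩, h3⟩
          exact ⟨⟨h1, h3⟩, (show ρ < ν from h2).ne⟩
        · rintro ⟨⟨h1, h3⟩, h2⟩
          exact ⟨⟨h1, lt_of_le_of_ne (hmax ρ h1) h2⟩, h3⟩
      rw [this]
      have h5 := Set.ncard_sdiff_singleton_add_one
        (show ν ∈ {ρ | ρ ∈ t.stem ∧ ρ ∉ S} from ⟨hνt, hνS⟩) hfin
      rw [hc] at h5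
      exact Nat.succ_injective h5
    obtain ⟨n', hn'⟩ := ih t' (n + 1) hcard
      (fun ρ hρ => htB ρ (Cond.mem_restr_stem.1 hρ).1) hst'
    refine ⟨n', Gd_shr hΨ n' _ _ ⟨?_, ?_⟩ hn'⟩
    · ext ρ
      simp only [Cond.mem_restr_stem, ht']
      exact ⟨fun h => ⟨⟨h.1, hS ρ h.2 ν hνS⟩, h.2⟩, fun h => ⟨h.1.1, h.2⟩⟩
    · intro ρ hρ
      have h6 := (Cond.mem_restr_stem.1 hρ).2
      rw [Cond.restr_set _ h6, Cond.restr_set _ h6, ht', Cond.restr_set]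
      exact hS ρ h6 ν hνS

theorem Gd_of_code {Ψ : Set (Cond M)} {t t' : Cond M} (h : t.code = t'.code) (n : ℕ) :
    Yset t (Gd Ψ n) = Yset t' (Gd Ψ n) := by
  rw [← Yset_base, Cond.base_eq_of_code h, Yset_base]

theorem exists_sup (hκ : 0 < M.o κ) (ho : M.o κ = (Order.succ κ.card).ord)
    (Ψ : Set (Cond M)) : ∃ b < M.o κ, ∀ n (t : Cond M), t ∈ Gd Ψ (n + 1) →
      ∃ ζ ≤ b, Yset t (Gd Ψ n) ∈ M.U κ ζ := by
  classical
  have hch : ∀ j : (Codes κ) × ULift.{u + 1} ℕ, ∃ b < M.o κ, ∀ t : Cond M, t.code = j.1.1 →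
      t ∈ Gd Ψ (j.2.down + 1) → ∃ ζ ≤ b, Yset t (Gd Ψ j.2.down) ∈ M.U κ ζ := by
    intro j
    by_cases h : ∃ t : Cond M, t.code = j.1.1 ∧ t ∈ Gd Ψ (j.2.down + 1)
    · obtain ⟨t₀, h1, ζ, hζ, h2⟩ := h
      refine ⟨ζ, hζ, ?_⟩
      intro t ht _
      refine ⟨ζ, le_rfl, ?_⟩
      rw [Gd_of_code (ht.trans h1.symm)]
      exact h2
    · exact ⟨0, hκ, fun t h1 h2 => absurd ⟨t, h1, h2⟩ h⟩
  choose f hf hf' using hch
  have hJ : #((Codes κ) × ULift.{u + 1} ℕ) ≤ #(Iio κ) := by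
    rw [Cardinal.mk_prod, Cardinal.lift_id, Cardinal.lift_id, Cardinal.mk_uLift,
      Cardinal.mk_nat, Cardinal.lift_aleph0]
    calc _ ≤ #(Iio κ) * #(Iio κ) := mul_le_mul' (mk_codes_le hκ) (aleph0_le hκ)
      _ = #(Iio κ) := Cardinal.mul_eq_self (aleph0_le hκ)
  obtain ⟨b, hb, hb'⟩ := sup_lt ho hJ f hf
  refine ⟨b, hb, ?_⟩
  intro n t ht
  obtain ⟨ζ, h1, h2⟩ := hf' (⟨t.code, code_mem_codes hκ t⟩, ⟨n⟩) t rfl ht
  exact ⟨ζ, h1.trans (hb' _), h2⟩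

/-- The points of `t` above those of `s` and their sets are in `E`, and the other points and
sets are as in an extension of `s`. -/
def Bel (E : Set Ordinal.{u}) (t s : Cond M) : Prop :=
  s.stem ⊆ t.stem ∧ ∀ ρ ∈ t.stem, ∀ l, s.Next ρ l →
    (l ≠ κ → (ρ = l ∨ ρ ∈ s.set l) ∧ t.set ρ ⊆ s.set l) ∧ (l = κ → ρ ∈ E ∧ t.set ρ ⊆ E)

theorem Bel.ext {E : Set Ordinal.{u}} {t s : Cond M} (h : Bel E t s) {ν : Ordinal.{u}}
    (hν : ν < κ) (hνE : ν ∈ E) (ht : ∀ σ ∈ t.stem, σ < ν) {E' : Set Ordinal.{u}}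
    (hE' : E' ⊆ Iio ν ∧ E' ∈ M.F ν) (hEE : E' ⊆ E) (C : TopSet M) :
    Bel E (t.ext ν hν E' hE' C) s := by
  refine ⟨h.1.trans (Finset.subset_insert _ _), ?_⟩
  intro ρ hρ l hl
  have hρκ : ρ ≠ κ := by
    rintro rfl
    exact (t.ext ν hν E' hE' C).not_mem_stem hρ
  by_cases h2 : ρ = ν
  · subst h2
    refine ⟨fun hlκ => ?_, fun _ => ?_⟩
    · exact absurd hl.2.1 (not_le.2 (ht l (h.1 (hl.1.resolve_left hlκ))))
    · rw [Cond.ext_set_self]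
      exact ⟨hνE, hEE⟩
  · rw [Cond.ext_set_ne _ _ _ _ _ _ hρκ h2]
    exact h.2 ρ ((Finset.mem_insert.1 hρ).resolve_left h2) l hl

theorem Bel.ext_le {E : Set Ordinal.{u}} {t s : Cond M} (h : Bel E t s) {ν : Ordinal.{u}}
    (hν : ν < κ) (ht : ∀ σ ∈ t.stem, σ < ν) {E' E'' : Set Ordinal.{u}}
    (hE' : E' ⊆ Iio ν ∧ E' ∈ M.F ν) (hE'' : E'' ⊆ Iio ν ∧ E'' ∈ M.F ν) (hEE : E' ⊆ E'')
    (hE : ∀ x ∈ E, x < ν → x ∈ E'') {C C' : TopSet M} (hC : C.1 ⊆ C'.1) :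
    t.ext ν hν E' hE' C ≤ s.ext ν hν E'' hE'' C' := by
  refine ⟨Finset.insert_subset_insert _ h.1, ?_⟩
  intro ρ hρ l hl
  by_cases h1 : ρ = κ
  · subst h1
    have : l = ρ := le_antisymm (Cond.dom_le _ hl.1) hl.2.1
    subst this
    refine ⟨Or.inl rfl, ?_⟩
    rw [Cond.ext_set_top, Cond.ext_set_top]
    exact hC
  · by_cases h2 : ρ = ν
    · subst h2
      have := (Cond.next_self (s.ext ρ hν E'' hE'' C')
        (Or.inr (Finset.mem_insert_self _ _))).unique hl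
      subst this
      refine ⟨Or.inl rfl, ?_⟩
      rw [Cond.ext_set_self, Cond.ext_set_self]
      exact hEE
    · have hρt : ρ ∈ t.stem := by
        rcases hρ with h | h
        · exact absurd h h1
        · exact (Finset.mem_insert.1 h).resolve_left h2
      have hρν : ρ < ν := ht ρ hρt
      rw [Cond.ext_set_ne _ _ _ _ _ _ h1 h2]
      obtain ⟨l₀, hl₀⟩ := s.next_exists (t.lt ρ hρt).le
      obtain ⟨h3, h4⟩ := h.2 ρ hρt l₀ hl₀
      by_cases hl₀κ : l₀ = κ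
      · have hlν : l = ν := by
          have h5 : l ≤ ν := hl.2.2 ν (Or.inr (Finset.mem_insert_self _ _)) hρν.le
          rcases hl.1 with h | h
          · exact absurd (h ▸ h5) (not_le.2 hν)
          · rcases Finset.mem_insert.1 h with h | h
            · exact h
            · have := hl₀.2.2 l (Or.inr h) hl.2.1
              rw [hl₀κ] at this
              exact absurd (s.lt l h) (not_lt.2 this)
        subst hlν
        rw [Cond.ext_set_self]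
        obtain ⟨h5, h6⟩ := h4 hl₀κ
        refine ⟨Or.inr (hE ρ h5 hρν), ?_⟩
        intro x hx
        exact hE x (h6 hx) ((show x < ρ from t.sub ρ (Or.inr hρt) hx).trans hρν)
      · have hl₀s : l₀ ∈ s.stem := hl₀.1.resolve_left hl₀κ
        have hl₀ν : l₀ < ν := ht l₀ (h.1 hl₀s)
        have hn : (s.ext ν hν E'' hE'' C').Next ρ l₀ := by
          refine ⟨Or.inr (Finset.mem_insert_of_mem hl₀s), hl₀.2.1, ?_⟩
          intro τ hτ hρτ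
          rcases hτ with rfl | hτ
          · exact hl₀ν.le.trans hν.le
          · rcases Finset.mem_insert.1 hτ with rfl | hτ
            · exact hl₀ν.le
            · exact hl₀.2.2 τ (Or.inr hτ) hρτ
        have := hn.unique hl
        subst this
        rw [Cond.ext_set_ne _ _ _ _ _ _ hl₀κ hl₀ν.ne]
        exact h3 hl₀κ

theorem Bel.le_withTop {E : Set Ordinal.{u}} {t s : Cond M} (h : Bel E t s) {T T' : TopSet M}
    (hE : E ⊆ T'.1) (hT : T.1 ⊆ T'.1) : t.withTop T ≤ s.withTop T' := by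
  refine ⟨h.1, ?_⟩
  intro ρ hρ l hl
  have hl' : s.Next ρ l := hl
  by_cases h1 : ρ = κ
  · subst h1
    have : l = ρ := le_antisymm (Cond.dom_le _ hl'.1) hl'.2.1
    subst this
    refine ⟨Or.inl rfl, ?_⟩
    rw [Cond.withTop_set_top, Cond.withTop_set_top]
    exact hT
  · have hρt : ρ ∈ t.stem := hρ.resolve_left h1
    obtain ⟨h3, h4⟩ := h.2 ρ hρt l hl'
    rw [Cond.withTop_set_ne _ _ h1]
    by_cases hlκ : l = κ
    · subst hlκ
      rw [Cond.withTop_set_top]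
      exact ⟨Or.inr (hE (h4 rfl).1), (h4 rfl).2.trans hE⟩
    · rw [Cond.withTop_set_ne _ _ hlκ]
      exact h3 hlκ

theorem descend {Ψ : Set (Cond M)} (hΨ : ∀ t₁ t, Shr t₁ t → t ∈ Ψ → t₁ ∈ Ψ)
    {b : Ordinal.{u}} (hsup : ∀ n (t : Cond M), t ∈ Gd Ψ (n + 1) →
      ∃ ζ ≤ b, Yset t (Gd Ψ n) ∈ M.U κ ζ) {E : Set Ordinal.{u}}
    (hE : ∀ γ ≤ b, E ∈ M.U κ γ ∧ {ν | E ∈ M.F ν} ∈ M.U κ γ) (s : Cond M) :
    ∀ (n : ℕ) (t : Cond M), t ∈ Gd Ψ n → Bel E t s → ∃ t' ∈ Ψ, Bel E t' s := by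
  intro n
  induction n with
  | zero => exact fun t ht h => ⟨t, ht, h⟩
  | succ n ih =>
    intro t ht h
    obtain ⟨γ, hγ, hY⟩ := hsup n t ht
    obtain ⟨h1, h2⟩ := hE γ hγ
    obtain ⟨ν, ⟨h3, hν, E₁, hE₁, C, h4⟩, h5, h6⟩ :=
      (Ultrafilter.neBot (M.U κ γ)).nonempty_of_mem
        (Filter.inter_mem hY (Filter.inter_mem h1 h2))
    have hE₂ : E₁ ∩ E ⊆ Iio ν ∧ E₁ ∩ E ∈ M.F ν :=
      ⟨inter_subset_left.trans hE₁.1, Filter.inter_mem hE₁.2 h6⟩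
    refine ih (t.ext ν hν (E₁ ∩ E) hE₂ C) ?_ ?_
    · exact Gd_shr hΨ n _ _ ((Shr.refl t).ext hν hE₁ hE₂ inter_subset_left C C) h4
    · exact h.ext hν h5 h3 hE₂ inter_subset_right C

/-! ### The sentence that `D` has no points between `μ` and `ν` -/

/-- No `α` with `μ < α < ν` belongs to `D`. -/
def NoD (A : Ordinal.{u} → Set (Cond M)) (B : Set Ordinal.{u}) (ν₀ μ ν : Ordinal.{u}) :
    Set (Cond M) :=
  {p | ∀ α, μ < α → α < ν → p ∈ fnot (Dsent A B ν₀ α)}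

theorem NoD_isSentence (A : Ordinal.{u} → Set (Cond M)) (B : Set Ordinal.{u})
    (ν₀ μ ν : Ordinal.{u}) : IsSentence (NoD A B ν₀ μ ν) := by
  intro p
  constructor
  · intro hp q hq
    exact ⟨q, le_rfl, fun α h1 h2 => (Dsent_isSentence A B ν₀ α).fnot.down (hp α h1 h2) hq⟩
  · intro h α h1 h2
    rw [(Dsent_isSentence A B ν₀ α).fnot p]
    intro q hq
    obtain ⟨r, hr, hr'⟩ := h q hq
    exact ⟨r, hr, hr' α h1 h2⟩

theorem closed_D (hκ : 0 < M.o κ) {A : Ordinal.{u} → Set (Cond M)} {B : Set Ordinal.{u}}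
    (hB : Good A B) {ν₀ : Ordinal.{u}} {q : Cond M} {ν : Ordinal.{u}} (hν : ν ∈ B)
    (hq : q ∈ fnot (Dsent A B ν₀ ν)) :
    ∃ μ, (μ = ν₀ ∨ (μ ∈ B ∧ μ < ν)) ∧ ∃ q' ≤ q, q' ∈ NoD A B ν₀ μ ν := by
  have h1 : q ∉ Dsent A B ν₀ ν := hq q le_rfl
  have h2 : ¬ ∀ μ, (μ = ν₀ ∨ (μ ∈ B ∧ μ < ν)) → ∀ q' ≤ q, ∃ r ≤ q',
      ∃ β < nxt B ν, ∃ β' < nxt B ν, Eqv A μ β β' ∧ r ∈ A β ∧ r ∈ fnot (A β') :=
    fun h => h1 ⟨hν, h⟩
  push Not at h2
  obtain ⟨μ, hμ, q', hq', h3⟩ := h2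
  refine ⟨μ, hμ, q', hq', ?_⟩
  intro α hμα hαν r hr hrD
  have hμ' : μ = ν₀ ∨ (μ ∈ B ∧ μ < α) := hμ.imp id (fun h => ⟨h.1, hμα⟩)
  obtain ⟨r', hr', β, hβ, β', hβ', h4, h5, h6⟩ := hrD.2 μ hμ' r le_rfl
  have hne : (B ∩ Ioi ν).Nonempty := by
    obtain ⟨ρ, h7, h8, _⟩ := F_unbounded hκ hB.mem (hB.sub hν)
    exact ⟨ρ, h7, h8⟩
  have hn := nxt_mono hne hαν.le
  exact h3 r' (hr'.trans hr) β (hβ.trans_le hn) β' (hβ'.trans_le hn) h4 h5 h6

theorem stems_lt_mem {ζ : Ordinal.{u}} (hζ : ζ < M.o κ) (t : Cond M) :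
    {ν | ∀ σ ∈ t.stem, σ < ν} ∈ M.U κ ζ := by
  have h : (⋂ σ ∈ t.stem, Ioi σ) ∈ (M.U κ ζ : Filter Ordinal.{u}) :=
    (Filter.biInter_finset_mem _).2 (fun σ hσ => (M.normal κ le_rfl ζ hζ).Ioi_mem (t.lt σ hσ))
  refine Filter.mem_of_superset h ?_
  intro ν hν σ hσ
  have := mem_iInter₂.1 hν σ hσ
  exact this

end Run7.h429.MR
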